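import Mathlib
import Pool.Agent.Y113.Defs

/-!
# The value of the power series `log p`, `p` an integer polynomial with `p(0) = 1`
-/

set_option autoImplicit false

open PowerSeries

namespace Pool.Agent.K3h1.LM

open Pool.Agent.Y113

/-- `log ∏ (1 - θ z)` -/
noncomputable def lth (Θ : Multiset ℂ) : ℂ⟦X⟧ :=
  PowerSeries.mk fun m => -((Θ.map fun θ : ℂ => θ ^ m / (m : ℂ)).sum)

/-- `∏ (1 - θ z)` -/
noncomputable def pth (Θ : Multiset ℂ) : Polynomial ℂ :=
  (Θ.map fun θ => 1 - Polynomial.C θ * Polynomial.X).prod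

theorem lth_zero : lth 0 = 0 := by
  ext m
  simp [lth]

theorem lth_cons (θ : ℂ) (Θ : Multiset ℂ) : lth (θ ::ₘ Θ) = lth {θ} + lth Θ := by
  ext m
  simp only [lth, coeff_mk, map_add, Multiset.map_cons, Multiset.sum_cons, Multiset.map_singleton,
    Multiset.sum_singleton]
  ring

theorem pth_cons (θ : ℂ) (Θ : Multiset ℂ) :
    pth (θ ::ₘ Θ) = (1 - Polynomial.C θ * Polynomial.X) * pth Θ := by
  simp [pth]

theorem lth_single_deriv (θ : ℂ) :
    (1 - PowerSeries.C θ * X) * d⁄dX ℂ (lth {θ}) = -PowerSeries.C θ := by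
  have h1 : ∀ m, coeff m (d⁄dX ℂ (lth {θ})) = -θ ^ (m + 1) := by
    intro m
    rw [PowerSeries.coeff_derivative, lth, coeff_mk]
    have h2 : ((m : ℂ) + 1) ≠ 0 := by exact_mod_cast Nat.succ_ne_zero m
    simp only [Multiset.map_singleton, Multiset.sum_singleton]
    push_cast
    field_simp
  ext m
  rw [sub_mul, one_mul, mul_assoc, map_sub, h1, PowerSeries.coeff_C_mul]
  rcases m with _ | m
  · simp
  · rw [mul_comm X, PowerSeries.coeff_succ_mul_X, h1, map_neg, PowerSeries.coeff_C,
      if_neg (Nat.succ_ne_zero m)]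
    ring

theorem lth_deriv (Θ : Multiset ℂ) :
    ((pth Θ : Polynomial ℂ) : ℂ⟦X⟧) * d⁄dX ℂ (lth Θ) = d⁄dX ℂ ((pth Θ : Polynomial ℂ) : ℂ⟦X⟧) := by
  induction Θ using Multiset.induction_on with
  | empty => simp [pth, lth_zero]
  | cons θ Θ ih =>
    have h1 := lth_single_deriv θ
    have h2 : (((1 - Polynomial.C θ * Polynomial.X : Polynomial ℂ)) : ℂ⟦X⟧) =
        1 - PowerSeries.C θ * X := by
      rw [Polynomial.coe_sub, Polynomial.coe_one, Polynomial.coe_mul, Polynomial.coe_C,
        Polynomial.coe_X]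
    have h3 : d⁄dX ℂ (1 - PowerSeries.C θ * X : ℂ⟦X⟧) = -PowerSeries.C θ := by
      rw [map_sub, Derivation.leibniz, PowerSeries.derivative_C, smul_zero, add_zero, smul_eq_mul,
        PowerSeries.derivative_X, mul_one, Derivation.map_one_eq_zero, zero_sub]
    rw [lth_cons, pth_cons, Polynomial.coe_mul, h2, map_add, Derivation.leibniz, smul_eq_mul,
      smul_eq_mul, h3]
    linear_combination ((pth Θ : Polynomial ℂ) : ℂ⟦X⟧) * h1 + (1 - PowerSeries.C θ * X) * ih

theorem hasSum_lth {t : ℝ} (ht : 0 < t) (Θ : Multiset ℂ) (hΘ : ∀ θ ∈ Θ, ‖θ‖ < t) :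
    HasSum (fun m : ℕ => coeff m (lth Θ) * (1 / (t : ℂ)) ^ m)
      ((Θ.map fun θ => Complex.log (1 - θ / t)).sum) := by
  induction Θ using Multiset.induction_on with
  | empty => simp [lth_zero]
  | cons θ Θ ih =>
    have h1 := ih fun θ' hθ' => hΘ θ' (Multiset.mem_cons_of_mem hθ')
    have h2 : ‖θ / (t : ℂ)‖ < 1 := by
      rw [norm_div, Complex.norm_real, Real.norm_eq_abs, abs_of_pos ht, div_lt_one ht]
      exact hΘ θ (Multiset.mem_cons_self _ _)
    have h3 := (Complex.hasSum_taylorSeries_neg_log h2).neg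
    rw [neg_neg] at h3
    have h4 := h3.add h1
    rw [Multiset.map_cons, Multiset.sum_cons]
    have h5 : (fun m : ℕ => coeff m (lth (θ ::ₘ Θ)) * (1 / (t : ℂ)) ^ m) =
        fun m : ℕ => -((θ / (t : ℂ)) ^ m / m) + coeff m (lth Θ) * (1 / (t : ℂ)) ^ m := by
      funext m
      rw [lth_cons, map_add, add_mul]
      congr 1
      simp only [lth, coeff_mk, Multiset.map_singleton, Multiset.sum_singleton]
      rw [div_pow, div_pow, one_pow]
      ring
    rw [h5]
    exact h4

/-- the inverses of the roots -/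
noncomputable def thr (p : Polynomial ℤ) : Multiset ℂ :=
  (p.map (Int.castRingHom ℂ)).roots.map fun z => z⁻¹

theorem pth_thr {p : Polynomial ℤ} (h0 : p.coeff 0 = 1) :
    p.map (Int.castRingHom ℂ) = pth (thr p) := by
  set P := p.map (Int.castRingHom ℂ) with hP
  have hP0 : P.coeff 0 = 1 := by rw [hP, Polynomial.coeff_map, h0]; simp
  have hs : P.Splits := IsAlgClosed.splits P
  have h1 := hs.eq_prod_roots
  have hne : ∀ z ∈ P.roots, z ≠ 0 := by
    intro z hz h
    have h2 := Polynomial.isRoot_of_mem_roots hz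
    rw [h, Polynomial.IsRoot.def, ← Polynomial.coeff_zero_eq_eval_zero, hP0] at h2
    exact one_ne_zero h2
  have h2 : (P.roots.map fun z => Polynomial.X - Polynomial.C z) =
      P.roots.map fun z => Polynomial.C (-z) * (1 - Polynomial.C z⁻¹ * Polynomial.X) := by
    refine Multiset.map_congr rfl fun z hz => ?_
    have hz := hne z hz
    have h3 : (Polynomial.C (-z) : Polynomial ℂ) * Polynomial.C z⁻¹ = -1 := by
      rw [← Polynomial.C_mul, neg_mul, mul_inv_cancel₀ hz, Polynomial.C_neg, Polynomial.C_1]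
    rw [mul_sub, mul_one, ← mul_assoc, h3, Polynomial.C_neg]
    ring
  rw [h2, Multiset.prod_map_mul] at h1
  have h3 : (P.roots.map fun z => Polynomial.C (-z)).prod =
      Polynomial.C ((P.roots.map fun z => -z).prod) := by
    rw [map_multiset_prod, Multiset.map_map]
    rfl
  have h4 : pth (thr p) = (P.roots.map fun z => 1 - Polynomial.C z⁻¹ * Polynomial.X).prod := by
    rw [pth, thr, Multiset.map_map]
    rfl
  rw [h3, ← h4, ← mul_assoc, ← Polynomial.C_mul] at h1
  have h5 : (pth (thr p)).coeff 0 = 1 := by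
    rw [Polynomial.coeff_zero_eq_eval_zero, pth, Polynomial.eval_multiset_prod, Multiset.map_map]
    apply Multiset.prod_eq_one
    intro x hx
    obtain ⟨θ, _, rfl⟩ := Multiset.mem_map.1 hx
    simp
  have h6 : P.leadingCoeff * (P.roots.map fun z => -z).prod = 1 := by
    have h7 := congrArg (fun q => Polynomial.coeff q 0) h1
    simp only [Polynomial.coeff_C_mul, h5, mul_one, hP0] at h7
    exact h7.symm
  rw [h6, Polynomial.C_1, one_mul] at h1
  exact h1




theorem pq_mul (p q : Polynomial ℤ) : ps (p * q) = ps p * ps q := by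
  rw [ps, ps, ps, Polynomial.map_mul, Polynomial.coe_mul]

theorem pq_coeff (p : Polynomial ℤ) (m : ℕ) : coeff m (ps p) = (p.coeff m : ℚ) := by
  rw [ps, Polynomial.coeff_coe, Polynomial.coeff_map]
  rfl

theorem pq_ne {p : Polynomial ℤ} (h0 : p.coeff 0 = 1) : ps p ≠ 0 := by
  intro h
  have h1 := congrArg (coeff 0) h
  rw [pq_coeff, h0] at h1
  simp at h1

/-- **The value of `log p` at `1 / t`.** -/
theorem log_ev {p : Polynomial ℤ} (h0 : p.coeff 0 = 1) {L : ℚ⟦X⟧} (hL0 : constantCoeff L = 0)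
    (hL : ps p * d⁄dX ℚ L = ps (Polynomial.derivative p)) {t : ℝ} (ht : 0 < t)
    (hroot : ∀ z : ℂ, ‖z‖ ≤ 1 / t → Polynomial.aeval z p ≠ 0) :
    0 < Polynomial.aeval (1 / t) p ∧ ev t L = Real.log (Polynomial.aeval (1 / t) p) := by
  set Θ := thr p with hΘ
  have hp := pth_thr h0
  -- the coefficients
  have h1 : PowerSeries.map (algebraMap ℚ ℂ) L = lth Θ := by
    have hpq : PowerSeries.map (algebraMap ℚ ℂ) (ps p) = ((pth Θ : Polynomial ℂ) : ℂ⟦X⟧) := by
      rw [← hp]
      ext m
      rw [PowerSeries.coeff_map, pq_coeff, Polynomial.coeff_coe, Polynomial.coeff_map]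
      simp
    have hpd : PowerSeries.map (algebraMap ℚ ℂ) (ps (Polynomial.derivative p)) =
        d⁄dX ℂ ((pth Θ : Polynomial ℂ) : ℂ⟦X⟧) := by
      rw [← hp]
      ext m
      rw [PowerSeries.coeff_map, pq_coeff, PowerSeries.coeff_derivative, Polynomial.coeff_coe,
        Polynomial.coeff_map, Polynomial.coeff_derivative]
      simp
    have hd : PowerSeries.map (algebraMap ℚ ℂ) (d⁄dX ℚ L) = d⁄dX ℂ (PowerSeries.map (algebraMap ℚ ℂ) L) := by
      ext m
      rw [PowerSeries.coeff_map, PowerSeries.coeff_derivative, PowerSeries.coeff_derivative,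
        PowerSeries.coeff_map]
      simp
    have hne : ((pth Θ : Polynomial ℂ) : ℂ⟦X⟧) ≠ 0 := by
      rw [← hpq]
      intro h
      have h2 := congrArg (coeff 0) h
      rw [PowerSeries.coeff_map, pq_coeff, h0] at h2
      simp at h2
    apply PowerSeries.derivative.ext
    · apply mul_left_cancel₀ hne
      rw [lth_deriv, ← hpd, ← hL, map_mul, hpq, hd]
    · rw [← PowerSeries.coeff_zero_eq_constantCoeff_apply, PowerSeries.coeff_map,
        PowerSeries.coeff_zero_eq_constantCoeff_apply, hL0, map_zero,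
        ← PowerSeries.coeff_zero_eq_constantCoeff_apply, lth, coeff_mk]
      simp
  -- the roots
  have h2 : ∀ θ ∈ Θ, ‖θ‖ < t := by
    intro θ hθ
    obtain ⟨z, hz, rfl⟩ := Multiset.mem_map.1 hθ
    have h3 := Polynomial.isRoot_of_mem_roots hz
    rw [Polynomial.IsRoot.def, Polynomial.eval_map] at h3
    by_contra h4
    rw [not_lt, norm_inv] at h4
    refine hroot z ?_ ?_
    · have h5 : 0 < ‖z‖ := by
        by_contra h6
        have h7 : ‖z‖ = 0 := le_antisymm (not_lt.1 h6) (norm_nonneg _)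
        rw [h7, inv_zero] at h4
        linarith
      rw [le_div_iff₀ ht, mul_comm]
      rw [← one_div, le_div_iff₀ h5] at h4
      exact h4
    · rw [Polynomial.aeval_def]
      exact h3
  have h3 := hasSum_lth ht Θ h2
  have h4 : (fun m : ℕ => coeff m (lth Θ) * (1 / (t : ℂ)) ^ m) =
      fun m : ℕ => ((((coeff m L : ℚ) : ℝ) * (1 / t) ^ m : ℝ) : ℂ) := by
    funext m
    rw [← h1, PowerSeries.coeff_map]
    push_cast
    simp
  rw [h4] at h3
  have h5 : ((ev t L : ℝ) : ℂ) = (Θ.map fun θ => Complex.log (1 - θ / t)).sum := by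
    have h6 := h3.tsum_eq
    rw [← Complex.ofReal_tsum] at h6
    rw [← h6]
    rfl
  have hmap : ((Polynomial.aeval (1 / t) p : ℝ) : ℂ) = Polynomial.eval (1 / (t : ℂ)) (pth Θ) := by
    have h7 := Polynomial.aeval_algebraMap_apply ℂ (1 / t : ℝ) p
    have h8 : (algebraMap ℝ ℂ) (1 / t) = 1 / (t : ℂ) := by
      show (((1 / t : ℝ)) : ℂ) = _
      push_cast
      rfl
    rw [h8] at h7
    rw [← hp, Polynomial.eval_map]
    exact h7.symm
  have h6 : Complex.exp ((ev t L : ℝ) : ℂ) = ((Polynomial.aeval (1 / t) p : ℝ) : ℂ) := by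
    rw [h5, Complex.exp_multiset_sum, Multiset.map_map, hmap, pth, Polynomial.eval_multiset_prod,
      Multiset.map_map]
    congr 1
    refine Multiset.map_congr rfl fun θ hθ => ?_
    simp only [Function.comp]
    rw [Complex.exp_log]
    · simp
      ring
    · intro h
      have h7 : θ = t := by
        have ht' : (t : ℂ) ≠ 0 := by exact_mod_cast ht.ne'
        field_simp at h
        linear_combination -h
      have h8 := h2 θ hθ
      rw [h7, Complex.norm_real, Real.norm_eq_abs, abs_of_pos ht] at h8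
      exact lt_irrefl _ h8
  rw [← Complex.ofReal_exp] at h6
  have h7 : Real.exp (ev t L) = Polynomial.aeval (1 / t) p := by exact_mod_cast h6
  exact ⟨by rw [← h7]; exact Real.exp_pos _, by rw [← h7, Real.log_exp]⟩

end Pool.Agent.K3h1.LM
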