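import Mathlib
import Pool.Agent.R351.GF.Dv

/-!
# Rectangular linear substitutions
-/

set_option autoImplicit false

namespace Pool.Agent.K3h1.LM

open MvPolynomial Pool.Agent.R351.GF Pool.Agent.Y916 Pool.Agent.Y535.LG

variable {r n : ℕ}

/-- the linear substitution -/
noncomputable def lsr (c : Fin r → Fin n → ℤ) : MvPolynomial (Fin r) ℤ →ₐ[ℤ] MvPolynomial (Fin n) ℤ :=
  aeval (fun i => ∑ s, C (c i s) * X s)

theorem lsr_eq {Δ : ℕ} (c : Fin r → Fin n → ℤ) (P : MvPolynomial (Fin r) ℤ) (hP : P.totalDegree ≤ Δ) :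
    lsr c P = ∑ e : Mn r Δ, C (P.coeff (toF e)) * ∏ i, (∑ s, C (c i s) * X s) ^ (e.1 i : ℕ) := by
  unfold lsr
  rw [aeval_sumZ P hP]
  refine Finset.sum_congr rfl fun e _ => ?_
  congr 1

theorem lsr_totalDegree {Δ : ℕ} (c : Fin r → Fin n → ℤ) (P : MvPolynomial (Fin r) ℤ)
    (hP : P.totalDegree ≤ Δ) : (lsr c P).totalDegree ≤ Δ := by
  rw [lsr_eq c P hP]
  refine totalDegree_finsetSum_le fun e _ => ?_
  refine (totalDegree_mul _ _).trans ?_
  rw [totalDegree_C, zero_add]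
  refine (totalDegree_finsetProd _ _).trans (le_trans (Finset.sum_le_sum fun i _ => ?_) e.2)
  refine (totalDegree_pow _ _).trans ?_
  refine (Nat.mul_le_mul_left _ ?_).trans (mul_one _).le
  refine totalDegree_finsetSum_le fun s _ => ?_
  refine (totalDegree_mul _ _).trans ?_
  rw [totalDegree_C, zero_add]
  exact (totalDegree_X s).le

theorem lsr_coeff {Δ : ℕ} (c : Fin r → Fin n → ℤ) (P : MvPolynomial (Fin r) ℤ)
    (hP : P.totalDegree ≤ Δ) {A Y : ℝ} (hA : 0 ≤ A) (hY : 1 ≤ Y)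
    (hPA : ∀ s, |((P.coeff s : ℤ) : ℝ)| ≤ A) (hc : ∀ i, ∑ s, |(c i s : ℝ)| ≤ Y) (s : Fin n →₀ ℕ) :
    |(((lsr c P).coeff s : ℤ) : ℝ)| ≤ Fintype.card (Mn r Δ) * (A * Y ^ Δ) := by
  apply Dv.coeff
  rw [lsr_eq c P hP]
  refine (Dv.sum (A := fun _ => A * Y ^ Δ) Finset.univ fun e _ => ?_).mono ?_
  · refine ((Dv.of_C _).mul (Dv.prod (A := fun i => Y ^ (e.1 i : ℕ)) Finset.univ fun i _ => ?_)).mono ?_
    · refine Dv.pow ?_ _
      refine (Dv.sum (A := fun s => |(c i s : ℝ)|) Finset.univ fun s _ => ?_).mono (hc i)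
      have := (Dv.of_C (σ := Fin n) (c i s)).mul (Dv.of_X s)
      rwa [mul_one] at this
    · rw [Finset.prod_pow_eq_pow_sum]
      exact mul_le_mul (hPA _) (pow_le_pow_right₀ hY e.2) (by positivity) hA
  · rw [Finset.sum_const, Finset.card_univ, nsmul_eq_mul]

theorem exists_right_inv (c : Fin r → Fin n → ℤ)
    (hc : ∀ v : Fin r → ℚ, (∀ s, ∑ i, v i * (c i s : ℚ) = 0) → v = 0) :
    ∃ N : Matrix (Fin n) (Fin r) ℚ, (Matrix.of fun i s => ((c i s : ℤ) : ℚ) : Matrix (Fin r) (Fin n) ℚ) * N = 1 := by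
  set M : Matrix (Fin r) (Fin n) ℚ := Matrix.of fun i s => ((c i s : ℤ) : ℚ) with hM
  have hker : LinearMap.ker (Matrix.toLin' M.transpose) = ⊥ := by
    rw [LinearMap.ker_eq_bot']
    intro v hv
    apply hc v
    intro s
    have := congrFun hv s
    simp only [Matrix.toLin'_apply, Matrix.mulVec, dotProduct, Matrix.transpose_apply, hM,
      Matrix.of_apply, Pi.zero_apply] at this
    rw [← this]
    exact Finset.sum_congr rfl fun i _ => mul_comm _ _
  obtain ⟨g, hg⟩ := LinearMap.exists_leftInverse_of_injective _ hker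
  have h1 : LinearMap.toMatrix' g * M.transpose = 1 := by
    have h2 := congrArg LinearMap.toMatrix' hg
    rw [LinearMap.toMatrix'_comp, LinearMap.toMatrix'_toLin', LinearMap.toMatrix'_id] at h2
    exact h2
  refine ⟨(LinearMap.toMatrix' g).transpose, ?_⟩
  have h2 := congrArg Matrix.transpose h1
  rwa [Matrix.transpose_mul, Matrix.transpose_transpose, Matrix.transpose_one] at h2

theorem lsr_ne_zero (c : Fin r → Fin n → ℤ)
    (hc : ∀ v : Fin r → ℚ, (∀ s, ∑ i, v i * (c i s : ℚ) = 0) → v = 0)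
    {P : MvPolynomial (Fin r) ℤ} (hP : P ≠ 0) : lsr c P ≠ 0 := by
  classical
  set M : Matrix (Fin r) (Fin n) ℚ := Matrix.of fun i s => ((c i s : ℤ) : ℚ) with hM
  obtain ⟨N, hMM⟩ := exists_right_inv c hc
  rw [← hM] at hMM
  let σ : MvPolynomial (Fin r) ℚ →ₐ[ℚ] MvPolynomial (Fin n) ℚ := aeval (fun i => ∑ s, C (M i s) * X s)
  let σ' : MvPolynomial (Fin n) ℚ →ₐ[ℚ] MvPolynomial (Fin r) ℚ :=
    aeval (fun s => ∑ j, C (N s j) * X j)
  have h1 : σ'.comp σ = AlgHom.id ℚ _ := by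
    apply MvPolynomial.algHom_ext
    intro i
    simp only [AlgHom.comp_apply, σ, σ', aeval_X, map_sum, map_mul, AlgHom.id_apply, algHom_C,
      MvPolynomial.algebraMap_eq, Finset.mul_sum]
    rw [Finset.sum_comm]
    have h2 : ∀ j, ∑ s, C (M i s) * (C (N s j) * X j) = (C ((M * N) i j) * X j : MvPolynomial (Fin r) ℚ) := by
      intro j
      rw [Matrix.mul_apply, map_sum, Finset.sum_mul]
      exact Finset.sum_congr rfl fun s _ => by rw [map_mul, mul_assoc]
    simp only [h2, hMM]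
    rw [Finset.sum_eq_single i]
    · rw [Matrix.one_apply_eq, map_one, one_mul]
    · intro j _ hj
      rw [Matrix.one_apply_ne (Ne.symm hj), map_zero, zero_mul]
    · intro h; exact absurd (Finset.mem_univ _) h
  have hinj : Function.Injective σ :=
    Function.LeftInverse.injective (g := σ') (fun p => DFunLike.congr_fun h1 p)
  have h3 : ∀ P : MvPolynomial (Fin r) ℤ, MvPolynomial.map (Int.castRingHom ℚ) (lsr c P) =
      σ (MvPolynomial.map (Int.castRingHom ℚ) P) := by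
    intro P
    have h4 : (MvPolynomial.map (Int.castRingHom ℚ)).comp (lsr c).toRingHom =
        σ.toRingHom.comp (MvPolynomial.map (Int.castRingHom ℚ)) := by
      apply MvPolynomial.ringHom_ext
      · intro a
        simp [lsr, σ]
      · intro i
        simp [lsr, σ, hM]
    exact DFunLike.congr_fun h4 P
  intro h0
  apply hP
  apply MvPolynomial.map_injective (Int.castRingHom ℚ) Int.cast_injective
  apply hinj
  rw [map_zero, map_zero, ← h3, h0, map_zero]

theorem lsr_aeval (c : Fin r → Fin n → ℤ) (P : MvPolynomial (Fin r) ℤ) (f : Fin n → ℝ) :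
    aeval f (lsr c P) = aeval (fun i => ∑ s, (c i s : ℝ) * f s) P := by
  have h1 : (aeval f : MvPolynomial (Fin n) ℤ →ₐ[ℤ] ℝ).comp (lsr c) =
      aeval (fun i => ∑ s, (c i s : ℝ) * f s) := by
    apply MvPolynomial.algHom_ext
    intro i
    simp [lsr]
  exact DFunLike.congr_fun h1 P

end Pool.Agent.K3h1.LM
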