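import Mathlib
import Pool.Agent.K3h1.LM.LogEv
import Pool.Agent.K3h1.LM.Lsr
import Pool.Agent.R351.GF.LogQ

/-!
# Lower bounds for polynomials in the logarithms of `p (1 / t)`, `p` integer polynomials with `p (0) = 1`
-/

set_option autoImplicit false

open PowerSeries

namespace Pool.Agent.K3h1.LM

open Pool.Agent.Y113 Pool.Agent.Y916 Pool.Agent.R351.GF
open Pool.Agent.Y535.LG (toF toF_apply toF_inj toF_surj)
open Pool.Agent.Y419.LB (Dm Dm.coeff Dm.mul Dm.one Dm.mono Dm.of_bound)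

section Fam

variable {r : ℕ} (p : Fin r → Polynomial ℤ)

/-- the numerators of the logarithmic derivatives -/
noncomputable def cp (i : Fin r) : Polynomial ℤ :=
  Polynomial.derivative (p i) * ∏ j ∈ Finset.univ.erase i, p j

theorem prod_eq (i : Fin r) : ∏ j, p j = p i * ∏ j ∈ Finset.univ.erase i, p j :=
  (Finset.mul_prod_erase Finset.univ _ (Finset.mem_univ i)).symm

variable {p}

theorem p_ne (h1 : ∀ i, 1 ≤ (p i).natDegree) (i : Fin r) : p i ≠ 0 := by
  intro h
  have := h1 i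
  rw [h, Polynomial.natDegree_zero] at this
  omega

theorem cp_natDegree (h1 : ∀ i, 1 ≤ (p i).natDegree) (i : Fin r) :
    (cp p i).natDegree < (∏ j, p j).natDegree := by
  have h2 : (∏ j, p j).natDegree = (p i).natDegree + (∏ j ∈ Finset.univ.erase i, p j).natDegree := by
    rw [prod_eq p i, Polynomial.natDegree_mul (p_ne h1 i)
      (Finset.prod_ne_zero_iff.2 fun j _ => p_ne h1 j)]
  rw [h2]
  refine lt_of_le_of_lt Polynomial.natDegree_mul_le ?_
  have h3 := Polynomial.natDegree_derivative_lt (p := p i) (by have := h1 i; omega)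
  omega

theorem coprime_cp
    (hsq : Squarefree ((∏ i, p i).map (Int.castRingHom ℚ))) (i : Fin r) :
    IsCoprime ((p i).map (Int.castRingHom ℚ)) ((cp p i).map (Int.castRingHom ℚ)) := by
  rw [prod_eq p i, Polynomial.map_mul, squarefree_mul_iff] at hsq
  obtain ⟨h2, h3, -⟩ := hsq
  rw [cp, Polynomial.map_mul]
  refine IsCoprime.mul_right ?_ h2.isCoprime
  rw [← Polynomial.derivative_map]
  exact PerfectField.separable_iff_squarefree.2 h3

theorem cp_indep (h1 : ∀ i, 1 ≤ (p i).natDegree)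
    (hsq : Squarefree ((∏ i, p i).map (Int.castRingHom ℚ))) {n : ℕ}
    (hn : (∏ i, p i).natDegree = n) (v : Fin r → ℚ)
    (hv : ∀ s : Fin n, ∑ i, v i * (((cp p i).coeff s : ℤ) : ℚ) = 0) : v = 0 := by
  have h0 : ∑ i, Polynomial.C (v i) * (cp p i).map (Int.castRingHom ℚ) = 0 := by
    ext l
    rw [Polynomial.finsetSum_coeff, Polynomial.coeff_zero]
    simp only [Polynomial.coeff_C_mul, Polynomial.coeff_map]
    by_cases hl : l < n
    · exact hv ⟨l, hl⟩
    · refine Finset.sum_eq_zero fun i _ => ?_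
      rw [Polynomial.coeff_eq_zero_of_natDegree_lt (lt_of_lt_of_le (cp_natDegree h1 i)
        (hn.le.trans (not_lt.1 hl))), map_zero, mul_zero]
  funext k
  by_contra hk
  have hdvd : (p k).map (Int.castRingHom ℚ) ∣ Polynomial.C (v k) * (cp p k).map (Int.castRingHom ℚ) := by
    rw [← Finset.add_sum_erase _ _ (Finset.mem_univ k)] at h0
    have h2 : (p k).map (Int.castRingHom ℚ) ∣ ∑ i ∈ Finset.univ.erase k,
        Polynomial.C (v i) * (cp p i).map (Int.castRingHom ℚ) := by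
      refine Finset.dvd_sum fun i hi => ?_
      refine Dvd.dvd.mul_left ?_ _
      rw [cp, Polynomial.map_mul, Polynomial.map_prod]
      refine Dvd.dvd.mul_left ?_ _
      exact Finset.dvd_prod_of_mem _ (Finset.mem_erase.2 ⟨(Finset.mem_erase.1 hi).1.symm, Finset.mem_univ k⟩)
    exact (dvd_add_left h2).1 (by rw [h0]; exact dvd_zero _)
  have hcop : IsCoprime ((p k).map (Int.castRingHom ℚ))
      (Polynomial.C (v k) * (cp p k).map (Int.castRingHom ℚ)) := by
    refine IsCoprime.mul_right ?_ (coprime_cp hsq k)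
    exact ⟨0, Polynomial.C (v k)⁻¹, by
      rw [zero_mul, zero_add, ← Polynomial.C_mul, inv_mul_cancel₀ hk, Polynomial.C_1]⟩
  have hu := hcop.isUnit_of_dvd' dvd_rfl hdvd
  have h3 := Polynomial.natDegree_eq_zero_of_isUnit hu
  rw [Polynomial.natDegree_map_eq_of_injective Int.cast_injective] at h3
  have := h1 k
  omega

/-- the power series of `log (p i)` -/
noncomputable def Lp (p : Fin r → Polynomial ℤ) (n : ℕ) (i : Fin r) : ℚ⟦X⟧ :=
  ∑ s : Fin n, PowerSeries.C (((cp p i).coeff s : ℤ) : ℚ) * F (∏ j, p j) s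

theorem Lp_zero (n : ℕ) (i : Fin r) : constantCoeff (Lp p n i) = 0 := by
  rw [Lp, map_sum]
  refine Finset.sum_eq_zero fun s _ => ?_
  rw [map_mul, ← PowerSeries.coeff_zero_eq_constantCoeff_apply (F (∏ j, p j) s), F, coeff_mk,
    if_pos (Nat.zero_le _), mul_zero]

theorem prod_coeff_zero (h0 : ∀ i, (p i).coeff 0 = 1) (s : Finset (Fin r)) :
    (∏ j ∈ s, p j).coeff 0 = 1 := by
  rw [Polynomial.coeff_zero_eq_eval_zero, Polynomial.eval_prod]
  refine Finset.prod_eq_one fun j _ => ?_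
  rw [← Polynomial.coeff_zero_eq_eval_zero, h0]

theorem Lp_deriv (h0 : ∀ i, (p i).coeff 0 = 1) (h1 : ∀ i, 1 ≤ (p i).natDegree) {n : ℕ}
    (hn : (∏ i, p i).natDegree = n) (i : Fin r) :
    ps (p i) * d⁄dX ℚ (Lp p n i) = ps (Polynomial.derivative (p i)) := by
  have hT0 : (∏ j, p j).coeff 0 = 1 := prod_coeff_zero h0 _
  have h2 : ps (∏ j, p j) * d⁄dX ℚ (Lp p n i) = ps (cp p i) := by
    rw [Lp, map_sum, Finset.mul_sum]
    have h3 : ∀ s : Fin n, ps (∏ j, p j) * d⁄dX ℚ (PowerSeries.C (((cp p i).coeff s : ℤ) : ℚ) *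
        F (∏ j, p j) s) = PowerSeries.C (((cp p i).coeff s : ℤ) : ℚ) * X ^ (s : ℕ) := by
      intro s
      rw [Derivation.leibniz, PowerSeries.derivative_C, smul_zero, add_zero, smul_eq_mul,
        ← deriv_F hT0 s]
      unfold ps
      ring
    rw [Finset.sum_congr rfl fun s _ => h3 s]
    ext l
    rw [map_sum, pq_coeff]
    simp only [PowerSeries.coeff_C_mul, PowerSeries.coeff_X_pow]
    by_cases hl : l < n
    · rw [Finset.sum_eq_single ⟨l, hl⟩]
      · simp
      · intro s _ hs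
        rw [if_neg, mul_zero]
        intro h
        exact hs (Fin.ext h.symm)
      · intro h; exact absurd (Finset.mem_univ _) h
    · rw [Polynomial.coeff_eq_zero_of_natDegree_lt (lt_of_lt_of_le (cp_natDegree h1 i)
        (hn.le.trans (not_lt.1 hl))), Int.cast_zero]
      refine Finset.sum_eq_zero fun s _ => ?_
      rw [if_neg, mul_zero]
      intro h
      exact hl (by rw [h]; exact s.2)
  rw [prod_eq p i, cp, pq_mul, pq_mul] at h2
  have h3 : ps (∏ j ∈ Finset.univ.erase i, p j) ≠ 0 := pq_ne (prod_coeff_zero h0 _)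
  apply mul_left_cancel₀ h3
  linear_combination h2

theorem root_small {D h : ℕ} {t : ℝ} (ht : 1 ≤ t) (hDh : (D * h : ℝ) < t) {q : Polynomial ℤ}
    (h0 : q.coeff 0 = 1) (hD : q.natDegree ≤ D) (hh : ∀ l, |q.coeff l| ≤ h) (z : ℂ)
    (hz : ‖z‖ ≤ 1 / t) : Polynomial.aeval z q ≠ 0 := by
  have ht0 : 0 < t := by linarith
  intro h8
  rw [Polynomial.aeval_eq_sum_range' (Nat.lt_succ_of_le hD), Finset.sum_range_succ'] at h8
  have h2 : ‖∑ k ∈ Finset.range D, q.coeff (k + 1) • z ^ (k + 1)‖ ≤ D * (h / t) := by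
    refine (norm_sum_le _ _).trans ?_
    have h3 : ∀ k ∈ Finset.range D, ‖q.coeff (k + 1) • z ^ (k + 1)‖ ≤ h / t := by
      intro k _
      rw [zsmul_eq_mul, norm_mul, Complex.norm_intCast, norm_pow]
      have h4 : |((q.coeff (k + 1) : ℤ) : ℝ)| ≤ h := by exact_mod_cast hh (k + 1)
      have h5 : ‖z‖ ^ (k + 1) ≤ 1 / t := by
        refine (pow_le_pow_left₀ (norm_nonneg _) hz _).trans ?_
        rw [pow_succ]
        have : (1 / t) ^ k ≤ 1 := pow_le_one₀ (by positivity) (by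
          rw [div_le_one ht0]; exact ht)
        calc (1 / t) ^ k * (1 / t) ≤ 1 * (1 / t) :=
              mul_le_mul_of_nonneg_right this (by positivity)
          _ = _ := one_mul _
      calc |((q.coeff (k + 1) : ℤ) : ℝ)| * ‖z‖ ^ (k + 1) ≤ h * (1 / t) :=
            mul_le_mul h4 h5 (by positivity) (by positivity)
        _ = h / t := by ring
    refine (Finset.sum_le_sum h3).trans ?_
    simp
  have h6 : (D : ℝ) * (h / t) < 1 := by
    rw [← mul_div_assoc, div_lt_one ht0]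
    exact hDh
  have h7 : ∑ k ∈ Finset.range D, q.coeff (k + 1) • z ^ (k + 1) = -1 := by
    rw [h0] at h8
    simp only [pow_zero, one_smul] at h8
    linear_combination h8
  rw [h7, norm_neg, norm_one] at h2
  linarith

end Fam

theorem Dm_sum_le {P : Polynomial ℤ} {A : ℝ} (h : Dm P A) (n : ℕ) :
    ∑ s : Fin n, |((P.coeff s : ℤ) : ℝ)| ≤ A := by
  obtain ⟨Q, h1, h2⟩ := h
  have h0 : ∀ l, 0 ≤ Q.coeff l := fun l => (abs_nonneg _).trans (h1 l)
  have h3 : Q.eval 1 = ∑ l ∈ Finset.range (n + Q.natDegree + 1), Q.coeff l := by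
    rw [Polynomial.eval_eq_sum_range' (n := n + Q.natDegree + 1) (by omega)]
    exact Finset.sum_congr rfl fun i _ => by rw [one_pow, mul_one]
  calc ∑ s : Fin n, |((P.coeff s : ℤ) : ℝ)| ≤ ∑ s : Fin n, Q.coeff s := Finset.sum_le_sum fun s _ => h1 s
    _ = ∑ l ∈ Finset.range n, Q.coeff l := Finset.sum_range (fun l => Q.coeff l) |>.symm
    _ ≤ ∑ l ∈ Finset.range (n + Q.natDegree + 1), Q.coeff l :=
        Finset.sum_le_sum_of_subset_of_nonneg (by
          intro l hl
          rw [Finset.mem_range] at hl ⊢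
          omega) (fun l _ _ => h0 l)
    _ = Q.eval 1 := h3.symm
    _ ≤ A := h2

theorem Dm_prodp {r : ℕ} {p : Fin r → Polynomial ℤ} {B : ℝ} (hp : ∀ i, Dm (p i) B) (s : Finset (Fin r)) :
    Dm (∏ i ∈ s, p i) (B ^ s.card) := by
  classical
  induction s using Finset.induction_on with
  | empty => simpa using Dm.one
  | insert a s ha ih =>
    rw [Finset.prod_insert ha, Finset.card_insert_of_notMem ha, pow_succ']
    exact (hp a).mul ih

theorem Dm_cp {r : ℕ} {p : Fin r → Polynomial ℤ} {B : ℝ} (hp : ∀ i, Dm (p i) B)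
    (hp' : ∀ i, Dm (Polynomial.derivative (p i)) B) (i : Fin r) : Dm (cp p i) (B ^ r) := by
  classical
  have h1 := (hp' i).mul (Dm_prodp hp (Finset.univ.erase i))
  rw [Finset.card_erase_of_mem (Finset.mem_univ i), Finset.card_univ, Fintype.card_fin,
    ← pow_succ', Nat.sub_add_cancel i.pos] at h1
  exact h1

/-- **Lower bounds for polynomials in the logarithms of the values of polynomials near `0`**, uniform in all
parameters. -/
theorem poly_quant (r D Δ : ℕ) : ∃ E : ℕ, ∀ h t : ℕ, (h + 2) ^ E ≤ t → ∀ p : Fin r → Polynomial ℤ,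
    (∀ i, (p i).coeff 0 = 1) → (∀ i, 1 ≤ (p i).natDegree ∧ (p i).natDegree ≤ D) →
    (∀ i l, |(p i).coeff l| ≤ h) → Squarefree ((∏ i, p i).map (Int.castRingHom ℚ)) →
    (∀ i, 0 < Polynomial.aeval (1 / (t : ℝ)) (p i)) ∧
    ∀ P : MvPolynomial (Fin r) ℤ, P ≠ 0 →
    P.totalDegree ≤ Δ → ∀ A : ℝ, 1 ≤ A → (∀ s, |((P.coeff s : ℤ) : ℝ)| ≤ A) →
      1 ≤ (A * t) ^ E *
        |MvPolynomial.aeval (fun i => Real.log (Polynomial.aeval (1 / (t : ℝ)) (p i))) P| := by
  classical
  choose E₁' hE₁' using fun n => val_quant n Δ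
  choose E₀' hE₀' using fun n => Pool.Agent.Y419.LB.base_holds n
  set E₁ : ℕ := ∑ n ∈ Finset.range (r * D + 1), E₁' n with hE₁
  set E₀ : ℕ := ∑ n ∈ Finset.range (r * D + 1), E₀' n with hE₀
  set K : ℕ := Fintype.card (Mn r Δ) with hK
  set M : ℕ := (2 * D + 4) * r + 2 with hM
  refine ⟨M * E₁ + M * (E₀ + 1) + (K + (2 * D + 4) * (r + 1) * Δ) + 2 * E₁ + D + 1, ?_⟩
  intro h t ht p h0 h1 hh hsq
  set E : ℕ := M * E₁ + M * (E₀ + 1) + (K + (2 * D + 4) * (r + 1) * Δ) + 2 * E₁ + D + 1 with hE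
  have htN : ∀ a, a ≤ E → (h + 2) ^ a ≤ t := fun a ha =>
    (Nat.pow_le_pow_right (by omega) ha).trans ht
  have htR : ∀ a, a ≤ E → ((h : ℝ) + 2) ^ a ≤ t := fun a ha => by exact_mod_cast htN a ha
  have ht1 : (1 : ℝ) ≤ t := by simpa using htR 0 (by omega)
  have ht0 : (0 : ℝ) < t := by linarith
  have hh0 : (0 : ℝ) ≤ h := Nat.cast_nonneg h
  have hD0 : (0 : ℝ) ≤ D := Nat.cast_nonneg D
  -- the size of the polynomials
  set BN : ℕ := (D + 1) ^ 2 * (h + 1) with hBN
  have hBNle : BN ≤ (h + 2) ^ (2 * D + 3) := by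
    have h2 : D + 1 ≤ (h + 2) ^ (D + 1) :=
      (Nat.lt_two_pow_self (n := D + 1)).le.trans (Nat.pow_le_pow_left (by omega) _)
    calc BN ≤ ((h + 2) ^ (D + 1)) ^ 2 * (h + 2) :=
          Nat.mul_le_mul (Nat.pow_le_pow_left h2 2) (by omega)
      _ = (h + 2) ^ (2 * D + 3) := by rw [← pow_mul, ← pow_succ]; congr 1; ring
  have hB1 : (1 : ℝ) ≤ BN := by
    have : 1 ≤ BN := Nat.succ_le_of_lt (Nat.mul_pos (by positivity) (by omega))
    exact_mod_cast this
  have hBNr : (BN : ℝ) = ((D : ℝ) + 1) ^ 2 * (h + 1) := by rw [hBN]; push_cast; ring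
  have hdm : ∀ i, Dm (p i) (BN : ℝ) := fun i => by
    refine (Dm.of_bound (h1 i).2 hh0 fun l _ => ?_).mono ?_
    · exact_mod_cast hh i l
    · rw [hBNr]
      nlinarith
  have hdm' : ∀ i, Dm (Polynomial.derivative (p i)) (BN : ℝ) := fun i => by
    refine (Dm.of_bound (n := D) (B := D * h) ((Polynomial.natDegree_derivative_le _).trans
      ((Nat.sub_le _ _).trans (h1 i).2)) (by positivity) fun l _ => ?_).mono ?_
    · rw [Polynomial.coeff_derivative]
      by_cases hl : l + 1 ≤ D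
      · push_cast
        rw [abs_mul, mul_comm]
        refine mul_le_mul ?_ (by exact_mod_cast hh i (l + 1)) (abs_nonneg _) hD0
        rw [abs_of_nonneg (by positivity)]
        exact_mod_cast hl
      · rw [Polynomial.coeff_eq_zero_of_natDegree_lt (by have := (h1 i).2; omega)]
        simp
        positivity
    · rw [hBNr]
      nlinarith
  set T : Polynomial ℤ := ∏ i, p i with hT
  set n : ℕ := T.natDegree with hn
  have hnD : n ≤ r * D := by
    refine (Polynomial.natDegree_prod_le _ _).trans ?_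
    refine (Finset.sum_le_sum fun i _ => (h1 i).2).trans ?_
    rw [Finset.sum_const, Finset.card_univ, Fintype.card_fin, smul_eq_mul]
  have hn1 : E₁' n ≤ E₁ := Finset.single_le_sum (f := E₁') (fun _ _ => Nat.zero_le _)
    (Finset.mem_range.2 (by omega))
  have hn0 : E₀' n ≤ E₀ := Finset.single_le_sum (f := E₀') (fun _ _ => Nat.zero_le _)
    (Finset.mem_range.2 (by omega))
  set HT : ℕ := BN ^ r with hHT
  have hTdm : Dm T (HT : ℝ) := by
    have h2 := Dm_prodp hdm Finset.univ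
    rw [Finset.card_univ, Fintype.card_fin] at h2
    rw [hHT]; push_cast
    exact h2
  have hTc : ∀ l, |T.coeff l| ≤ (HT : ℤ) := fun l => by
    have h2 := hTdm.coeff l
    exact_mod_cast h2
  have hHT2 : HT + 2 ≤ (h + 2) ^ M := by
    have h2 : HT ≤ (h + 2) ^ ((2 * D + 3) * r) := by
      rw [hHT, pow_mul]
      exact Nat.pow_le_pow_left hBNle _
    have h3 : 1 ≤ (h + 2) ^ ((2 * D + 3) * r) := Nat.one_le_pow _ _ (by omega)
    have h4 : (h + 2) ^ ((2 * D + 3) * r + 2) = (h + 2) ^ ((2 * D + 3) * r) * ((h + 2) * (h + 2)) := by ring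
    have h5 : 4 ≤ (h + 2) * (h + 2) := Nat.mul_le_mul (by omega : 2 ≤ h + 2) (by omega : 2 ≤ h + 2)
    have h6 : (h + 2) ^ ((2 * D + 3) * r) * 4 ≤ (h + 2) ^ ((2 * D + 3) * r) * ((h + 2) * (h + 2)) :=
      Nat.mul_le_mul_left _ h5
    have h7 : (h + 2) ^ ((2 * D + 3) * r + 2) ≤ (h + 2) ^ M :=
      Nat.pow_le_pow_right (by omega) (by rw [hM]; nlinarith)
    omega
  have hTE : (HT + 2) ^ E₁' n ≤ t := by
    refine (Nat.pow_le_pow_left hHT2 _).trans ?_
    rw [← pow_mul]
    apply htN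
    have : M * E₁' n ≤ M * E₁ := Nat.mul_le_mul_left _ hn1
    omega
  -- the values of the functions
  have hroot : ∀ i (z : ℂ), ‖z‖ ≤ 1 / (t : ℝ) → Polynomial.aeval z (p i) ≠ 0 := by
    intro i z hz
    refine root_small ht1 ?_ (h0 i) (h1 i).2 (hh i) z hz
    have h2 : (D : ℝ) * h < ((h : ℝ) + 2) ^ (D + 1) := by
      have h3 : (D : ℝ) ≤ (2 : ℝ) ^ D := by exact_mod_cast (Nat.lt_two_pow_self (n := D)).le
      have h4 : (2 : ℝ) ^ D ≤ ((h : ℝ) + 2) ^ D := pow_le_pow_left₀ (by norm_num) (by linarith) _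
      have h5 : (0 : ℝ) < ((h : ℝ) + 2) ^ D := by positivity
      rw [pow_succ]
      nlinarith
    exact h2.trans_le (htR (D + 1) (by omega))
  have hlog := fun i => log_ev (h0 i) (Lp_zero (p := p) n i) (Lp_deriv h0 (fun i => (h1 i).1) rfl i) ht0 (hroot i)
  refine ⟨fun i => (hlog i).1, fun P hP0 hPd A hA1 hPA => ?_⟩
  set c : Fin r → Fin n → ℤ := fun i s => (cp p i).coeff s with hc
  have hQ0 : lsr c P ≠ 0 := lsr_ne_zero c (cp_indep (fun i => (h1 i).1) hsq rfl) hP0
  have hQd : (lsr c P).totalDegree ≤ Δ := lsr_totalDegree c P hPd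
  have hQA : ∀ s, |(((lsr c P).coeff s : ℤ) : ℝ)| ≤ A * t := by
    intro s
    refine (lsr_coeff c P hPd (Y := (BN : ℝ) ^ r) (zero_le_one.trans hA1) (one_le_pow₀ hB1) hPA
      (fun i => Dm_sum_le (Dm_cp hdm hdm' i) n) s).trans ?_
    rw [mul_left_comm]
    refine mul_le_mul_of_nonneg_left ?_ (zero_le_one.trans hA1)
    refine le_trans ?_ (htR (K + (2 * D + 3) * r * Δ) (by
      have : (2 * D + 3) * r * Δ ≤ (2 * D + 4) * (r + 1) * Δ := by
        gcongr
        · omega
        · omega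
      omega))
    rw [pow_add]
    refine mul_le_mul ?_ ?_ (by positivity) (by positivity)
    · calc ((K : ℕ) : ℝ) ≤ ((2 ^ K : ℕ) : ℝ) := by
            exact_mod_cast (Nat.lt_two_pow_self (n := K)).le
        _ ≤ ((h : ℝ) + 2) ^ K := by
            push_cast
            exact pow_le_pow_left₀ (by norm_num) (by linarith) _
    · rw [pow_mul, pow_mul]
      refine pow_le_pow_left₀ (by positivity) (pow_le_pow_left₀ (by positivity) ?_ _) _
      exact_mod_cast hBNle
  have hAt : 1 ≤ A * t := one_le_mul_of_one_le_of_one_le hA1 ht1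
  have key := hE₁' n HT t T hTE (prod_coeff_zero h0 _) rfl hsq hTc (lsr c P) hQ0 hQd (A * t) hAt hQA
  rw [lsr_aeval] at key
  -- evaluation
  have hG := hE₀' n HT T (prod_coeff_zero h0 _) le_rfl hTc
  have hcv : ∀ s : Fin n, Cv (t : ℝ) (F T s) := by
    intro s
    have hb : ((HT : ℝ) + 2) ^ E₀' n < t := by
      have h2 : ((HT : ℝ) + 2) ^ (E₀' n + 1) ≤ t := by
        refine le_trans ?_ (htR (M * (E₀ + 1)) (by omega))
        refine le_trans (pow_le_pow_right₀ (by linarith [(Nat.cast_nonneg HT : (0 : ℝ) ≤ HT)])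
          (Nat.succ_le_succ hn0)) ?_
        rw [pow_mul]
        refine pow_le_pow_left₀ (by positivity) ?_ _
        exact_mod_cast hHT2
      refine lt_of_lt_of_le ?_ h2
      refine pow_lt_pow_right₀ ?_ (Nat.lt_succ_self _)
      linarith [(Nat.cast_nonneg HT : (0 : ℝ) ≤ HT)]
    refine Cv.of_bound ht0 (A := ((HT : ℝ) + 2) ^ E₀' n)
      (B := ((HT : ℝ) + 2) ^ E₀' n) (by positivity) hb fun m => ?_
    have := hG.size (some s) m
    rw [pow_succ'] at this
    exact this
  have hval : ∀ i, ∑ s, (c i s : ℝ) * ev t (F T s) = Real.log (Polynomial.aeval (1 / (t : ℝ)) (p i)) := by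
    intro i
    rw [← (hlog i).2, Lp, Cv.ev_sum ht0 _ _ fun s _ => (Cv.C _).mul ht0 (hcv s)]
    refine Finset.sum_congr rfl fun s _ => ?_
    rw [(Cv.C _).ev_mul ht0 (hcv s), ev_C]
    simp [hc]
  have hval' : (fun i => ∑ s, (c i s : ℝ) * ev t (F T s)) =
      fun i => Real.log (Polynomial.aeval (1 / (t : ℝ)) (p i)) := funext hval
  rw [hval'] at key
  refine key.trans (mul_le_mul_of_nonneg_right ?_ (abs_nonneg _))
  calc (A * t * t) ^ E₁' n ≤ ((A * t) ^ 2) ^ E₁' n := by
        refine pow_le_pow_left₀ (by positivity) ?_ _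
        rw [sq]
        exact mul_le_mul_of_nonneg_left (le_mul_of_one_le_left ht0.le hA1) (by positivity)
    _ = (A * t) ^ (2 * E₁' n) := by rw [← pow_mul]
    _ ≤ (A * t) ^ E := pow_le_pow_right₀ hAt (by omega)

end Pool.Agent.K3h1.LM
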