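import Mathlib
import Pool.Agent.Y419.LB.Base

/-!
# Shifted and reversed polynomials
-/

set_option autoImplicit false

open Polynomial

namespace Pool.Agent.K3h1.LM

open Pool.Agent.Y419.LB (Dm Dm.coeff Dm.mul Dm.one Dm.mono Dm.of_bound Dm.add Dm.pow Dm.sum)

/-- the polynomial `q` with `lc * q (z) = (a z) ^ d * f (1 / (a z) + b)`, where `a = lc * a'` -/
noncomputable def qs (f : ℤ[X]) (a' a b : ℤ) : ℤ[X] :=
  1 + ∑ m ∈ Finset.range f.natDegree,
    C ((taylor b f).coeff (f.natDegree - 1 - m) * (a' * a ^ m)) * X ^ (m + 1)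

theorem qs_coeff_zero (f : ℤ[X]) (a' a b : ℤ) : (qs f a' a b).coeff 0 = 1 := by
  rw [qs, coeff_add, coeff_one_zero, finsetSum_coeff]
  rw [Finset.sum_eq_zero, add_zero]
  intro m _
  rw [coeff_C_mul, coeff_X_pow, if_neg (by omega), mul_zero]

theorem qs_coeff_succ (f : ℤ[X]) (a' a b : ℤ) (m : ℕ) : (qs f a' a b).coeff (m + 1) =
    if m < f.natDegree then (taylor b f).coeff (f.natDegree - 1 - m) * (a' * a ^ m) else 0 := by
  rw [qs, coeff_add, coeff_one, if_neg (by omega), zero_add, finsetSum_coeff]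
  simp only [coeff_C_mul, coeff_X_pow]
  by_cases hm : m < f.natDegree
  · rw [if_pos hm, Finset.sum_eq_single m]
    · rw [if_pos rfl, mul_one]
    · intro m' _ h
      rw [if_neg (by omega), mul_zero]
    · intro h
      exact absurd (Finset.mem_range.2 hm) h
  · rw [if_neg hm]
    refine Finset.sum_eq_zero fun m' hm' => ?_
    rw [Finset.mem_range] at hm'
    rw [if_neg (by omega), mul_zero]

theorem qs_natDegree_le (f : ℤ[X]) (a' a b : ℤ) : (qs f a' a b).natDegree ≤ f.natDegree := by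
  rw [natDegree_le_iff_coeff_eq_zero]
  intro m hm
  rcases m with _ | m
  · omega
  · rw [qs_coeff_succ, if_neg (by omega)]

theorem one_le_qs_natDegree {f : ℤ[X]} {a' a b : ℤ} (hf : 1 ≤ f.natDegree) (ha' : a' ≠ 0) (ha : a ≠ 0)
    (hb : f.eval b ≠ 0) : 1 ≤ (qs f a' a b).natDegree := by
  refine hf.trans (le_natDegree_of_ne_zero ?_)
  obtain ⟨d, hd⟩ : ∃ d, f.natDegree = d + 1 := ⟨f.natDegree - 1, by omega⟩
  rw [hd, qs_coeff_succ, if_pos (by omega), hd, Nat.add_sub_cancel, Nat.sub_self]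
  refine mul_ne_zero ?_ (mul_ne_zero ha' (pow_ne_zero _ ha))
  rw [taylor_coeff_zero]
  exact hb

/-- the fundamental identity -/
theorem qs_eval {L : Type} [Field L] [CharZero L] {f : ℤ[X]} {a' a b : ℤ}
    (ha : f.leadingCoeff * a' = a) (ha0 : a ≠ 0) {z : L} (hz : z ≠ 0) :
    (f.leadingCoeff : L) * aeval z (qs f a' a b) =
      ((a : L) * z) ^ f.natDegree * aeval (1 / ((a : L) * z) + b) f := by
  have haL : (a : L) ≠ 0 := by exact_mod_cast ha0
  set u : L := (a : L) * z with hu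
  have hu0 : u ≠ 0 := mul_ne_zero haL hz
  have h1 : aeval (1 / u + b) f = ∑ j ∈ Finset.range (f.natDegree + 1),
      ((taylor b f).coeff j : L) * (1 / u) ^ j := by
    have h2 : aeval (1 / u + b) f = aeval (1 / u) (taylor b f) := by
      rw [taylor_apply, aeval_comp]
      simp
    rw [h2, aeval_eq_sum_range, natDegree_taylor]
    refine Finset.sum_congr rfl fun j _ => ?_
    rw [zsmul_eq_mul]
  rw [h1, Finset.mul_sum, ← Finset.sum_range_reflect]
  simp only [Nat.add_sub_cancel]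
  rw [Finset.sum_range_succ']
  have h3 : ∀ m ∈ Finset.range (f.natDegree + 1), u ^ f.natDegree *
      (((taylor b f).coeff (f.natDegree - m) : L) * (1 / u) ^ (f.natDegree - m)) =
      ((taylor b f).coeff (f.natDegree - m) : L) * u ^ m := by
    intro m hm
    rw [Finset.mem_range] at hm
    obtain ⟨e, he⟩ : ∃ e, f.natDegree = m + e := ⟨f.natDegree - m, by omega⟩
    have h4 : f.natDegree - m = e := by omega
    rw [h4, he, pow_add, one_div, inv_pow]
    field_simp
  rw [h3 0 (by simp), Nat.sub_zero, pow_zero, mul_one, coeff_taylor_natDegree]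
  have h5 : ∀ m ∈ Finset.range f.natDegree, u ^ f.natDegree *
      (((taylor b f).coeff (f.natDegree - (m + 1)) : L) * (1 / u) ^ (f.natDegree - (m + 1))) =
      (f.leadingCoeff : L) * (((taylor b f).coeff (f.natDegree - 1 - m) * (a' * a ^ m) : ℤ) * z ^ (m + 1)) := by
    intro m hm
    rw [Finset.mem_range] at hm
    rw [h3 (m + 1) (by rw [Finset.mem_range]; omega)]
    have h6 : f.natDegree - (m + 1) = f.natDegree - 1 - m := by omega
    have h7 : ((f.leadingCoeff * a' : ℤ) : L) = (a : L) := by rw [ha]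
    rw [h6, hu, mul_pow]
    push_cast at h7 ⊢
    rw [pow_succ (a : L), ← h7]
    ring
  rw [Finset.sum_congr rfl h5, ← Finset.mul_sum, qs, map_add, map_one, map_sum, mul_add, mul_one,
    add_comm]
  congr 2
  refine Finset.sum_congr rfl fun m _ => ?_
  rw [map_mul, map_pow, aeval_X, aeval_C]
  simp

theorem qs_root {f : ℤ[X]} {a' a b : ℤ}
    (ha : f.leadingCoeff * a' = a) (ha0 : a ≠ 0) {z : ℂ} (hz : aeval z (qs f a' a b) = 0) :
    z ≠ 0 ∧ aeval (1 / ((a : ℂ) * z) + b) f = 0 := by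
  have hz0 : z ≠ 0 := by
    intro h
    rw [h, aeval_def, eval₂_at_zero, qs_coeff_zero] at hz
    simp at hz
  refine ⟨hz0, ?_⟩
  have h1 := qs_eval (b := b) ha ha0 hz0
  rw [hz, mul_zero] at h1
  have h2 : ((a : ℂ) * z) ^ f.natDegree ≠ 0 :=
    pow_ne_zero _ (mul_ne_zero (by exact_mod_cast ha0) hz0)
  exact (mul_eq_zero.1 h1.symm).resolve_left h2

theorem root_norm {f : ℤ[X]} (hf : f ≠ 0) {h : ℕ} (hh : ∀ l, |f.coeff l| ≤ h) {w : ℂ}
    (hw : aeval w f = 0) : ‖w‖ < h + 1 := by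
  set g := f.map (Int.castRingHom ℂ) with hg
  have hinj : Function.Injective (Int.castRingHom ℂ) := Int.cast_injective
  have hg0 : g ≠ 0 := by
    rw [hg, Ne, Polynomial.map_eq_zero_iff hinj]
    exact hf
  have hr : g.IsRoot w := by
    rw [IsRoot.def, hg, eval_map]
    exact hw
  have h1 := hr.norm_lt_cauchyBound hg0
  have h2 : cauchyBound g ≤ (h : NNReal) + 1 := by
    unfold cauchyBound
    refine add_le_add ?_ le_rfl
    have h3 : (1 : NNReal) ≤ ‖g.leadingCoeff‖₊ := by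
      rw [hg, leadingCoeff_map_of_injective hinj, ← NNReal.coe_le_coe, coe_nnnorm]
      simp only [eq_intCast, Complex.norm_intCast, NNReal.coe_one]
      have h4 := Int.one_le_abs (leadingCoeff_ne_zero.2 hf)
      exact_mod_cast h4
    refine (div_le_self (by positivity) h3).trans ?_
    refine Finset.sup_le fun l _ => ?_
    rw [hg, coeff_map, ← NNReal.coe_le_coe, coe_nnnorm]
    simp only [eq_intCast, Complex.norm_intCast, NNReal.coe_natCast]
    exact_mod_cast hh l
  have h3 : (‖w‖₊ : ℝ) < (((h : NNReal) + 1 : NNReal) : ℝ) := by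
    exact_mod_cast h1.trans_le h2
  simpa using h3

theorem isCoprime_of_roots {p q : ℤ[X]} (h : ∀ z : ℂ, aeval z p = 0 → aeval z q = 0 → False) :
    IsCoprime (p.map (Int.castRingHom ℚ)) (q.map (Int.castRingHom ℚ)) := by
  have hm : ∀ (p : ℤ[X]) (z : ℂ), aeval z (p.map (Int.castRingHom ℚ)) = aeval z p := by
    intro p z
    exact aeval_map_algebraMap ℚ z p
  rw [isCoprime_iff_aeval_ne_zero_of_isAlgClosed ℚ ℂ]
  intro z
  rw [hm, hm]
  by_contra hcon
  rw [not_or, not_not, not_not] at hcon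
  exact h z hcon.1 hcon.2

theorem qs_coprime {f g : ℤ[X]} {a' a'' a b b' : ℤ} (hf : f ≠ 0) (hg : g ≠ 0)
    (ha : f.leadingCoeff * a' = a) (hga : g.leadingCoeff * a'' = a) (ha0 : a ≠ 0)
    (hfg : ∀ w w' : ℂ, aeval w f = 0 → aeval w' g = 0 → w - b ≠ w' - b') :
    IsCoprime ((qs f a' a b).map (Int.castRingHom ℚ)) ((qs g a'' a b').map (Int.castRingHom ℚ)) := by
  apply isCoprime_of_roots
  intro z h1 h2
  obtain ⟨-, h3⟩ := qs_root ha ha0 h1
  obtain ⟨-, h4⟩ := qs_root hga ha0 h2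
  exact hfg _ _ h3 h4 (by ring)

theorem qs_separable {f : ℤ[X]} {a' a b : ℤ} (hf : f ≠ 0)
    (ha : f.leadingCoeff * a' = a) (ha0 : a ≠ 0)
    (hsq : Squarefree (f.map (Int.castRingHom ℚ))) :
    ((qs f a' a b).map (Int.castRingHom ℚ)).Separable := by
  rw [separable_def, derivative_map]
  apply isCoprime_of_roots
  intro z h1 h2
  obtain ⟨hz0, h3⟩ := qs_root ha ha0 h1
  have haC : (a : ℂ) ≠ 0 := by exact_mod_cast ha0
  have hu0 : (a : ℂ) * z ≠ 0 := mul_ne_zero haC hz0
  set w : ℂ := 1 / ((a : ℂ) * z) + b with hw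
  have hsep : (f.map (Int.castRingHom ℚ)).Separable := PerfectField.separable_iff_squarefree.2 hsq
  -- the derivative
  have hd : aeval w (derivative f) = 0 := by
    have hF1 : HasDerivAt (fun z : ℂ => (f.leadingCoeff : ℂ) * aeval z (qs f a' a b))
        ((f.leadingCoeff : ℂ) * aeval z (derivative (qs f a' a b))) z :=
      ((qs f a' a b).hasDerivAt_aeval z).const_mul _
    have hu : HasDerivAt (fun z : ℂ => (a : ℂ) * z) (a : ℂ) z := by
      simpa using (hasDerivAt_id z).const_mul (a : ℂ)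
    have hv : HasDerivAt (fun z : ℂ => 1 / ((a : ℂ) * z) + b) (-(a : ℂ) / ((a : ℂ) * z) ^ 2) z := by
      have := (hu.inv hu0).add_const (b : ℂ)
      simpa [one_div] using this
    have hF2 : HasDerivAt (fun z : ℂ => ((a : ℂ) * z) ^ f.natDegree * aeval (1 / ((a : ℂ) * z) + b) f)
        (((f.natDegree : ℂ) * ((a : ℂ) * z) ^ (f.natDegree - 1) * a) * aeval w f +
          ((a : ℂ) * z) ^ f.natDegree * (aeval w (derivative f) * (-(a : ℂ) / ((a : ℂ) * z) ^ 2))) z := by
      refine (hu.pow f.natDegree).mul ?_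
      exact (f.hasDerivAt_aeval w).comp z hv
    have hEq : (fun z : ℂ => (f.leadingCoeff : ℂ) * aeval z (qs f a' a b)) =ᶠ[nhds z]
        (fun z : ℂ => ((a : ℂ) * z) ^ f.natDegree * aeval (1 / ((a : ℂ) * z) + b) f) := by
      filter_upwards [isOpen_ne.mem_nhds hz0] with x hx
      exact qs_eval ha ha0 hx
    have h4 := (hF1.congr_of_eventuallyEq hEq.symm).unique hF2
    rw [h2, mul_zero, h3, mul_zero, zero_add] at h4
    have h5 := (mul_eq_zero.1 h4.symm).resolve_left (pow_ne_zero _ hu0)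
    refine (mul_eq_zero.1 h5).resolve_right ?_
    exact div_ne_zero (neg_ne_zero.2 haC) (pow_ne_zero _ hu0)
  rw [separable_def, derivative_map] at hsep
  have h6 := aeval_ne_zero_of_isCoprime hsep w
  have hm : ∀ (p : ℤ[X]) (z : ℂ), aeval z (p.map (Int.castRingHom ℚ)) = aeval z p := by
    intro p z
    exact aeval_map_algebraMap ℚ z p
  rw [hm, hm] at h6
  rcases h6 with h6 | h6
  · exact h6 h3
  · exact h6 hd

/-- **The product of the shifted polynomials is squarefree.** -/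
theorem qs_squarefree {K m : ℕ} {f : Fin K → ℤ[X]} {a' : Fin K → ℤ} {a : ℤ} {b : Fin m → ℤ} {h : ℕ}
    (hf : ∀ s, f s ≠ 0) (ha : ∀ s, (f s).leadingCoeff * a' s = a) (ha0 : a ≠ 0)
    (hh : ∀ s l, |(f s).coeff l| ≤ h) (hsq : Squarefree ((∏ s, f s).map (Int.castRingHom ℚ)))
    (hb : ∀ i i', i ≠ i' → 2 * ((h : ℤ) + 1) ≤ |b i - b i'|) {r : ℕ} (e : Fin r → Fin m × Fin K)
    (he : Function.Injective e) :
    Squarefree ((∏ x, qs (f (e x).2) (a' (e x).2) a (b (e x).1)).map (Int.castRingHom ℚ)) := by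
  classical
  have hsq1 : ∀ s, Squarefree ((f s).map (Int.castRingHom ℚ)) := by
    intro s
    refine hsq.squarefree_of_dvd ?_
    rw [Polynomial.map_prod]
    exact Finset.dvd_prod_of_mem _ (Finset.mem_univ s)
  have hcop : ∀ s s', s ≠ s' → IsCoprime ((f s).map (Int.castRingHom ℚ)) ((f s').map (Int.castRingHom ℚ)) := by
    intro s s' hss
    have h1 : (f s * f s') ∣ ∏ s, f s := by
      rw [← Finset.mul_prod_erase Finset.univ f (Finset.mem_univ s)]
      exact mul_dvd_mul_left _ (Finset.dvd_prod_of_mem _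
        (Finset.mem_erase.2 ⟨hss.symm, Finset.mem_univ s'⟩))
    have h2 : Squarefree ((f s * f s').map (Int.castRingHom ℚ)) :=
      hsq.squarefree_of_dvd (Polynomial.map_dvd _ h1)
    rw [Polynomial.map_mul, squarefree_mul_iff] at h2
    exact h2.1.isCoprime
  apply Polynomial.Separable.squarefree
  rw [Polynomial.map_prod]
  refine separable_prod ?_ ?_
  · intro x y hxy
    show IsCoprime _ _
    refine qs_coprime (hf _) (hf _) (ha _) (ha _) ha0 ?_
    intro w w' hw hw' heq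
    have h1 : e x ≠ e y := fun h => hxy (he h)
    by_cases h2 : (e x).1 = (e y).1
    · have h3 : (e x).2 ≠ (e y).2 := fun h => h1 (Prod.ext h2 h)
      rw [h2] at heq
      have h4 : w = w' := by linear_combination heq
      have h5 := aeval_ne_zero_of_isCoprime (hcop _ _ h3) w
      have hm : ∀ (p : ℤ[X]) (z : ℂ), aeval z (p.map (Int.castRingHom ℚ)) = aeval z p := by
        intro p z
        exact aeval_map_algebraMap ℚ z p
      rw [hm, hm] at h5
      rcases h5 with h5 | h5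
      · exact h5 hw
      · exact h5 (by rw [h4]; exact hw')
    · have h3 := hb _ _ h2
      have h4 := root_norm (hf _) (hh _) hw
      have h5 := root_norm (hf _) (hh _) hw'
      have h6 : ((b (e x).1 - b (e y).1 : ℤ) : ℂ) = w - w' := by
        push_cast
        linear_combination -heq
      have h7 : |((b (e x).1 - b (e y).1 : ℤ) : ℝ)| = ‖w - w'‖ := by
        rw [← h6, Complex.norm_intCast]
      have h8 : ‖w - w'‖ ≤ ‖w‖ + ‖w'‖ := norm_sub_le _ _
      have h9 : (2 * ((h : ℝ) + 1)) ≤ |((b (e x).1 - b (e y).1 : ℤ) : ℝ)| := by exact_mod_cast h3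
      linarith
  · intro x
    exact qs_separable (hf _) (ha _) ha0 (hsq1 _)

theorem Dm_C (c : ℤ) : Dm (C c) |(c : ℝ)| := by
  refine ⟨C |(c : ℝ)|, fun l => ?_, by simp⟩
  rw [coeff_C, coeff_C]
  split_ifs <;> simp

theorem Dm_X : Dm (X : ℤ[X]) 1 := by
  refine ⟨X, fun l => ?_, by simp⟩
  rw [coeff_X, coeff_X]
  split_ifs <;> simp

theorem taylor_coeff_le {f : ℤ[X]} {D h w : ℕ} {b : ℤ} (hD : f.natDegree ≤ D)
    (hh : ∀ l, |f.coeff l| ≤ h) (hb : |b| ≤ w) (l : ℕ) :
    |(((taylor b f).coeff l : ℤ) : ℝ)| ≤ (D + 1) * (h * ((w : ℝ) + 1) ^ D) := by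
  have hw0 : (0 : ℝ) ≤ w := Nat.cast_nonneg w
  have hh0 : (0 : ℝ) ≤ h := Nat.cast_nonneg h
  have h1 : taylor b f = ∑ i ∈ Finset.range (D + 1), C (f.coeff i) * (X + C b) ^ i := by
    rw [taylor_apply, comp, eval₂_eq_sum_range' _ (Nat.lt_succ_of_le hD)]
  have h2 : Dm (taylor b f) (∑ _i ∈ Finset.range (D + 1), h * ((w : ℝ) + 1) ^ D) := by
    rw [h1]
    refine Dm.sum _ fun i hi => ?_
    have h3 := (Dm_C (f.coeff i)).mul ((Dm_X.add (Dm_C b)).pow i)
    refine h3.mono ?_
    have h4 : |((f.coeff i : ℤ) : ℝ)| ≤ h := by exact_mod_cast hh i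
    have h5 : |(b : ℝ)| ≤ w := by exact_mod_cast hb
    refine mul_le_mul h4 ?_ (by positivity) hh0
    calc (1 + |(b : ℝ)|) ^ i ≤ ((w : ℝ) + 1) ^ i := pow_le_pow_left₀ (by positivity) (by linarith) _
      _ ≤ ((w : ℝ) + 1) ^ D := pow_le_pow_right₀ (by linarith) (by
          rw [Finset.mem_range] at hi; omega)
  have h3 := h2.coeff l
  rw [Finset.sum_const, Finset.card_range, nsmul_eq_mul] at h3
  push_cast at h3
  exact h3

theorem qs_coeff_le {f : ℤ[X]} {D h w A : ℕ} {a' a b : ℤ} (hD : f.natDegree ≤ D)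
    (hh : ∀ l, |f.coeff l| ≤ h) (hb : |b| ≤ w) (hA : 1 ≤ A) (ha' : |a'| ≤ A) (ha : |a| ≤ A) (l : ℕ) :
    |(qs f a' a b).coeff l| ≤ (((D + 1) * (h * (w + 1) ^ D) * A ^ (D + 1) + 1 : ℕ) : ℤ) := by
  have key : |(((qs f a' a b).coeff l : ℤ) : ℝ)| ≤ (D + 1) * (h * ((w : ℝ) + 1) ^ D) * (A : ℝ) ^ (D + 1) + 1 := by
    have hpos : (0 : ℝ) ≤ (D + 1) * (h * ((w : ℝ) + 1) ^ D) * (A : ℝ) ^ (D + 1) := by positivity
    rcases l with _ | m
    · rw [qs_coeff_zero]
      simp only [Int.cast_one, abs_one]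
      linarith
    · rw [qs_coeff_succ]
      split_ifs with hm
      · have h1 := taylor_coeff_le hD hh hb (f.natDegree - 1 - m)
        have h2 : |((a' * a ^ m : ℤ) : ℝ)| ≤ (A : ℝ) ^ (D + 1) := by
          push_cast
          rw [abs_mul, abs_pow]
          have h3 : |(a' : ℝ)| ≤ A := by exact_mod_cast ha'
          have h4 : |(a : ℝ)| ≤ A := by exact_mod_cast ha
          have h5 : (1 : ℝ) ≤ A := by exact_mod_cast hA
          calc |(a' : ℝ)| * |(a : ℝ)| ^ m ≤ (A : ℝ) * (A : ℝ) ^ m :=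
                mul_le_mul h3 (pow_le_pow_left₀ (abs_nonneg _) h4 _) (by positivity) (by positivity)
            _ = (A : ℝ) ^ (m + 1) := by rw [pow_succ']
            _ ≤ (A : ℝ) ^ (D + 1) := pow_le_pow_right₀ h5 (by omega)
        rw [Int.cast_mul, abs_mul]
        have h6 := mul_le_mul h1 h2 (abs_nonneg _) (by positivity)
        linarith
      · simp only [Int.cast_zero, abs_zero]
        linarith
  exact_mod_cast key

end Pool.Agent.K3h1.LM
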