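import Mathlib
import Pool.Agent.K3h1.LM.PQ
import Pool.Agent.K3h1.LM.Sh
import Pool.Agent.R351.GF.Scale

/-!
# Windows: the logarithms of the values of polynomials at nearby integers
-/

set_option autoImplicit false

namespace Pool.Agent.K3h1.LM

open Filter Finset Pool.Agent.R351.GF Polynomial

section Lz

variable (U : Ultrafilter ℕ) (H : ℕ → ℕ)

/-- the logarithms of the absolute values of a sequence of integers -/
noncomputable def lz (v : ℕ → ℤ) : Os U H :=
  ⟨fun j => if Real.log |(v j : ℝ)| ≤ gr H j then (Real.log |(v j : ℝ)| : ℂ) else 0, 1,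
    Eventually.of_forall fun j => by
      dsimp only
      rw [pow_one]
      split_ifs with h
      · rw [Complex.norm_real, Real.norm_eq_abs, abs_of_nonneg]
        · exact h
        · rw [← Int.cast_abs]
          rcases eq_or_ne (v j) 0 with h0 | h0
          · rw [h0]; simp
          · refine Real.log_nonneg ?_
            exact_mod_cast Int.one_le_abs h0
      · rw [norm_zero]
        exact (gr_pos H j).le⟩

/-- the class of the sequence of the logarithms -/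
noncomputable def lzc (v : ℕ → ℤ) : Fl U H := Ideal.Quotient.mk (ms U H) (lz U H v)

theorem lz_apply (hH : Tendsto H U atTop) {v : ℕ → ℤ} {c : ℕ}
    (hv : ∀ᶠ j in (U : Filter ℕ), |(v j : ℝ)| ≤ gr H j ^ c) :
    ∀ᶠ j in (U : Filter ℕ), (lz U H v : ℕ → ℂ) j = (Real.log |(v j : ℝ)| : ℂ) := by
  have hg : Tendsto (fun j => gr H j) U atTop := by
    refine tendsto_atTop_mono (fun j => ?_) (tendsto_natCast_atTop_atTop.comp hH)
    unfold gr
    simp
  have h1 : ∀ᶠ x : ℝ in atTop, (c : ℝ) * Real.log x ≤ x := by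
    have h2 := (Real.isLittleO_log_id_atTop.bound (show (0 : ℝ) < 1 / ((c : ℝ) + 1) by positivity))
    filter_upwards [h2, eventually_ge_atTop 1] with x hx hx1
    simp only [id, Real.norm_eq_abs] at hx
    rw [abs_of_nonneg (Real.log_nonneg hx1), abs_of_nonneg (by linarith : (0 : ℝ) ≤ x)] at hx
    have h3 : (0 : ℝ) ≤ c := Nat.cast_nonneg c
    have h4 : ((c : ℝ) + 1) * Real.log x ≤ x := by
      rw [div_mul_eq_mul_div, one_mul, le_div_iff₀ (by positivity)] at hx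
      linarith
    have h5 := Real.log_nonneg hx1
    nlinarith
  filter_upwards [hv, hg.eventually h1] with j hj1 hj2
  apply if_pos
  rcases eq_or_ne (v j) 0 with h0 | h0
  · rw [h0]
    simp only [Int.cast_zero, abs_zero, Real.log_zero]
    exact (gr_pos H j).le
  · have h3 : (0 : ℝ) < |(v j : ℝ)| := abs_pos.2 (by exact_mod_cast h0)
    refine (Real.log_le_log h3 hj1).trans ?_
    rw [Real.log_pow]
    exact hj2

/-- the degrees -/
noncomputable def dgi {K : ℕ} (D : ℕ) (f : ℕ → Fin K → ℤ[X]) (s : Fin K) : IZ U H :=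
  ⟨fun j => ((min (f j s).natDegree D : ℕ) : ℤ), (mem_IZ U H).2 ⟨D, Eventually.of_forall fun j => by
    have h1 : ((min (f j s).natDegree D : ℕ) : ℝ) ≤ D := by exact_mod_cast min_le_right _ _
    have h2 : (D : ℝ) ≤ (2 : ℝ) ^ D := by exact_mod_cast (Nat.lt_two_pow_self (n := D)).le
    have h3 : (2 : ℝ) ^ D ≤ gr H j ^ D := pow_le_pow_left₀ (by norm_num) (gr_two H j) _
    rw [Int.cast_natCast, abs_of_nonneg (Nat.cast_nonneg _)]
    linarith⟩⟩

end Lz

theorem eval_le {f : ℤ[X]} {D : ℕ} {h y : ℝ} {x : ℤ} (hD : f.natDegree ≤ D) (hh0 : 0 ≤ h)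
    (hh : ∀ l, |((f.coeff l : ℤ) : ℝ)| ≤ h) (hy : 1 ≤ y) (hx : |(x : ℝ)| ≤ y) :
    |((f.eval x : ℤ) : ℝ)| ≤ (D + 1) * (h * y ^ D) := by
  rw [eval_eq_sum_range' (Nat.lt_succ_of_le hD)]
  push_cast
  refine (Finset.abs_sum_le_sum_abs _ _).trans ?_
  have h1 : ∀ l ∈ range (D + 1), |((f.coeff l : ℤ) : ℝ) * (x : ℝ) ^ l| ≤ h * y ^ D := by
    intro l hl
    rw [mem_range] at hl
    rw [abs_mul, abs_pow]
    refine mul_le_mul (hh l) ?_ (by positivity) hh0
    exact (pow_le_pow_left₀ (abs_nonneg _) hx _).trans (pow_le_pow_right₀ hy (by omega))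
  refine (Finset.sum_le_sum h1).trans ?_
  rw [Finset.sum_const, card_range, nsmul_eq_mul]
  push_cast
  exact le_rfl

/-- a common multiple of the leading coefficients -/
theorem exists_lc {K : ℕ} {f : Fin K → ℤ[X]} {h : ℕ} (hf : ∀ s, f s ≠ 0) (hh : ∀ s l, |(f s).coeff l| ≤ h) :
    ∃ (a : ℕ) (a' : Fin K → ℤ), 0 < a ∧ a ≤ h ^ K ∧ (∀ s, (f s).leadingCoeff * a' s = a) ∧
      ∀ s, |a' s| ≤ a := by
  set a : ℕ := ∏ s, (f s).leadingCoeff.natAbs with ha
  have hpos : ∀ s, 0 < (f s).leadingCoeff.natAbs := fun s => Int.natAbs_pos.2 (leadingCoeff_ne_zero.2 (hf s))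
  have h1 : ∀ s, ∃ a', (f s).leadingCoeff * a' = (a : ℤ) := by
    intro s
    have h2 : (f s).leadingCoeff.natAbs ∣ a := Finset.dvd_prod_of_mem _ (mem_univ s)
    obtain ⟨c, hc⟩ := Int.natAbs_dvd.1 (Int.natCast_dvd_natCast.2 h2)
    exact ⟨c, hc.symm⟩
  choose a' ha' using h1
  refine ⟨a, a', Finset.prod_pos fun s _ => hpos s, ?_, ha', fun s => ?_⟩
  · rw [ha]
    calc ∏ s, (f s).leadingCoeff.natAbs ≤ ∏ _s : Fin K, h := by
          refine Finset.prod_le_prod' fun s _ => ?_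
          have := hh s (f s).natDegree
          have h2 : (((f s).leadingCoeff.natAbs : ℕ) : ℤ) ≤ h := by
            rw [Int.natCast_natAbs]; exact this
          exact_mod_cast h2
      _ = h ^ K := by rw [Finset.prod_const, Finset.card_univ, Fintype.card_fin]
  · have h2 : |(f s).leadingCoeff| * |a' s| = a := by
      rw [← abs_mul, ha' s]
      exact abs_of_nonneg (Int.natCast_nonneg a)
    have h3 : 1 ≤ |(f s).leadingCoeff| := Int.one_le_abs (leadingCoeff_ne_zero.2 (hf s))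
    have h4 := abs_nonneg (a' s)
    nlinarith

theorem size_le (K D h w : ℕ) :
    ((D + 1) * (h * (w + 1) ^ D) * (h ^ K + 1) ^ (D + 1) + 1) + 2 ≤
      (h + w + 2) ^ ((D + 1) + 1 + D + (K + 1) * (D + 1) + 2) := by
  set G := h + w + 2 with hG
  have hG2 : 2 ≤ G := by omega
  have h1 : D + 1 ≤ G ^ (D + 1) :=
    (Nat.lt_two_pow_self (n := D + 1)).le.trans (Nat.pow_le_pow_left hG2 _)
  have h2 : h ≤ G ^ 1 := by rw [pow_one]; omega
  have h3 : (w + 1) ^ D ≤ G ^ D := Nat.pow_le_pow_left (by omega) _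
  have h4 : (h ^ K + 1) ^ (D + 1) ≤ G ^ ((K + 1) * (D + 1)) := by
    rw [pow_mul]
    refine Nat.pow_le_pow_left ?_ _
    have h5 : h ^ K ≤ G ^ K := Nat.pow_le_pow_left (by omega) _
    have h6 : 1 ≤ G ^ K := Nat.one_le_pow _ _ (by omega)
    have h7 : G ^ (K + 1) = G ^ K * G := pow_succ _ _
    nlinarith
  have h5 : (D + 1) * (h * (w + 1) ^ D) * (h ^ K + 1) ^ (D + 1) ≤
      G ^ ((D + 1) + 1 + D + (K + 1) * (D + 1)) := by
    calc (D + 1) * (h * (w + 1) ^ D) * (h ^ K + 1) ^ (D + 1) ≤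
          G ^ (D + 1) * (G ^ 1 * G ^ D) * G ^ ((K + 1) * (D + 1)) :=
          Nat.mul_le_mul (Nat.mul_le_mul h1 (Nat.mul_le_mul h2 h3)) h4
      _ = G ^ ((D + 1) + 1 + D + (K + 1) * (D + 1)) := by
          rw [← pow_add, ← pow_add, ← pow_add]
          congr 1
          ring
  have h6 : 1 ≤ G ^ ((D + 1) + 1 + D + (K + 1) * (D + 1)) := Nat.one_le_pow _ _ (by omega)
  have h7 : 4 ≤ G ^ 2 := by
    calc 4 = 2 ^ 2 := by norm_num
      _ ≤ G ^ 2 := Nat.pow_le_pow_left hG2 2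
  rw [pow_add G _ 2]
  nlinarith

/-- **Lower bounds for polynomials in the logarithms of the values of polynomials at nearby integers**, up to the
leading terms. -/
theorem win_quant (K m r D Δ : ℕ) : ∃ E : ℕ, ∀ h w N : ℕ, (h + w + 2) ^ E ≤ N → ∀ f : Fin K → ℤ[X],
    (∀ s, 1 ≤ (f s).natDegree ∧ (f s).natDegree ≤ D) → (∀ s l, |(f s).coeff l| ≤ h) →
    Squarefree ((∏ s, f s).map (Int.castRingHom ℚ)) → ∀ β : Fin m → ℕ,
    (∀ i, 2 * (h + 1) ≤ β i ∧ β i ≤ w) →
    (∀ i i', i ≠ i' → 2 * ((h : ℤ) + 1) ≤ |(β i : ℤ) - β i'|) →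
    ∀ e : Fin r → Fin m × Fin K, Function.Injective e →
    ∀ P : MvPolynomial (Fin r) ℤ, P ≠ 0 → P.totalDegree ≤ Δ →
    ∀ A : ℝ, 1 ≤ A → (∀ s, |((P.coeff s : ℤ) : ℝ)| ≤ A) →
      1 ≤ (A * N) ^ E * |MvPolynomial.aeval (fun x : Fin r =>
        Real.log |(((f (e x).2).eval ((N : ℤ) + β (e x).1) : ℤ) : ℝ)| -
          (Real.log |(((f (e x).2).leadingCoeff : ℤ) : ℝ)| + (f (e x).2).natDegree * Real.log N)) P| := by
  obtain ⟨E₁, hE₁⟩ := poly_quant r D Δ
  set M : ℕ := (D + 1) + 1 + D + (K + 1) * (D + 1) + 2 with hM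
  refine ⟨M * E₁ + (K + 1) * E₁ + 1, ?_⟩
  intro h w N hN f hf hfh hsq β hβ hβ' e he P hP0 hPd A hA1 hPA
  have hf0 : ∀ s, f s ≠ 0 := fun s h0 => by
    have := (hf s).1
    rw [h0, natDegree_zero] at this
    omega
  obtain ⟨a, a', ha0, hah, haa', ha'le⟩ := exists_lc hf0 hfh
  have haZ : (a : ℤ) ≠ 0 := by exact_mod_cast ha0.ne'
  have ha'0 : ∀ s, a' s ≠ 0 := fun s h0 => by
    have := haa' s
    rw [h0, mul_zero] at this
    exact haZ this.symm
  have hNM : (h + w + 2) ^ (M * E₁) ≤ N := (Nat.pow_le_pow_right (by omega) (by omega)).trans hN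
  have hN1 : h + w + 2 ≤ N := by
    calc h + w + 2 = (h + w + 2) ^ 1 := (pow_one _).symm
      _ ≤ (h + w + 2) ^ (M * E₁ + (K + 1) * E₁ + 1) := Nat.pow_le_pow_right (by omega) (by omega)
      _ ≤ N := hN
  have hN0 : 0 < N := by omega
  have hNr : (0 : ℝ) < N := by exact_mod_cast hN0
  set t : ℕ := a * N with ht
  have ht0 : (0 : ℝ) < t := by
    have : 0 < t := Nat.mul_pos ha0 hN0
    exact_mod_cast this
  set A' : ℕ := h ^ K + 1 with hA'
  set hq : ℕ := (D + 1) * (h * (w + 1) ^ D) * A' ^ (D + 1) + 1 with hhq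
  set p : Fin r → ℤ[X] := fun x => qs (f (e x).2) (a' (e x).2) a (β (e x).1) with hp
  have hqt : (hq + 2) ^ E₁ ≤ t := by
    calc (hq + 2) ^ E₁ ≤ ((h + w + 2) ^ M) ^ E₁ := Nat.pow_le_pow_left (size_le K D h w) _
      _ = (h + w + 2) ^ (M * E₁) := by rw [← pow_mul]
      _ ≤ N := hNM
      _ ≤ t := Nat.le_mul_of_pos_left _ ha0
  have hroots : ∀ s (i : Fin m), (f s).eval (β i : ℤ) ≠ 0 := by
    intro s i h0
    have h1 : aeval ((β i : ℕ) : ℂ) (f s) = 0 := by
      have h2 : aeval (algebraMap ℤ ℂ (β i : ℤ)) (f s) = algebraMap ℤ ℂ ((f s).eval (β i : ℤ)) := by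
        rw [aeval_algebraMap_apply]
        rfl
      rw [h0, map_zero] at h2
      simpa using h2
    have h3 := root_norm (hf0 s) (hfh s) h1
    rw [Complex.norm_natCast] at h3
    have h4 := (hβ i).1
    have h5 : (β i : ℝ) < ((h + 1 : ℕ) : ℝ) := by push_cast; exact h3
    have h6 : β i < h + 1 := by exact_mod_cast h5
    omega
  obtain ⟨hpos, key⟩ := hE₁ hq t hqt p (fun x => qs_coeff_zero _ _ _ _)
    (fun x => ⟨one_le_qs_natDegree (hf _).1 (ha'0 _) haZ (hroots _ _),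
      (qs_natDegree_le _ _ _ _).trans (hf _).2⟩)
    (fun x l => by
      have h1 : |((β (e x).1 : ℕ) : ℤ)| ≤ (w : ℤ) := by
        rw [abs_of_nonneg (Int.natCast_nonneg _)]
        exact_mod_cast (hβ (e x).1).2
      have h2 : ((a : ℕ) : ℤ) ≤ (A' : ℤ) := by
        have : a ≤ A' := hah.trans (Nat.le_succ _)
        exact_mod_cast this
      exact qs_coeff_le (hf _).2 (hfh _) h1 (by omega) ((ha'le _).trans h2)
        (by rw [abs_of_nonneg (Int.natCast_nonneg _)]; exact h2) l)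
    (qs_squarefree hf0 haa' haZ hfh hsq hβ' e he)
  have hval : (fun x : Fin r => Real.log (aeval (1 / (t : ℝ)) (p x))) = fun x : Fin r =>
        Real.log |(((f (e x).2).eval ((N : ℤ) + β (e x).1) : ℤ) : ℝ)| -
          (Real.log |(((f (e x).2).leadingCoeff : ℤ) : ℝ)| + (f (e x).2).natDegree * Real.log N) := by
    funext x
    set s := (e x).2 with hs
    set i := (e x).1 with hi
    have h1 := qs_eval (L := ℝ) (b := (β i : ℤ)) (haa' s) haZ (z := 1 / (t : ℝ)) (by positivity)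
    have h2 : (((a : ℕ) : ℤ) : ℝ) * (1 / (t : ℝ)) = 1 / N := by
      rw [ht]
      push_cast
      have : (a : ℝ) ≠ 0 := by exact_mod_cast ha0.ne'
      field_simp
    rw [h2, one_div_one_div] at h1
    have h3 : aeval ((N : ℝ) + ((β i : ℤ) : ℝ)) (f s) = (((f s).eval ((N : ℤ) + β i) : ℤ) : ℝ) := by
      have h4 : aeval (algebraMap ℤ ℝ ((N : ℤ) + β i)) (f s) =
          algebraMap ℤ ℝ ((f s).eval ((N : ℤ) + β i)) := by
        rw [aeval_algebraMap_apply]
        rfl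
      simpa using h4
    rw [h3] at h1
    have hq0 : 0 < aeval (1 / (t : ℝ)) (p x) := hpos x
    have hlc : (0 : ℝ) < |(((f s).leadingCoeff : ℤ) : ℝ)| :=
      abs_pos.2 (by exact_mod_cast leadingCoeff_ne_zero.2 (hf0 s))
    have h5 := congrArg abs h1
    rw [abs_mul, abs_mul, abs_of_pos hq0, abs_of_nonneg (by positivity : (0 : ℝ) ≤ (1 / (N : ℝ)) ^ (f s).natDegree)] at h5
    have hfv : (0 : ℝ) < |(((f s).eval ((N : ℤ) + β i) : ℤ) : ℝ)| := by
      refine lt_of_le_of_ne (abs_nonneg _) fun h0 => ?_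
      rw [← h0, mul_zero] at h5
      exact (mul_pos hlc hq0).ne' h5
    have h6 := congrArg Real.log h5
    have h7 : Real.log (1 / (N : ℝ)) = -Real.log N := by rw [one_div, Real.log_inv]
    rw [Real.log_mul hlc.ne' hq0.ne', Real.log_mul (by positivity) hfv.ne', Real.log_pow, h7] at h6
    linarith
  have k2 := key P hP0 hPd A hA1 hPA
  rw [hval] at k2
  refine k2.trans (mul_le_mul_of_nonneg_right ?_ (abs_nonneg _))
  have hN1r : (1 : ℝ) ≤ N := by exact_mod_cast hN0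
  have hAN : 1 ≤ A * N := one_le_mul_of_one_le_of_one_le hA1 hN1r
  have htN : (t : ℝ) ≤ (N : ℝ) ^ (K + 1) := by
    have h1 : t ≤ N ^ K * N := Nat.mul_le_mul_right _ (hah.trans (Nat.pow_le_pow_left (by omega) _))
    rw [← pow_succ] at h1
    exact_mod_cast h1
  calc (A * t) ^ E₁ ≤ ((A * N) ^ (K + 1)) ^ E₁ := by
        refine pow_le_pow_left₀ (by positivity) ?_ _
        rw [mul_pow]
        refine mul_le_mul ?_ htN (by positivity) (by positivity)
        exact le_self_pow₀ hA1 (by omega)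
    _ = (A * N) ^ ((K + 1) * E₁) := by rw [← pow_mul]
    _ ≤ _ := pow_le_pow_right₀ hAN (by omega)

section Win

variable (U : Ultrafilter ℕ) (H : ℕ → ℕ)

theorem win_poly {K m r D : ℕ} (f : ℕ → Fin K → ℤ[X]) (N h w : ℕ → ℕ) (β : ℕ → Fin m → ℕ)
    (e : Fin r → Fin m × Fin K) (he : Function.Injective e) (hH : Tendsto H U atTop)
    (hN : ∀ᶠ j in (U : Filter ℕ), N j ≤ H j)
    (hf : ∀ᶠ j in (U : Filter ℕ), ∀ s, 1 ≤ (f j s).natDegree ∧ (f j s).natDegree ≤ D)
    (hfh : ∀ᶠ j in (U : Filter ℕ), ∀ s l, |(f j s).coeff l| ≤ h j)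
    (hsq : ∀ᶠ j in (U : Filter ℕ), Squarefree ((∏ s, f j s).map (Int.castRingHom ℚ)))
    (hβ : ∀ᶠ j in (U : Filter ℕ), ∀ i, 2 * (h j + 1) ≤ β j i ∧ β j i ≤ w j)
    (hβ' : ∀ᶠ j in (U : Filter ℕ), ∀ i i', i ≠ i' → 2 * ((h j : ℤ) + 1) ≤ |(β j i : ℤ) - β j i'|)
    (hE : ∀ E : ℕ, ∀ᶠ j in (U : Filter ℕ), (h j + w j + 2) ^ E ≤ N j) :
    AlgebraicIndependent (Zs U H) (fun x : Fin r =>
      lzc U H (fun j => (f j (e x).2).eval ((N j : ℤ) + β j (e x).1)) -
        (lzc U H (fun j => (f j (e x).2).leadingCoeff) +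
          psi U H (dgi U H D f (e x).2) * lzc U H (fun j => (N j : ℤ)))) := by
  have h1 : (fun x : Fin r => lzc U H (fun j => (f j (e x).2).eval ((N j : ℤ) + β j (e x).1)) -
        (lzc U H (fun j => (f j (e x).2).leadingCoeff) +
          psi U H (dgi U H D f (e x).2) * lzc U H (fun j => (N j : ℤ)))) =
      fun x => (Ideal.Quotient.mk (ms U H)
        (lz U H (fun j => (f j (e x).2).eval ((N j : ℤ) + β j (e x).1)) -
        (lz U H (fun j => (f j (e x).2).leadingCoeff) +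
          izo U H (dgi U H D f (e x).2) * lz U H (fun j => (N j : ℤ)))) : Fl U H) := by
    funext x
    rw [map_sub, map_add, map_mul]
    rfl
  rw [h1]
  apply indep_of_quant
  intro Δ
  obtain ⟨E, hEE⟩ := win_quant K m r D Δ
  refine ⟨E, ?_⟩
  -- the sequences are not truncated
  have hNg : ∀ᶠ j in (U : Filter ℕ), (N j : ℝ) + w j ≤ gr H j ^ 2 ∧ (h j : ℝ) ≤ gr H j := by
    filter_upwards [hN, hE 1] with j h1 h2
    have h3 : (N j : ℝ) ≤ H j := by exact_mod_cast h1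
    have h4 : ((h j : ℝ) + w j + 2) ≤ N j := by
      rw [pow_one] at h2
      exact_mod_cast h2
    have h5 := gr_two H j
    have h0 : (0 : ℝ) ≤ h j := Nat.cast_nonneg _
    have h0' : (0 : ℝ) ≤ w j := Nat.cast_nonneg _
    have h6 : (H j : ℝ) + 2 = gr H j := rfl
    constructor
    · nlinarith
    · linarith
  have hev : ∀ x : Fin r, ∀ᶠ j in (U : Filter ℕ),
      |(((f j (e x).2).eval ((N j : ℤ) + β j (e x).1) : ℤ) : ℝ)| ≤ gr H j ^ (D + 1 + (1 + 2 * D)) := by
    intro x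
    filter_upwards [hNg, hf, hfh, hβ] with j h1 h2 h3 h4
    have hg := gr_two H j
    have hg1 := gr_one H j
    have h5 := eval_le (f := f j (e x).2) (D := D) (h := gr H j) (y := gr H j ^ 2)
      (x := (N j : ℤ) + β j (e x).1) (h2 _).2 (gr_pos H j).le (fun l => by
        have := h3 (e x).2 l
        have h6 : |(((f j (e x).2).coeff l : ℤ) : ℝ)| ≤ h j := by exact_mod_cast this
        exact h6.trans h1.2) (one_le_pow₀ hg1) (by
        push_cast
        rw [abs_of_nonneg (by positivity)]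
        have : (β j (e x).1 : ℝ) ≤ w j := by exact_mod_cast (h4 (e x).1).2
        linarith [h1.1])
    refine h5.trans ?_
    have h6 : ((D : ℝ) + 1) ≤ gr H j ^ (D + 1) := by
      have h7 : ((D + 1 : ℕ) : ℝ) ≤ (2 : ℝ) ^ (D + 1) := by
        exact_mod_cast (Nat.lt_two_pow_self (n := D + 1)).le
      push_cast at h7
      exact h7.trans (pow_le_pow_left₀ (by norm_num) hg _)
    have h8 : gr H j ^ (D + 1 + (1 + 2 * D)) = gr H j ^ (D + 1) * (gr H j * (gr H j ^ 2) ^ D) := by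
      rw [← pow_mul]
      ring
    rw [h8]
    exact mul_le_mul_of_nonneg_right h6 (by positivity)
  have hlc : ∀ x : Fin r, ∀ᶠ j in (U : Filter ℕ),
      |(((f j (e x).2).leadingCoeff : ℤ) : ℝ)| ≤ gr H j ^ 1 := by
    intro x
    filter_upwards [hNg, hfh] with j h1 h3
    rw [pow_one]
    have h6 : |(((f j (e x).2).leadingCoeff : ℤ) : ℝ)| ≤ h j := by
      exact_mod_cast h3 (e x).2 (f j (e x).2).natDegree
    exact h6.trans h1.2
  have hNb : ∀ᶠ j in (U : Filter ℕ), |(((N j : ℤ)) : ℝ)| ≤ gr H j ^ 1 := by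
    filter_upwards [hN] with j h1
    rw [pow_one, Int.cast_natCast, abs_of_nonneg (Nat.cast_nonneg _)]
    have h3 : (N j : ℝ) ≤ H j := by exact_mod_cast h1
    unfold gr
    linarith
  have e1 : ∀ᶠ j in (U : Filter ℕ), ∀ x : Fin r,
      (lz U H (fun j => (f j (e x).2).eval ((N j : ℤ) + β j (e x).1)) : ℕ → ℂ) j =
      (Real.log |(((f j (e x).2).eval ((N j : ℤ) + β j (e x).1) : ℤ) : ℝ)| : ℂ) :=
    Filter.eventually_all.2 fun x => lz_apply U H hH (hev x)
  have e2 : ∀ᶠ j in (U : Filter ℕ), ∀ x : Fin r,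
      (lz U H (fun j => (f j (e x).2).leadingCoeff) : ℕ → ℂ) j =
      (Real.log |(((f j (e x).2).leadingCoeff : ℤ) : ℝ)| : ℂ) :=
    Filter.eventually_all.2 fun x => lz_apply U H hH (hlc x)
  have e3 := lz_apply U H hH hNb
  filter_upwards [hN, hf, hfh, hsq, hβ, hβ', hE E, hE 1, e1, e2, e3] with j g1 g2 g3 g4 g5 g6 g7 g8 g9 g10 g11
    P hP0 hPd A hA1 hPA
  have hq := hEE (h j) (w j) (N j) g7 (f j) g2 g3 g4 (β j) g5 g6 e he P hP0 hPd A hA1 hPA
  have hN0 : 0 < N j := by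
    rw [pow_one] at g8
    omega
  have hNr : (0 : ℝ) < N j := by exact_mod_cast hN0
  have h3 : (fun x : Fin r => ((lz U H (fun j => (f j (e x).2).eval ((N j : ℤ) + β j (e x).1)) -
        (lz U H (fun j => (f j (e x).2).leadingCoeff) +
          izo U H (dgi U H D f (e x).2) * lz U H (fun j => (N j : ℤ))) : Os U H) : ℕ → ℂ) j) =
      fun x : Fin r => algebraMap ℝ ℂ (Real.log |(((f j (e x).2).eval ((N j : ℤ) + β j (e x).1) : ℤ) : ℝ)| -
          (Real.log |(((f j (e x).2).leadingCoeff : ℤ) : ℝ)| + (f j (e x).2).natDegree * Real.log (N j))) := by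
    funext x
    show (lz U H (fun j => (f j (e x).2).eval ((N j : ℤ) + β j (e x).1)) : ℕ → ℂ) j -
        ((lz U H (fun j => (f j (e x).2).leadingCoeff) : ℕ → ℂ) j +
          (izo U H (dgi U H D f (e x).2) : ℕ → ℂ) j * (lz U H (fun j => (N j : ℤ)) : ℕ → ℂ) j) = _
    rw [g9 x, g10 x, g11, izo_apply]
    have h4 : ((dgi U H D f (e x).2 : ℕ → ℤ) j) = ((f j (e x).2).natDegree : ℤ) := by
      show ((min (f j (e x).2).natDegree D : ℕ) : ℤ) = _
      rw [min_eq_left (g2 _).2]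
    have h5 : |(((N j : ℤ)) : ℝ)| = N j := by
      rw [Int.cast_natCast, abs_of_pos hNr]
    rw [h4, h5]
    show _ = ((_ : ℝ) : ℂ)
    push_cast
    simp
  have h6 : MvPolynomial.aeval (fun x : Fin r => algebraMap ℝ ℂ
      (Real.log |(((f j (e x).2).eval ((N j : ℤ) + β j (e x).1) : ℤ) : ℝ)| -
          (Real.log |(((f j (e x).2).leadingCoeff : ℤ) : ℝ)| + (f j (e x).2).natDegree * Real.log (N j)))) P =
      algebraMap ℝ ℂ (MvPolynomial.aeval (fun x : Fin r =>
      (Real.log |(((f j (e x).2).eval ((N j : ℤ) + β j (e x).1) : ℤ) : ℝ)| -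
          (Real.log |(((f j (e x).2).leadingCoeff : ℤ) : ℝ)| + (f j (e x).2).natDegree * Real.log (N j)))) P) :=
    MvPolynomial.aeval_algebraMap_apply ℂ _ P
  rw [h3, h6]
  have h5 : ‖algebraMap ℝ ℂ (MvPolynomial.aeval (fun x : Fin r =>
      (Real.log |(((f j (e x).2).eval ((N j : ℤ) + β j (e x).1) : ℤ) : ℝ)| -
          (Real.log |(((f j (e x).2).leadingCoeff : ℤ) : ℝ)| + (f j (e x).2).natDegree * Real.log (N j)))) P)‖ =
      |MvPolynomial.aeval (fun x : Fin r =>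
      (Real.log |(((f j (e x).2).eval ((N j : ℤ) + β j (e x).1) : ℤ) : ℝ)| -
          (Real.log |(((f j (e x).2).leadingCoeff : ℤ) : ℝ)| + (f j (e x).2).natDegree * Real.log (N j)))) P| := by
    rw [← Real.norm_eq_abs]
    exact Complex.norm_real _
  rw [h5]
  refine hq.trans (mul_le_mul_of_nonneg_right ?_ (abs_nonneg _))
  refine pow_le_pow_left₀ (by positivity) ?_ _
  refine mul_le_mul_of_nonneg_left ?_ (zero_le_one.trans hA1)
  unfold gr
  have : (N j : ℝ) ≤ H j := by exact_mod_cast g1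
  linarith

end Win

end Pool.Agent.K3h1.LM
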