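import Mathlib
import Pool.Agent.K3h1.LM.Wn

/-!
# A sequence of elements of large sets at which the values of polynomials have independent logarithms
-/

set_option autoImplicit false

namespace Pool.Agent.K3h1.LM

open Filter Finset Pool.Agent.R351.GF Polynomial

/-- a large residue class -/
theorem exists_class (A : Finset ℕ) {g : ℕ} (hg : 0 < g) :
    ∃ c, A.card ≤ g * (A.filter fun a => a % g = c).card := by
  classical
  by_contra hcon
  push Not at hcon
  have h1 : A.card = ∑ c ∈ range g, (A.filter fun a => a % g = c).card :=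
    Finset.card_eq_sum_card_fiberwise (f := fun a => a % g) (t := range g)
      (fun a _ => Finset.mem_coe.2 (Finset.mem_range.2 (Nat.mod_lt a hg)))
  have h2 : g * A.card = ∑ c ∈ range g, g * (A.filter fun a => a % g = c).card := by
    conv_lhs => rw [h1]
    rw [Finset.mul_sum]
  have h3 : ∑ c ∈ range g, g * (A.filter fun a => a % g = c).card < ∑ _c ∈ range g, A.card :=
    Finset.sum_lt_sum_of_nonempty ⟨0, Finset.mem_range.2 hg⟩ fun c _ => hcon c
  rw [← h2, Finset.sum_const, card_range, smul_eq_mul] at h3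
  exact lt_irrefl _ h3

variable (U : Ultrafilter ℕ) (H T : ℕ → ℕ)

/-- many nearby elements in large sets of integers, with large gaps -/
theorem exists_spaced (hT : Tendsto T U atTop) (h : ℕ → ℕ)
    (hh : ∀ E : ℕ, ∀ᶠ j in (U : Filter ℕ), (h j + 2) ^ E ≤ T j)
    (A : ℕ → Finset ℕ) (hA : ∀ j, A j ⊆ Ioc 0 (T j))
    (hL : ∀ c : ℝ, 0 < c → ∀ᶠ j in (U : Filter ℕ), (T j : ℝ) ^ (1 - c) < (A j).card) (r : ℕ) :
    ∃ (N w : ℕ → ℕ) (β : ℕ → Fin r → ℕ),
      (∀ᶠ j in (U : Filter ℕ), N j ≤ T j) ∧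
      (∀ᶠ j in (U : Filter ℕ), ∀ i, N j + β j i ∈ A j) ∧
      (∀ᶠ j in (U : Filter ℕ), ∀ i, 2 * (h j + 1) ≤ β j i ∧ β j i ≤ w j) ∧
      (∀ᶠ j in (U : Filter ℕ), ∀ i i', i ≠ i' → 2 * ((h j : ℤ) + 1) ≤ |(β j i : ℤ) - β j i'|) ∧
      (∀ E : ℕ, ∀ᶠ j in (U : Filter ℕ), (h j + w j + 2) ^ E ≤ N j) := by
  classical
  have hTr : Tendsto (fun j => (T j : ℝ)) U atTop := tendsto_natCast_atTop_atTop.comp hT
  set g : ℕ → ℕ := fun j => 2 * (h j + 1) with hg
  have hg0 : ∀ j, 0 < g j := fun j => by rw [hg]; positivity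
  choose c hc using fun j => exists_class (A j) (hg0 j)
  set A' : ℕ → Finset ℕ := fun j => (A j).filter fun a => a % g j = c j with hA'
  have hA'A : ∀ j, A' j ⊆ A j := fun j => Finset.filter_subset _ _
  -- the class is large
  have hL' : ∀ c : ℝ, 0 < c → ∀ᶠ j in (U : Filter ℕ), (T j : ℝ) ^ (1 - c) < (A' j).card := by
    intro c hc0
    obtain ⟨n, hn⟩ := exists_nat_gt (2 / (c / 2))
    have hn0 : (0 : ℝ) < n := lt_trans (by positivity) hn
    filter_upwards [hL (c / 2) (by positivity), hh (2 * n), hTr.eventually_ge_atTop 1] with j h1 h2 h3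
    have ht0 : (0 : ℝ) < T j := by linarith
    have h4 : (g j : ℝ) ≤ (T j : ℝ) ^ (c / 2) := by
      have h5 : (g j : ℝ) ≤ ((h j : ℝ) + 2) ^ 2 := by
        rw [hg]
        push_cast
        nlinarith [(Nat.cast_nonneg (h j) : (0 : ℝ) ≤ h j)]
      have h6 : (((h j : ℝ) + 2) ^ 2) ^ n ≤ T j := by
        rw [← pow_mul]
        exact_mod_cast h2
      have h7 : ((h j : ℝ) + 2) ^ 2 ≤ (T j : ℝ) ^ (1 / (n : ℝ)) := by
        have h8 : (0 : ℝ) ≤ ((h j : ℝ) + 2) ^ 2 := by positivity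
        calc ((h j : ℝ) + 2) ^ 2 = ((((h j : ℝ) + 2) ^ 2) ^ n) ^ (1 / (n : ℝ)) := by
              rw [← Real.rpow_natCast (((h j : ℝ) + 2) ^ 2) n, ← Real.rpow_mul h8, mul_one_div,
                div_self hn0.ne', Real.rpow_one]
          _ ≤ (T j : ℝ) ^ (1 / (n : ℝ)) := Real.rpow_le_rpow (by positivity) h6 (by positivity)
      refine h5.trans (h7.trans (Real.rpow_le_rpow_of_exponent_le h3 ?_))
      rw [div_le_iff₀ hn0]
      rw [div_lt_iff₀ (by positivity)] at hn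
      nlinarith
    have h5 : ((A j).card : ℝ) ≤ g j * (A' j).card := by exact_mod_cast hc j
    have h6 : (T j : ℝ) ^ (1 - c / 2) = (T j : ℝ) ^ (c / 2) * (T j : ℝ) ^ (1 - c) := by
      rw [← Real.rpow_add ht0]
      congr 1
      ring
    rw [h6] at h1
    have h7 : (0 : ℝ) ≤ (A' j).card := Nat.cast_nonneg _
    have h8 : (T j : ℝ) ^ (c / 2) * (T j : ℝ) ^ (1 - c) < (T j : ℝ) ^ (c / 2) * (A' j).card :=
      lt_of_lt_of_le h1 (h5.trans (mul_le_mul_of_nonneg_right h4 h7))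
    exact lt_of_mul_lt_mul_left h8 (Real.rpow_nonneg ht0.le _)
  -- the windows
  set w : ℕ → ℕ := fun j => ⌊4 * ((r : ℝ) + 1) * ((T j : ℝ) / (A' j).card)⌋₊ + 1 with hw
  have hwle : ∀ j, (w j : ℝ) ≤ 4 * ((r : ℝ) + 1) * ((T j : ℝ) / (A' j).card) + 1 := by
    intro j
    rw [hw]
    push_cast
    have := Nat.floor_le (show 0 ≤ 4 * ((r : ℝ) + 1) * ((T j : ℝ) / (A' j).card) by positivity)
    linarith
  -- the choice
  have hex : ∀ᶠ j in (U : Filter ℕ), ∃ N ∈ A' j, Nat.sqrt (T j) < N ∧ ∃ β : Fin r → ℕ,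
      Function.Injective β ∧ ∀ i, 0 < β i ∧ β i ≤ w j ∧ N + β i ∈ A' j := by
    filter_upwards [hL' (1 / 4) (by norm_num), hTr.eventually_ge_atTop 256,
      hTr.eventually_ge_atTop (((r : ℝ) + 1) ^ 2)] with j h1 h2 h3
    obtain ⟨h4, h5⟩ := large_arith r h2 h3 h1
    refine pigeon r (T j) (w j) _ (Nat.succ_pos _) (A' j) ((hA'A j).trans (hA j)) ?_
    have ht0 : (0 : ℝ) < T j := by linarith
    have hA0 : (0 : ℝ) < (A' j).card := lt_trans (Real.rpow_pos_of_pos ht0 _) h1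
    have h6 : ((Nat.sqrt (T j) : ℕ) : ℝ) ≤ Real.sqrt (T j) := Real.nat_sqrt_le_real_sqrt
    have h7 : (((T j) / (w j) : ℕ) : ℝ) ≤ (A' j).card / (4 * ((r : ℝ) + 1)) := by
      refine (Nat.cast_div_le).trans ?_
      have h8 : 4 * ((r : ℝ) + 1) * ((T j : ℝ) / (A' j).card) < w j := by
        rw [hw]
        push_cast
        exact Nat.lt_floor_add_one _
      have h9 : (0 : ℝ) < w j := by
        have : 0 < w j := Nat.succ_pos _
        exact_mod_cast this
      rw [div_le_div_iff₀ h9 (by positivity)]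
      have h10 := h8.le
      rw [mul_div_assoc', div_le_iff₀ hA0] at h10
      linarith
    have h11 : ((((T j) / (w j) : ℕ) : ℝ) + 1) * r ≤ (A' j).card / 4 + r := by
      have h12 : (A' j).card / (4 * ((r : ℝ) + 1)) * r ≤ (A' j).card / 4 := by
        rw [div_mul_eq_mul_div, div_le_div_iff₀ (by positivity) (by norm_num)]
        nlinarith
      have hr0 : (0 : ℝ) ≤ r := Nat.cast_nonneg _
      nlinarith
    have h13 : ((Nat.sqrt (T j) + (T j / w j + 1) * r : ℕ) : ℝ) < (A' j).card := by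
      push_cast
      push_cast at h11
      linarith
    exact_mod_cast h13
  have hex' : ∀ j, ∃ (N : ℕ) (β : Fin r → ℕ), (∃ N ∈ A' j, Nat.sqrt (T j) < N ∧ ∃ β : Fin r → ℕ,
      Function.Injective β ∧ ∀ i, 0 < β i ∧ β i ≤ w j ∧ N + β i ∈ A' j) → (N ∈ A' j ∧
      Nat.sqrt (T j) < N ∧ Function.Injective β ∧ ∀ i, 0 < β i ∧ β i ≤ w j ∧ N + β i ∈ A' j) := by
    intro j
    by_cases h : ∃ N ∈ A' j, Nat.sqrt (T j) < N ∧ ∃ β : Fin r → ℕ,
      Function.Injective β ∧ ∀ i, 0 < β i ∧ β i ≤ w j ∧ N + β i ∈ A' j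
    · obtain ⟨N, h1, h2, β, h3, h4⟩ := h
      exact ⟨N, β, fun _ => ⟨h1, h2, h3, h4⟩⟩
    · exact ⟨0, fun _ => 0, fun h' => absurd h' h⟩
  choose N β hNβ using hex'
  have hN : ∀ᶠ j in (U : Filter ℕ), N j ∈ A' j ∧
      Nat.sqrt (T j) < N j ∧ Function.Injective (β j) ∧
      ∀ i, 0 < β j i ∧ β j i ≤ w j ∧ N j + β j i ∈ A' j := by
    filter_upwards [hex] with j hj
    exact hNβ j hj
  have hmod : ∀ᶠ j in (U : Filter ℕ), ∀ i, g j ∣ β j i := by
    filter_upwards [hN] with j hj i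
    have h1 := (mem_filter.1 hj.1).2
    have h2 := (mem_filter.1 (hj.2.2.2 i).2.2).2
    have h3 : (N j + β j i) % g j = N j % g j := h2.trans h1.symm
    have h4 : (N j + β j i) ≡ N j + 0 [MOD g j] := h3
    exact (Nat.modEq_zero_iff_dvd).1 (Nat.ModEq.add_left_cancel' _ h4)
  refine ⟨N, w, β, ?_, ?_, ?_, ?_, ?_⟩
  · filter_upwards [hN] with j hj
    exact (mem_Ioc.1 (hA j (hA'A j hj.1))).2
  · filter_upwards [hN] with j hj i
    exact hA'A j (hj.2.2.2 i).2.2
  · filter_upwards [hN, hmod] with j hj hm i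
    exact ⟨Nat.le_of_dvd (hj.2.2.2 i).1 (hm i), (hj.2.2.2 i).2.1⟩
  · filter_upwards [hN, hmod] with j hj hm i i' hii
    have h1 : ((g j : ℕ) : ℤ) ∣ (β j i : ℤ) - β j i' :=
      dvd_sub (Int.natCast_dvd_natCast.2 (hm i)) (Int.natCast_dvd_natCast.2 (hm i'))
    have h2 : (β j i : ℤ) - β j i' ≠ 0 := by
      rw [sub_ne_zero]
      intro h
      exact hii (hj.2.2.1 (by exact_mod_cast h))
    have h3 := Int.le_of_dvd (abs_pos.2 h2) ((dvd_abs _ _).2 h1)
    rw [hg] at h3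
    push_cast at h3
    linarith
  · intro E
    filter_upwards [hN, hL' (1 / (4 * (((2 * E : ℕ) : ℝ) + 1))) (by positivity), hh (4 * E),
      hTr.eventually_ge_atTop 1, hTr.eventually_ge_atTop ((4 * (r : ℝ) + 7) ^ (4 * (2 * E)))]
      with j hj h1 h0 h2 h3
    have h4 := window_arith r (2 * E) h2 h3 h1 (hwle j) (Nat.cast_nonneg _)
    have ht0 : (0 : ℝ) ≤ T j := by linarith
    have h5 : (((h j : ℝ) + 2) ^ E) ^ 4 ≤ T j := by
      rw [← pow_mul, mul_comm]
      exact_mod_cast h0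
    have h6 : (((w j : ℝ) + 2) ^ E) ^ 4 ≤ T j := by
      have h7 : (((w j : ℝ) + 2) ^ E) ^ 2 ≤ Real.sqrt (T j) := by
        rw [← pow_mul, mul_comm]
        exact h4
      calc (((w j : ℝ) + 2) ^ E) ^ 4 = ((((w j : ℝ) + 2) ^ E) ^ 2) ^ 2 := by ring
        _ ≤ Real.sqrt (T j) ^ 2 := pow_le_pow_left₀ (by positivity) h7 _
        _ = T j := Real.sq_sqrt ht0
    have h7 : (((h j : ℝ) + 2) ^ E * ((w j : ℝ) + 2) ^ E) ^ 2 ≤ T j := by
      have h8 : ((((h j : ℝ) + 2) ^ E * ((w j : ℝ) + 2) ^ E) ^ 2) ^ 2 ≤ (T j : ℝ) ^ 2 := by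
        calc ((((h j : ℝ) + 2) ^ E * ((w j : ℝ) + 2) ^ E) ^ 2) ^ 2 =
              (((h j : ℝ) + 2) ^ E) ^ 4 * (((w j : ℝ) + 2) ^ E) ^ 4 := by ring
          _ ≤ (T j : ℝ) * T j := mul_le_mul h5 h6 (by positivity) ht0
          _ = (T j : ℝ) ^ 2 := by ring
      exact (pow_le_pow_iff_left₀ (by positivity) ht0 (by norm_num)).1 h8
    have h8 : ((h j : ℝ) + 2) ^ E * ((w j : ℝ) + 2) ^ E ≤ Real.sqrt (T j) :=
      Real.le_sqrt_of_sq_le h7
    have h9 : (((h j + w j + 2 : ℕ) : ℝ)) ^ E ≤ ((h j : ℝ) + 2) ^ E * ((w j : ℝ) + 2) ^ E := by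
      rw [← mul_pow]
      refine pow_le_pow_left₀ (by positivity) ?_ _
      push_cast
      nlinarith [(Nat.cast_nonneg (h j) : (0 : ℝ) ≤ h j), (Nat.cast_nonneg (w j) : (0 : ℝ) ≤ w j)]
    have h10 : Real.sqrt (T j) < (Nat.sqrt (T j) : ℝ) + 1 := Real.real_sqrt_lt_nat_sqrt_succ
    have h11 : (((h j + w j + 2) ^ E : ℕ) : ℝ) < ((Nat.sqrt (T j) + 1 : ℕ) : ℝ) := by
      push_cast
      push_cast at h9
      linarith
    have h12 : (h j + w j + 2) ^ E < Nat.sqrt (T j) + 1 := by exact_mod_cast h11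
    have := hj.2.1
    omega

theorem card_off {m K : ℕ} (σ : Fin m → Fin K) :
    ((univ : Finset (Fin m × Fin K)).filter fun p => p.2 ≠ σ p.1).card + m = m * K := by
  classical
  have h1 := Finset.card_filter_add_card_filter_not (s := (univ : Finset (Fin m × Fin K)))
    (fun p => p.2 ≠ σ p.1)
  have h2 : ((univ : Finset (Fin m × Fin K)).filter fun p => ¬ p.2 ≠ σ p.1).card = m := by
    have h3 : ((univ : Finset (Fin m × Fin K)).filter fun p => ¬ p.2 ≠ σ p.1) =
        (univ : Finset (Fin m)).image fun i => (i, σ i) := by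
      ext ⟨i, s⟩
      simp only [mem_filter, mem_univ, true_and, not_not, mem_image, Prod.mk.injEq]
      constructor
      · intro h
        exact ⟨i, rfl, h.symm⟩
      · rintro ⟨i', rfl, rfl⟩
        rfl
    rw [h3, Finset.card_image_of_injective _ (fun i i' h => (Prod.mk.inj h).1), Finset.card_univ,
      Fintype.card_fin]
  rw [h2, Finset.card_univ, Fintype.card_prod, Fintype.card_fin, Fintype.card_fin] at h1
  exact h1

/-- **Polynomials at an element of large sets.** -/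
theorem exists_good {K D : ℕ} (hT : Tendsto T U atTop) (hTH : ∀ᶠ j in (U : Filter ℕ), T j ≤ H j)
    (f : ℕ → Fin K → ℤ[X]) (h : ℕ → ℕ)
    (hf : ∀ᶠ j in (U : Filter ℕ), ∀ s, 1 ≤ (f j s).natDegree ∧ (f j s).natDegree ≤ D)
    (hfh : ∀ᶠ j in (U : Filter ℕ), ∀ s l, |(f j s).coeff l| ≤ h j)
    (hsq : ∀ᶠ j in (U : Filter ℕ), Squarefree ((∏ s, f j s).map (Int.castRingHom ℚ)))
    (hh : ∀ E : ℕ, ∀ᶠ j in (U : Filter ℕ), (h j + 2) ^ E ≤ T j)
    (A : ℕ → Finset ℕ) (hA : ∀ j, A j ⊆ Ioc 0 (T j))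
    (hL : ∀ c : ℝ, 0 < c → ∀ᶠ j in (U : Filter ℕ), (T j : ℝ) ^ (1 - c) < (A j).card)
    (S : Set (Fl U H)) (hS : S.Finite) :
    ∃ a : ℕ → ℕ, (∀ᶠ j in (U : Filter ℕ), a j ∈ A j) ∧ ∀ s : Fin K,
      lzc U H (fun j => (f j s).eval (a j : ℤ)) ∉ acl (Zs U H)
        (S ∪ (fun s' => lzc U H (fun j => (f j s').eval (a j : ℤ))) '' {s' | s' < s}) := by
  classical
  have hH : Tendsto H U atTop := tendsto_atTop_mono' _ hTH hT
  set m : ℕ := S.ncard + K + 2 with hm
  obtain ⟨N, w, β, hNT, hNA, hβ, hβ', hE⟩ := exists_spaced U T hT h hh A hA hL m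
  set e : Fin (m * K) → Fin m × Fin K := fun x => finProdFinEquiv.symm x with he
  have heinj : Function.Injective e := finProdFinEquiv.symm.injective
  have hind := win_poly U H f N h w β e heinj hH
    (by filter_upwards [hNT, hTH] with j h1 h2; exact h1.trans h2) hf hfh hsq hβ hβ' hE
  by_contra hcon
  push Not at hcon
  have hc : ∀ i : Fin m, ∃ s : Fin K, lzc U H (fun j => (f j s).eval ((N j : ℤ) + β j i)) ∈
      acl (Zs U H) (S ∪ (fun s' => lzc U H (fun j => (f j s').eval ((N j : ℤ) + β j i))) '' {s' | s' < s}) := by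
    intro i
    obtain ⟨s, hs⟩ := hcon (fun j => N j + β j i) (by filter_upwards [hNA] with j hj; exact hj i)
    refine ⟨s, ?_⟩
    have h1 : ∀ s' : Fin K, (fun j => (f j s').eval (((N j + β j i : ℕ) : ℤ))) =
        fun j => (f j s').eval ((N j : ℤ) + β j i) := by
      intro s'
      funext j
      push_cast
      rfl
    simp only [h1] at hs
    exact hs
  choose σ hσ using hc
  set X : Fin m → Fin K → Fl U H := fun i s => lzc U H (fun j => (f j s).eval ((N j : ℤ) + β j i)) with hX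
  set S' : Set (Fl U H) := insert (lzc U H (fun j => (N j : ℤ)))
    (S ∪ Set.range fun s : Fin K => lzc U H (fun j => (f j s).leadingCoeff)) with hS'
  set Z : Finset (Fin m × Fin K) := (univ : Finset (Fin m × Fin K)).filter fun p => p.2 ≠ σ p.1 with hZ
  set Y : Set (Fl U H) := S' ∪ (fun p : Fin m × Fin K => X p.1 p.2) '' (Z : Set (Fin m × Fin K)) with hY
  have hZc := card_off σ
  rw [← hZ] at hZc
  have hSS' : S ⊆ S' := fun x hx => Set.mem_insert_of_mem _ (Or.inl hx)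
  -- the size of `Y`
  have hYc : Y.encard < ((m * K : ℕ) : ℕ∞) := by
    have h1 : S'.encard ≤ ((S.ncard + K + 1 : ℕ) : ℕ∞) := by
      refine (Set.encard_insert_le _ _).trans ?_
      have h2 : (S ∪ Set.range fun s : Fin K => lzc U H (fun j => (f j s).leadingCoeff)).encard ≤
          ((S.ncard + K : ℕ) : ℕ∞) := by
        refine (Set.encard_union_le _ _).trans ?_
        rw [← hS.cast_ncard_eq]
        push_cast
        refine add_le_add le_rfl ?_
        have h3 : (Set.range fun s : Fin K => lzc U H (fun j => (f j s).leadingCoeff)).encard ≤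
            (Set.univ : Set (Fin K)).encard := by
          rw [← Set.image_univ]
          exact Set.encard_image_le _ _
        refine h3.trans ?_
        rw [Set.encard_univ]
        simp
      push_cast at h2 ⊢
      exact add_le_add h2 le_rfl
    have h2 : Y.encard ≤ ((S.ncard + K + 1 + Z.card : ℕ) : ℕ∞) := by
      refine (Set.encard_union_le _ _).trans ?_
      push_cast at h1 ⊢
      refine add_le_add h1 ?_
      refine (Set.encard_image_le _ _).trans ?_
      rw [Set.encard_coe_eq_coe_finsetCard]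
    refine h2.trans_lt ?_
    have h3 : S.ncard + K + 1 + Z.card < m * K := by omega
    exact_mod_cast h3
  -- everything is algebraic over `Y`
  have hXY : ∀ i s, X i s ∈ acl (Zs U H) Y := by
    intro i s
    by_cases hs : s = σ i
    · rw [hs]
      refine acl_mono ?_ (hσ i)
      rintro x (hx | ⟨s', hs', rfl⟩)
      · exact Or.inl (hSS' hx)
      · refine Or.inr ⟨(i, s'), ?_, rfl⟩
        rw [Finset.mem_coe, hZ, mem_filter]
        exact ⟨mem_univ _, ne_of_lt hs'⟩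
    · refine subset_acl (Or.inr ⟨(i, s), ?_, rfl⟩)
      rw [Finset.mem_coe, hZ, mem_filter]
      exact ⟨mem_univ _, hs⟩
  obtain ⟨x, hx⟩ := exists_notMem_acl hind hYc
  apply hx
  refine acl_sub (hXY _ _) (acl_add (subset_acl (Or.inl ?_)) (acl_mul (acl_R ⟨_, rfl⟩)
    (subset_acl (Or.inl ?_))))
  · exact Set.mem_insert_of_mem _ (Or.inr ⟨(e x).2, rfl⟩)
  · exact Set.mem_insert _ _

end Pool.Agent.K3h1.LM
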