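import Mathlib
import Pool.Agent.K3h1.LM.Tr

/-!
# Tuples
-/

set_option autoImplicit false

namespace Pool.Agent.K3h1.LM

open Filter Finset Pool.Agent.R351.GF Polynomial Pool.Agent.Y916 Pool.Agent.Y535.LG

/-- families of `K` nonconstant polynomials with a squarefree product, of degree at most `D` and height at most `h` -/
def Fam {K : ℕ} (D h : ℕ) (f : Fin K → ℤ[X]) : Prop :=
  (∀ s, 1 ≤ (f s).natDegree ∧ (f s).natDegree ≤ D) ∧ (∀ s l, |(f s).coeff l| ≤ h) ∧
    Squarefree ((∏ s, f s).map (Int.castRingHom ℚ))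

/-- the earlier pairs -/
def lex {k K : ℕ} (i : Fin k) (s : Fin K) : Set (Fin k × Fin K) := {p | p.1 < i ∨ (p.1 = i ∧ p.2 < s)}

variable (U : Ultrafilter ℕ) (H T : ℕ → ℕ)

/-- **Chains.** -/
theorem exists_chainP {K D : ℕ} (hT : Tendsto T U atTop) (hTH : ∀ᶠ j in (U : Filter ℕ), T j ≤ H j)
    (h : ℕ → ℕ) (hh : ∀ E : ℕ, ∀ᶠ j in (U : Filter ℕ), (h j + 2) ^ E ≤ T j) (k : ℕ) :
    ∀ f : Fin k → ℕ → Fin K → ℤ[X], (∀ i, ∀ᶠ j in (U : Filter ℕ), Fam D (h j) (f i j)) →
    ∀ B : ℕ → Finset (Fin k → ℕ), (∀ j, B j ⊆ Fintype.piFinset fun _ => Ioc 0 (T j)) →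
    (∀ c : ℝ, 0 < c → ∀ᶠ j in (U : Filter ℕ), (T j : ℝ) ^ ((k : ℝ) - c) < (B j).card) →
    ∀ S : Set (Fl U H), S.Finite →
    ∃ n : ℕ → Fin k → ℕ, (∀ᶠ j in (U : Filter ℕ), n j ∈ B j) ∧
      ∀ i s, lzc U H (fun j => (f i j s).eval (n j i : ℤ)) ∉
        acl (Zs U H) (S ∪ (fun p : Fin k × Fin K =>
          lzc U H (fun j => (f p.1 j p.2).eval (n j p.1 : ℤ))) '' lex i s) := by
  classical
  have hTr : Tendsto (fun j => (T j : ℝ)) U atTop := tendsto_natCast_atTop_atTop.comp hT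
  induction k with
  | zero =>
    intro f hf B hB hL S hS
    have h1 : ∀ᶠ j in (U : Filter ℕ), (fun i : Fin 0 => i.elim0 : Fin 0 → ℕ) ∈ B j := by
      filter_upwards [hL 1 one_pos, hTr.eventually_ge_atTop 1] with j hj hj2
      have h2 : (0 : ℝ) < (B j).card := lt_trans (Real.rpow_pos_of_pos (by linarith) _) hj
      have h3 : 0 < (B j).card := by exact_mod_cast h2
      obtain ⟨n, hn⟩ := Finset.card_pos.1 h3
      have : n = (fun i : Fin 0 => i.elim0 : Fin 0 → ℕ) := funext fun i => i.elim0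
      rwa [← this]
    exact ⟨fun _ => fun i => i.elim0, h1, fun i => i.elim0⟩
  | succ k ih =>
    intro f hf B hB hL S hS
    have hhalf : ∀ c : ℝ, 0 < c → ∀ᶠ j in (U : Filter ℕ), 2 ≤ (T j : ℝ) ^ c := fun c hc =>
      ((tendsto_rpow_atTop hc).comp hTr).eventually_ge_atTop 2
    -- the first coordinate
    obtain ⟨a, ha, hat⟩ := exists_good U H T hT hTH (f 0) h
      ((hf 0).mono fun j hj => hj.1) ((hf 0).mono fun j hj => hj.2.1) ((hf 0).mono fun j hj => hj.2.2) hh
      (fun j => big (T j) (B j))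
      (fun j => Finset.filter_subset _ _) (by
        intro c hc
        filter_upwards [hL (c / 2) (by positivity), hhalf (c / 2) (by positivity),
          hTr.eventually_ge_atTop 1] with j h1 h2 h3
        have ht0 : (0 : ℝ) < T j := by linarith
        have h4 : ((B j).card : ℝ) ≤ 2 * (big (T j) (B j)).card * (T j : ℝ) ^ k := by
          exact_mod_cast card_le_big (hB j)
        have h5 : (0 : ℝ) < (T j : ℝ) ^ k := by positivity
        have h6 : (T j : ℝ) ^ (((k + 1 : ℕ) : ℝ) - c / 2) =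
            (T j : ℝ) ^ (c / 2) * (T j : ℝ) ^ (1 - c) * (T j : ℝ) ^ k := by
          rw [← Real.rpow_natCast (T j : ℝ) k, ← Real.rpow_add ht0, ← Real.rpow_add ht0]
          congr 1
          push_cast
          ring
        rw [h6] at h1
        have h7 : (T j : ℝ) ^ (c / 2) * (T j : ℝ) ^ (1 - c) < 2 * (big (T j) (B j)).card :=
          lt_of_mul_lt_mul_right (lt_of_lt_of_le h1 h4) h5.le
        have h8 : 0 < (T j : ℝ) ^ (1 - c) := Real.rpow_pos_of_pos ht0 _
        nlinarith) S hS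
    -- the fibre
    set R : Set (Fl U H) := Set.range fun s : Fin K => lzc U H (fun j => (f 0 j s).eval (a j : ℤ)) with hR
    obtain ⟨m, hm, hmt⟩ := ih (fun i => f i.succ) (fun i => hf i.succ)
      (fun j => fib (T j) (B j) (a j)) (fun j => Finset.filter_subset _ _) (by
        intro c hc
        filter_upwards [hL (c / 2) (by positivity), hhalf (c / 2) (by positivity),
          hTr.eventually_ge_atTop 1, ha] with j h1 h2 h3 ha
        have ht0 : (0 : ℝ) < T j := by linarith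
        have h4 : ((B j).card : ℝ) ≤ 2 * T j * (fib (T j) (B j) (a j)).card := by
          exact_mod_cast (Finset.mem_filter.1 ha).2
        have h6 : (T j : ℝ) ^ (((k + 1 : ℕ) : ℝ) - c / 2) =
            (T j : ℝ) * ((T j : ℝ) ^ (c / 2) * (T j : ℝ) ^ ((k : ℝ) - c)) := by
          rw [← Real.rpow_add ht0]
          nth_rewrite 2 [← Real.rpow_one (T j : ℝ)]
          rw [← Real.rpow_add ht0]
          congr 1
          push_cast
          ring
        rw [h6] at h1
        have h7 : (T j : ℝ) ^ (c / 2) * (T j : ℝ) ^ ((k : ℝ) - c) < 2 * (fib (T j) (B j) (a j)).card := by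
          have h9 : (T j : ℝ) * ((T j : ℝ) ^ (c / 2) * (T j : ℝ) ^ ((k : ℝ) - c)) <
              (T j : ℝ) * (2 * (fib (T j) (B j) (a j)).card) := by
            refine lt_of_lt_of_le h1 (h4.trans (le_of_eq ?_))
            ring
          exact lt_of_mul_lt_mul_left h9 ht0.le
        have h8 : 0 < (T j : ℝ) ^ ((k : ℝ) - c) := Real.rpow_pos_of_pos ht0 _
        nlinarith) (S ∪ R) (hS.union (Set.finite_range _))
    refine ⟨fun j => Fin.cons (a j) (m j), ?_, ?_⟩
    · filter_upwards [hm] with j hj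
      exact (Finset.mem_filter.1 hj).2
    · intro i s
      refine Fin.cases ?_ (fun i => ?_) i
      · intro hcon
        apply hat s
        refine acl_mono ?_ hcon
        rintro x (hx | ⟨p, hp, rfl⟩)
        · exact Or.inl hx
        · rcases hp with hp | ⟨hp1, hp2⟩
          · exact absurd hp (Fin.not_lt_zero _)
          · refine Or.inr ⟨p.2, hp2, ?_⟩
            simp only [hp1]
            rfl
      · intro hcon
        apply hmt i s
        refine acl_mono ?_ hcon
        rintro x (hx | ⟨⟨i', s'⟩, hp, rfl⟩)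
        · exact Or.inl (Or.inl hx)
        · revert hp
          refine Fin.cases ?_ (fun i' => ?_) i'
          · intro _
            exact Or.inl (Or.inr ⟨s', rfl⟩)
          · intro hp
            refine Or.inr ⟨(i', s'), ?_, rfl⟩
            rcases hp with hp | ⟨hp1, hp2⟩
            · exact Or.inl (Fin.succ_lt_succ_iff.1 hp)
            · exact Or.inr ⟨Fin.succ_injective _ hp1, hp2⟩

/-! ### Bad values -/

/-- There are logarithms `l x` of the integers `v x` of absolute value at most `H`, and a nonzero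
polynomial with integer coefficients, of degree at most `δ` and height at most `H`, whose value at `l`
is smaller than `(H + 2) ^ (- C)`. -/
def BadV {M : ℕ} (δ C H : ℕ) (v : Fin M → ℤ) : Prop :=
  ∃ l : Fin M → ℂ, (∀ x, Complex.exp (l x) = v x) ∧ (∀ x, ‖l x‖ ≤ H) ∧
    ∃ P : MvPolynomial (Fin M) ℤ, P ≠ 0 ∧ P.totalDegree ≤ δ ∧ (∀ s, |P.coeff s| ≤ H) ∧
      ‖MvPolynomial.aeval l P‖ * ((H : ℝ) + 2) ^ C < 1

theorem exists_branchZ {v : ℤ} {l : ℂ} (hl : Complex.exp l = v) :
    v ≠ 0 ∧ ∃ b : ℤ, l = (Real.log |(v : ℝ)| : ℂ) + b * (Real.pi * Complex.I) := by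
  have hv : v ≠ 0 := by
    intro h
    rw [h, Int.cast_zero] at hl
    exact Complex.exp_ne_zero _ hl
  refine ⟨hv, ?_⟩
  have hv' : (0 : ℝ) < |(v : ℝ)| := abs_pos.2 (by exact_mod_cast hv)
  have h1 : Complex.exp (2 * l) = Complex.exp (2 * (Real.log |(v : ℝ)| : ℂ)) := by
    rw [two_mul, two_mul, Complex.exp_add, Complex.exp_add, hl, ← Complex.ofReal_exp,
      Real.exp_log hv', ← Complex.ofReal_mul, abs_mul_abs_self]
    push_cast
    rfl
  obtain ⟨b, hb⟩ := Complex.exp_eq_exp_iff_exists_int.1 h1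
  exact ⟨b, by linear_combination hb / 2⟩

/-- `π i` -/
noncomputable def ppi : Os U H := ⟨fun _ => Real.pi * Complex.I, 3, Eventually.of_forall fun j => by
  have h1 : ‖(Real.pi * Complex.I : ℂ)‖ = Real.pi := by
    rw [norm_mul, Complex.norm_I, mul_one, Complex.norm_real, Real.norm_eq_abs,
      abs_of_pos Real.pi_pos]
  rw [h1]
  have h2 : (2 : ℝ) ^ 3 ≤ gr H j ^ 3 := pow_le_pow_left₀ (by norm_num) (gr_two H j) _
  have h3 := Real.pi_lt_d2
  norm_num at h2
  linarith⟩

theorem log_le_gr (hH : Tendsto H U atTop) {v : ℕ → ℤ} {c : ℕ}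
    (hv : ∀ᶠ j in (U : Filter ℕ), |(v j : ℝ)| ≤ gr H j ^ c) :
    ∀ᶠ j in (U : Filter ℕ), |(Real.log |(v j : ℝ)|)| ≤ gr H j ^ 1 := by
  filter_upwards [lz_apply U H hH hv] with j hj
  have h1 : ‖(lz U H v : ℕ → ℂ) j‖ ≤ gr H j ^ 1 := by
    show ‖(if Real.log |(v j : ℝ)| ≤ gr H j then (Real.log |(v j : ℝ)| : ℂ) else 0)‖ ≤ _
    rw [pow_one]
    split_ifs with h
    · rw [Complex.norm_real, Real.norm_eq_abs, abs_of_nonneg]
      · exact h
      · rw [← Int.cast_abs]
        rcases eq_or_ne (v j) 0 with h0 | h0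
        · rw [h0]; simp
        · refine Real.log_nonneg ?_
          exact_mod_cast Int.one_le_abs h0
    · rw [norm_zero]
      exact (gr_pos H j).le
  rw [hj, Complex.norm_real, Real.norm_eq_abs] at h1
  exact h1

theorem no_bad_chainZ {M δ : ℕ} (v : ℕ → Fin M → ℤ) (C : ℕ → ℕ) (hC : Tendsto C U atTop)
    (hH : Tendsto H U atTop)
    (hv : ∀ x, ∃ c : ℕ, ∀ᶠ j in (U : Filter ℕ), |(v j x : ℝ)| ≤ gr H j ^ c)
    (hbad : ∀ᶠ j in (U : Filter ℕ), BadV δ (C j) (H j) (v j))
    (hch : ∀ x, lzc U H (fun j => v j x) ∉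
      acl (Zs U H) ({Ideal.Quotient.mk (ms U H) (ppi U H)} ∪
        (fun x' => lzc U H (fun j => v j x')) '' {x' | x' < x})) : False := by
  classical
  have hlz : ∀ x, ∀ᶠ j in (U : Filter ℕ), (lz U H (fun j => v j x) : ℕ → ℂ) j = (Real.log |(v j x : ℝ)| : ℂ) :=
    fun x => by
      obtain ⟨c, hc⟩ := hv x
      exact lz_apply U H hH hc
  have hlg : ∀ᶠ j in (U : Filter ℕ), ∀ x, |(Real.log |(v j x : ℝ)|)| ≤ gr H j := by
    rw [Filter.eventually_all]
    intro x
    obtain ⟨c, hc⟩ := hv x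
    filter_upwards [log_le_gr U H hH hc] with j hj
    rwa [pow_one] at hj
  -- the data
  have hdata : ∀ j, ∃ (l : Fin M → ℂ) (P : MvPolynomial (Fin M) ℤ) (b : Fin M → ℤ),
      (∀ s, |P.coeff s| ≤ H j) ∧ (∀ x, |(b x : ℝ)| ≤ gr H j) ∧
      ((∀ x, |(Real.log |(v j x : ℝ)|)| ≤ gr H j) → BadV δ (C j) (H j) (v j) →
        P ≠ 0 ∧ P.totalDegree ≤ δ ∧ ‖MvPolynomial.aeval l P‖ * gr H j ^ C j < 1 ∧
        ∀ x, l x = (Real.log |(v j x : ℝ)| : ℂ) + b x * (Real.pi * Complex.I)) := by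
    intro j
    by_cases h : (∀ x, |(Real.log |(v j x : ℝ)|)| ≤ gr H j) ∧ BadV δ (C j) (H j) (v j)
    · obtain ⟨hn, l, hl, hlH, P, hP0, hPd, hPH, hPv⟩ := h
      have hb : ∀ x, ∃ b : ℤ, l x = (Real.log |(v j x : ℝ)| : ℂ) + b * (Real.pi * Complex.I) :=
        fun x => (exists_branchZ (hl x)).2
      choose b hb using hb
      refine ⟨l, P, b, hPH, fun x => ?_, fun _ _ => ⟨hP0, hPd, hPv, hb⟩⟩
      have h4 : ‖(b x : ℂ) * (Real.pi * Complex.I)‖ ≤ 2 * gr H j := by
        have h5 : (b x : ℂ) * (Real.pi * Complex.I) = l x - (Real.log |(v j x : ℝ)| : ℂ) := by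
          rw [hb x]; ring
        rw [h5]
        refine (norm_sub_le _ _).trans ?_
        have h6 : ‖(Real.log |(v j x : ℝ)| : ℂ)‖ ≤ gr H j := by
          rw [Complex.norm_real, Real.norm_eq_abs]
          exact hn x
        have h7 := hlH x
        have h8 : (H j : ℝ) + 2 = gr H j := rfl
        linarith
      rw [norm_mul, Complex.norm_intCast] at h4
      have h1 : ‖(Real.pi * Complex.I : ℂ)‖ = Real.pi := by
        rw [norm_mul, Complex.norm_I, mul_one, Complex.norm_real, Real.norm_eq_abs,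
          abs_of_pos Real.pi_pos]
      rw [h1] at h4
      have h2 := Real.pi_gt_three
      have h10 : (0 : ℝ) ≤ |(b x : ℝ)| := abs_nonneg _
      have h11 := gr_pos H j
      nlinarith
    · refine ⟨0, 0, 0, fun s => ?_, fun i => ?_, fun h1 h2 => absurd ⟨h1, h2⟩ h⟩
      · rw [MvPolynomial.coeff_zero, abs_zero]; exact Int.natCast_nonneg _
      · simp only [Pi.zero_apply, Int.cast_zero, abs_zero]
        exact (gr_pos H j).le
  choose l P b hPH hbH hprop using hdata
  have hp : ∀ᶠ j in (U : Filter ℕ), P j ≠ 0 ∧ (P j).totalDegree ≤ δ ∧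
      ‖MvPolynomial.aeval (l j) (P j)‖ * gr H j ^ C j < 1 ∧
        ∀ x, l j x = (Real.log |(v j x : ℝ)| : ℂ) + b j x * (Real.pi * Complex.I) := by
    filter_upwards [hlg, hbad] with j h1 h2
    exact hprop j h1 h2
  -- the classes
  have hbIZ : ∀ x, (fun j => b j x) ∈ IZ U H := fun x => (mem_IZ U H).2 ⟨1, Eventually.of_forall
    fun j => by rw [pow_one]; exact hbH j x⟩
  have hPIZ : ∀ e : Mn M δ, (fun j => (P j).coeff (toF e)) ∈ IZ U H := fun e => (mem_IZ U H).2
    ⟨1, Eventually.of_forall fun j => by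
      rw [pow_one]
      have h1 : |(((P j).coeff (toF e) : ℤ) : ℝ)| ≤ H j := by exact_mod_cast hPH j (toF e)
      unfold gr
      linarith⟩
  set Q : MvPolynomial (Fin M) (IZ U H) :=
    ∑ e : Mn M δ, MvPolynomial.monomial (toF e) (⟨_, hPIZ e⟩ : IZ U H) with hQ
  have hQj : ∀ᶠ j in (U : Filter ℕ), MvPolynomial.map (evj U H j) Q = P j := by
    filter_upwards [hp] with j hj
    rw [hQ, map_sum]
    simp only [MvPolynomial.map_monomial, evj_apply]
    ext s
    rw [MvPolynomial.coeff_sum]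
    simp only [MvPolynomial.coeff_monomial]
    by_cases hs : ∃ e : Mn M δ, toF e = s
    · obtain ⟨e, rfl⟩ := hs
      rw [Finset.sum_eq_single e]
      · rw [if_pos rfl]
      · intro e' _ he'
        rw [if_neg]
        exact fun h => he' (toF_inj h)
      · intro h; exact absurd (Finset.mem_univ _) h
    · rw [Finset.sum_eq_zero]
      · by_contra h
        exact hs (toF_surjZ (P j) hj.2.1 s (MvPolynomial.mem_support_iff.2 (Ne.symm h)))
      · intro e _
        rw [if_neg]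
        exact fun h => hs ⟨e, h⟩
  set z : Fin M → Os U H := fun x => lz U H (fun j => v j x) +
    izo U H ⟨_, hbIZ x⟩ * ppi U H with hz
  set ϖ : Fl U H := Ideal.Quotient.mk (ms U H) (ppi U H) with hϖ
  have hz1 : ∀ x, (Ideal.Quotient.mk (ms U H) (z x) : Fl U H) =
      lzc U H (fun j => v j x) + psi U H ⟨_, hbIZ x⟩ * ϖ := by
    intro x
    rw [hz, map_add, map_mul]
    rfl
  have hzj : ∀ᶠ j in (U : Filter ℕ), (fun x => (z x : ℕ → ℂ) j) = l j := by
    filter_upwards [hp, Filter.eventually_all.2 hlz] with j hj hnj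
    funext x
    rw [hj.2.2.2 x]
    show (lz U H (fun j => v j x) : ℕ → ℂ) j + ((b j x : ℤ) : ℂ) * (Real.pi * Complex.I) = _
    rw [hnj x]
  -- independence
  have hbz : ∀ (x : Fin M) (S : Set (Fl U H)), ϖ ∈ S → psi U H ⟨_, hbIZ x⟩ * ϖ ∈ acl (Zs U H) S :=
    fun x S hS => acl_mul (acl_R ⟨_, rfl⟩) (subset_acl hS)
  have hind : AlgebraicIndependent (Zs U H)
      (fun x => (Ideal.Quotient.mk (ms U H) (z x) : Fl U H)) := by
    apply indep_of_chain
    intro x hcon
    apply hch x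
    set S := ({ϖ} ∪ (fun x' => lzc U H (fun j => v j x')) '' {x' | x' < x} : Set (Fl U H)) with hS
    have hϖS : ϖ ∈ S := Or.inl rfl
    have h1 : (Ideal.Quotient.mk (ms U H) (z x) : Fl U H) ∈ acl (Zs U H) S := by
      refine acl_of ?_ hcon
      rintro _ ⟨x', hx', rfl⟩
      simp only [hz1]
      exact acl_add (subset_acl (Or.inr ⟨x', hx', rfl⟩)) (hbz x' S hϖS)
    rw [hz1] at h1
    have h2 := acl_sub h1 (hbz x S hϖS)
    rwa [add_sub_cancel_right] at h2
  rw [algebraicIndependent_iff] at hind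
  have h0 := hind (MvPolynomial.map (psr U H) Q) (by
    rw [← mk_vs, Ideal.Quotient.eq_zero_iff_mem, mem_ms]
    intro D
    filter_upwards [hp, hQj, hzj, hC.eventually_ge_atTop D] with j h1 h2 h3 h4
    rw [vs_apply, h2, h3]
    refine le_trans ?_ h1.2.2.1.le
    exact mul_le_mul_of_nonneg_left (pow_le_pow_right₀ (gr_one H j) h4) (norm_nonneg _))
  -- the polynomial is not zero
  have h1 : ∀ᶠ j in (U : Filter ℕ), ∀ e : Mn M δ, (P j).coeff (toF e) = 0 := by
    rw [Filter.eventually_all]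
    intro e
    have h2 : psi U H (Q.coeff (toF e)) = 0 := by
      have h3 := congrArg (MvPolynomial.coeff (toF e)) h0
      rw [MvPolynomial.coeff_map, MvPolynomial.coeff_zero] at h3
      exact congrArg Subtype.val h3
    rw [psi_eq_zero] at h2
    filter_upwards [h2, hQj] with j h3 h4
    rw [← h4, MvPolynomial.coeff_map, evj_apply]
    exact h3
  obtain ⟨j, hj1, hj2⟩ := (h1.and hp).exists
  apply hj2.1
  ext s
  rw [MvPolynomial.coeff_zero]
  by_contra h
  obtain ⟨e, he⟩ := toF_surjZ (P j) hj2.2.1 s (MvPolynomial.mem_support_iff.2 h)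
  rw [← he] at h
  exact h (hj1 e)

end Pool.Agent.K3h1.LM
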