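import Mathlib
import Pool.Agent.K3h1.LM.Tp

/-!
# Algebraic independence over a set of constants
-/

set_option autoImplicit false

namespace Pool.Agent.K3h1.LM

open Filter Finset Pool.Agent.R351.GF Pool.Agent.Y916 Pool.Agent.Y535.LG

section Alg

variable {F : Type} [Field F] {R : Subring F}

theorem mem_acl_union {S T : Set F} {y : F}
    (h : IsAlgebraic (Algebra.adjoin (Algebra.adjoin R S) T) y) : y ∈ acl R (S ∪ T) := by
  rw [mem_acl, Algebra.adjoin_union_eq_adjoin_adjoin]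
  exact h

theorem indepA_of_chain {S : Set F} {k : ℕ} : ∀ {z : Fin k → F},
    (∀ i, z i ∉ acl R (S ∪ z '' {i' | i' < i})) → AlgebraicIndependent (Algebra.adjoin R S) z := by
  induction k with
  | zero =>
    intro z _
    exact algebraicIndependent_empty_type_iff.2 (FaithfulSMul.algebraMap_injective _ F)
  | succ k ih =>
    intro z hz
    have h1 : AlgebraicIndependent (Algebra.adjoin R S) (fun i : Fin k => z i.castSucc) := by
      apply ih
      intro i hi
      refine hz i.castSucc (acl_mono ?_ hi)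
      rintro _ (hx | ⟨i', hi', rfl⟩)
      · exact Or.inl hx
      · exact Or.inr ⟨i'.castSucc, Fin.castSucc_lt_castSucc_iff.2 hi', rfl⟩
    have h2 : Transcendental (Algebra.adjoin (Algebra.adjoin R S) (Set.range fun i : Fin k => z i.castSucc))
        (z (Fin.last k)) := by
      intro h3
      apply hz (Fin.last k)
      have h4 : z '' {i' | i' < Fin.last k} = Set.range fun i : Fin k => z i.castSucc := by
        ext y
        constructor
        · rintro ⟨i', hi', rfl⟩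
          have h5 : i' ≠ Fin.last k := ne_of_lt hi'
          exact ⟨i'.castPred h5, by simp⟩
        · rintro ⟨i, rfl⟩
          exact ⟨i.castSucc, Fin.castSucc_lt_last i, rfl⟩
      rw [h4]
      exact mem_acl_union h3
    have h3 := (h1.option_iff_transcendental (z (Fin.last k))).2 h2
    have h4 := (algebraicIndependent_equiv (R := Algebra.adjoin R S) finSuccEquivLast
      (f := fun o : Option (Fin k) => o.elim (z (Fin.last k)) (fun i : Fin k => z i.castSucc))).2 h3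
    have h5 : ((fun o : Option (Fin k) => o.elim (z (Fin.last k)) (fun i : Fin k => z i.castSucc)) ∘
        (finSuccEquivLast : Fin (k + 1) ≃ Option (Fin k))) = z := by
      funext i
      refine Fin.lastCases ?_ (fun i => ?_) i
      · simp
      · simp
    rw [h5] at h4
    exact h4

end Alg

/-- a polynomial as a sum over the exponents of bounded degree -/
theorem as_sum_Mn {R : Type*} [CommSemiring R] {n Δ : ℕ} (P : MvPolynomial (Fin n) R)
    (hP : P.totalDegree ≤ Δ) : P = ∑ e : Mn n Δ, MvPolynomial.monomial (toF e) (P.coeff (toF e)) := by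
  classical
  ext s
  rw [MvPolynomial.coeff_sum]
  simp only [MvPolynomial.coeff_monomial]
  by_cases hs : ∃ e : Mn n Δ, toF e = s
  · obtain ⟨e, rfl⟩ := hs
    rw [Finset.sum_eq_single e]
    · rw [if_pos rfl]
    · intro e' _ he'
      rw [if_neg]
      exact fun h => he' (toF_inj h)
    · intro h; exact absurd (Finset.mem_univ _) h
  · rw [Finset.sum_eq_zero]
    · by_contra h
      have h1 : s ∈ P.support := MvPolynomial.mem_support_iff.2 h
      have h2 : (s.sum fun _ k => k) ≤ Δ := (MvPolynomial.le_totalDegree h1).trans hP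
      have h3 : ∑ i, s i ≤ Δ := by
        rwa [Finsupp.sum_fintype _ _ (fun _ => rfl)] at h2
      have hi : ∀ i, s i < Δ + 1 := fun i => by
        have := Finset.single_le_sum (f := fun i => s i) (fun _ _ => Nat.zero_le _) (Finset.mem_univ i)
        omega
      exact hs ⟨⟨fun i => ⟨s i, hi i⟩, h3⟩, by ext i; rfl⟩
    · intro e _
      rw [if_neg]
      exact fun h => hs ⟨e, h⟩

/-- There are integers `b x` with `|b x| ≤ H` and a polynomial `P` whose coefficients are integer polynomials in the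
constants `w`, of degree at most `δ` and height at most `H`, not all of them smaller than `(H + 2) ^ (- E₀)`, such that
`|P (log |v x| + b x τ)| < (H + 2) ^ (- C)`. -/
def BadW {M q : ℕ} (δ E₀ C H : ℕ) (w : Fin q → ℂ) (τ : ℂ) (v : Fin M → ℤ) : Prop :=
  ∃ b : Fin M → ℤ, (∀ x, |b x| ≤ H) ∧ ∃ P : MvPolynomial (Fin M) (MvPolynomial (Fin q) ℤ),
    P.totalDegree ≤ δ ∧ (∀ s, (P.coeff s).totalDegree ≤ δ) ∧ (∀ s s', |(P.coeff s).coeff s'| ≤ H) ∧
    (∃ s, 1 ≤ ‖MvPolynomial.aeval w (P.coeff s)‖ * ((H : ℝ) + 2) ^ E₀) ∧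
    ‖MvPolynomial.eval₂ (MvPolynomial.aeval w : MvPolynomial (Fin q) ℤ →ₐ[ℤ] ℂ).toRingHom
      (fun x => (Real.log |(v x : ℝ)| : ℂ) + b x * τ) P‖ * ((H : ℝ) + 2) ^ C < 1

section Seq

variable (U : Ultrafilter ℕ) (H : ℕ → ℕ)

/-- bounded sequences of numbers -/
noncomputable def cst {q : ℕ} (w : ℕ → Fin q → ℂ) (hw : ∀ j i, ‖w j i‖ ≤ H j) (i : Fin q) : Os U H :=
  ⟨fun j => w j i, 1, Eventually.of_forall fun j => by
    rw [pow_one]
    have h1 := hw j i
    have h2 : gr H j = (H j : ℝ) + 2 := rfl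
    linarith⟩

theorem no_badW {M q δ E₀ : ℕ} (w : ℕ → Fin q → ℂ) (hw : ∀ j i, ‖w j i‖ ≤ H j) (τ : ℕ → ℂ)
    (hτ : (∀ᶠ j in (U : Filter ℕ), τ j = 0) ∨ ∃ i, ∀ᶠ j in (U : Filter ℕ), τ j = w j i)
    (v : ℕ → Fin M → ℤ) (C : ℕ → ℕ) (hC : Tendsto C U atTop)
    (hH : Tendsto H U atTop)
    (hv : ∀ x, ∃ c : ℕ, ∀ᶠ j in (U : Filter ℕ), |(v j x : ℝ)| ≤ gr H j ^ c)
    (hbad : ∀ᶠ j in (U : Filter ℕ), BadW δ E₀ (C j) (H j) (w j) (τ j) (v j))
    (hch : ∀ x, lzc U H (fun j => v j x) ∉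
      acl (Zs U H) ((Set.range fun i => (Ideal.Quotient.mk (ms U H) (cst U H w hw i) : Fl U H)) ∪
        (fun x' => lzc U H (fun j => v j x')) '' {x' | x' < x})) : False := by
  classical
  have hlz : ∀ x, ∀ᶠ j in (U : Filter ℕ), (lz U H (fun j => v j x) : ℕ → ℂ) j = (Real.log |(v j x : ℝ)| : ℂ) :=
    fun x => by
      obtain ⟨c, hc⟩ := hv x
      exact lz_apply U H hH hc
  have hlg : ∀ᶠ j in (U : Filter ℕ), ∀ x, |(Real.log |(v j x : ℝ)|)| ≤ gr H j := by
    rw [Filter.eventually_all]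
    intro x
    obtain ⟨c, hc⟩ := hv x
    filter_upwards [log_le_gr U H hH hc] with j hj
    rwa [pow_one] at hj
  -- the data
  have hdata : ∀ j, ∃ (P : MvPolynomial (Fin M) (MvPolynomial (Fin q) ℤ)) (b : Fin M → ℤ),
      (∀ s s', |(P.coeff s).coeff s'| ≤ H j) ∧ (∀ x, |b x| ≤ H j) ∧
      (BadW δ E₀ (C j) (H j) (w j) (τ j) (v j) →
        P.totalDegree ≤ δ ∧ (∀ s, (P.coeff s).totalDegree ≤ δ) ∧
        (∃ s, 1 ≤ ‖MvPolynomial.aeval (w j) (P.coeff s)‖ * gr H j ^ E₀) ∧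
        ‖MvPolynomial.eval₂ (MvPolynomial.aeval (w j) : MvPolynomial (Fin q) ℤ →ₐ[ℤ] ℂ).toRingHom
          (fun x => (Real.log |(v j x : ℝ)| : ℂ) + b x * τ j) P‖ * gr H j ^ C j < 1) := by
    intro j
    by_cases h : BadW δ E₀ (C j) (H j) (w j) (τ j) (v j)
    · obtain ⟨b, hb, P, h1, h2, h3, h4, h5⟩ := h
      exact ⟨P, b, h3, hb, fun _ => ⟨h1, h2, h4, h5⟩⟩
    · refine ⟨0, 0, fun s s' => ?_, fun i => ?_, fun h1 => absurd h1 h⟩
      · rw [MvPolynomial.coeff_zero, MvPolynomial.coeff_zero, abs_zero]; exact Int.natCast_nonneg _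
      · rw [Pi.zero_apply, abs_zero]; exact Int.natCast_nonneg _
  choose P b hPH hbH hprop using hdata
  have hp : ∀ᶠ j in (U : Filter ℕ), (P j).totalDegree ≤ δ ∧ (∀ s, ((P j).coeff s).totalDegree ≤ δ) ∧
        (∃ s, 1 ≤ ‖MvPolynomial.aeval (w j) ((P j).coeff s)‖ * gr H j ^ E₀) ∧
        ‖MvPolynomial.eval₂ (MvPolynomial.aeval (w j) : MvPolynomial (Fin q) ℤ →ₐ[ℤ] ℂ).toRingHom
          (fun x => (Real.log |(v j x : ℝ)| : ℂ) + b j x * τ j) (P j)‖ * gr H j ^ C j < 1 := by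
    filter_upwards [hbad] with j h2
    exact hprop j h2
  -- the classes
  have hgr : ∀ j (n : ℤ), |n| ≤ (H j : ℤ) → |(n : ℝ)| ≤ gr H j ^ 1 := by
    intro j n hn
    rw [pow_one]
    have h1 : |(n : ℝ)| ≤ H j := by exact_mod_cast hn
    unfold gr
    linarith
  have hbIZ : ∀ x, (fun j => b j x) ∈ IZ U H := fun x => (mem_IZ U H).2 ⟨1, Eventually.of_forall
    fun j => hgr j _ (hbH j x)⟩
  have hPIZ : ∀ (e : Mn M δ) (e' : Mn q δ), (fun j => ((P j).coeff (toF e)).coeff (toF e')) ∈ IZ U H :=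
    fun e e' => (mem_IZ U H).2 ⟨1, Eventually.of_forall fun j => hgr j _ (hPH j _ _)⟩
  set ω : Fin q → Os U H := cst U H w hw with hω
  set Q : Mn M δ → MvPolynomial (Fin q) (IZ U H) := fun e =>
    ∑ e' : Mn q δ, MvPolynomial.monomial (toF e') (⟨_, hPIZ e e'⟩ : IZ U H) with hQ
  set c : Mn M δ → Os U H := fun e => vs U H ω (Q e) with hc
  have hcj : ∀ᶠ j in (U : Filter ℕ), ∀ e, (c e : ℕ → ℂ) j = MvPolynomial.aeval (w j) ((P j).coeff (toF e)) := by
    filter_upwards [hp] with j hj e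
    rw [hc]
    simp only
    rw [vs_apply]
    have h1 : MvPolynomial.map (evj U H j) (Q e) = (P j).coeff (toF e) := by
      rw [hQ]
      simp only
      rw [map_sum]
      simp only [MvPolynomial.map_monomial, evj_apply]
      exact (as_sum_Mn _ (hj.2.1 _)).symm
    rw [h1]
    rfl
  -- the constant `τ`
  obtain ⟨τo, hτo, hτacl⟩ : ∃ τo : Os U H, (∀ᶠ j in (U : Filter ℕ), (τo : ℕ → ℂ) j = τ j) ∧
      (Ideal.Quotient.mk (ms U H) τo : Fl U H) ∈ acl (Zs U H)
        (Set.range fun i => (Ideal.Quotient.mk (ms U H) (ω i) : Fl U H)) := by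
    rcases hτ with hτ | ⟨i, hτ⟩
    · refine ⟨0, hτ.mono fun j hj => hj.symm, ?_⟩
      rw [map_zero]
      exact acl_R (Subring.zero_mem _)
    · exact ⟨ω i, hτ.mono fun j hj => hj.symm, subset_acl ⟨i, rfl⟩⟩
  set S : Set (Fl U H) := Set.range fun i => (Ideal.Quotient.mk (ms U H) (ω i) : Fl U H) with hS
  set z : Fin M → Os U H := fun x => lz U H (fun j => v j x) + izo U H ⟨_, hbIZ x⟩ * τo with hz
  have hz1 : ∀ x, (Ideal.Quotient.mk (ms U H) (z x) : Fl U H) =
      lzc U H (fun j => v j x) + psi U H ⟨_, hbIZ x⟩ * Ideal.Quotient.mk (ms U H) τo := by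
    intro x
    rw [hz, map_add, map_mul]
    rfl
  have hzj : ∀ᶠ j in (U : Filter ℕ), ∀ x, (z x : ℕ → ℂ) j = (Real.log |(v j x : ℝ)| : ℂ) + b j x * τ j := by
    filter_upwards [Filter.eventually_all.2 hlz, hτo] with j hnj hτj x
    show (lz U H (fun j => v j x) : ℕ → ℂ) j + ((b j x : ℤ) : ℂ) * (τo : ℕ → ℂ) j = _
    rw [hnj x, hτj]
  -- independence
  have hbz : ∀ (x : Fin M) (S' : Set (Fl U H)), S ⊆ S' →
      psi U H ⟨_, hbIZ x⟩ * Ideal.Quotient.mk (ms U H) τo ∈ acl (Zs U H) S' :=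
    fun x S' hS' => acl_mul (acl_R ⟨_, rfl⟩) (acl_mono hS' hτacl)
  have hind : AlgebraicIndependent (Algebra.adjoin (Zs U H) S)
      (fun x => (Ideal.Quotient.mk (ms U H) (z x) : Fl U H)) := by
    apply indepA_of_chain
    intro x hcon
    apply hch x
    set S' := (S ∪ (fun x' => lzc U H (fun j => v j x')) '' {x' | x' < x} : Set (Fl U H)) with hS'
    have h1 : (Ideal.Quotient.mk (ms U H) (z x) : Fl U H) ∈ acl (Zs U H) S' := by
      refine acl_of ?_ hcon
      rintro _ (hy | ⟨i', hi', rfl⟩)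
      · exact subset_acl (Or.inl hy)
      · simp only [hz1]
        exact acl_add (subset_acl (Or.inr ⟨i', hi', rfl⟩)) (hbz i' S' (fun y hy => Or.inl hy))
    rw [hz1] at h1
    have h2 := acl_sub h1 (hbz x S' (fun y hy => Or.inl hy))
    rwa [add_sub_cancel_right] at h2
  -- the relation
  have hcA : ∀ e, (Ideal.Quotient.mk (ms U H) (c e) : Fl U H) ∈ Algebra.adjoin (Zs U H) S := by
    intro e
    rw [hc]
    simp only
    rw [mk_vs, hS, Algebra.adjoin_range_eq_range_aeval]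
    exact ⟨_, rfl⟩
  have hrel : ∑ e : Mn M δ, c e * ∏ x, z x ^ (e.1 x : ℕ) ∈ ms U H := by
    rw [mem_ms]
    intro D
    filter_upwards [hp, hcj, hzj, hC.eventually_ge_atTop D] with j h1 h2 h3 h4
    have h5 : ((∑ e : Mn M δ, c e * ∏ x, z x ^ (e.1 x : ℕ) : Os U H) : ℕ → ℂ) j =
        MvPolynomial.eval₂ (MvPolynomial.aeval (w j) : MvPolynomial (Fin q) ℤ →ₐ[ℤ] ℂ).toRingHom
          (fun x => (Real.log |(v j x : ℝ)| : ℂ) + b j x * τ j) (P j) := by
      have h6 : ((∑ e : Mn M δ, c e * ∏ x, z x ^ (e.1 x : ℕ) : Os U H) : ℕ → ℂ) j =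
          ∑ e : Mn M δ, (c e : ℕ → ℂ) j * ∏ x, (z x : ℕ → ℂ) j ^ (e.1 x : ℕ) := by
        have h7 : ((∑ e : Mn M δ, c e * ∏ x, z x ^ (e.1 x : ℕ) : Os U H) : ℕ → ℂ) =
            ∑ e : Mn M δ, (c e : ℕ → ℂ) * ∏ x, (z x : ℕ → ℂ) ^ (e.1 x : ℕ) := by
          push_cast
          rfl
        rw [h7, Finset.sum_apply]
        refine Finset.sum_congr rfl fun e _ => ?_
        rw [Pi.mul_apply, Finset.prod_apply]
        rfl
      rw [h6]
      conv_rhs => rw [as_sum_Mn (P j) h1.1]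
      rw [MvPolynomial.eval₂_sum]
      refine Finset.sum_congr rfl fun e _ => ?_
      rw [MvPolynomial.eval₂_monomial, h2 e, Finsupp.prod_fintype _ _ (fun _ => pow_zero _)]
      congr 1
      refine Finset.prod_congr rfl fun x _ => ?_
      rw [h3 x]
      rfl
    rw [h5]
    refine le_trans ?_ h1.2.2.2.le
    exact mul_le_mul_of_nonneg_left (pow_le_pow_right₀ (gr_one H j) h4) (norm_nonneg _)
  have hc0 : ∀ e, c e ∈ ms U H := by
    rw [algebraicIndependent_iff] at hind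
    have h0 := hind (∑ e : Mn M δ, MvPolynomial.monomial (toF e)
      (⟨Ideal.Quotient.mk (ms U H) (c e), hcA e⟩ : Algebra.adjoin (Zs U H) S)) (by
        rw [← Ideal.Quotient.eq_zero_iff_mem, map_sum] at hrel
        rw [map_sum, ← hrel]
        refine Finset.sum_congr rfl fun e _ => ?_
        rw [MvPolynomial.aeval_monomial, Finsupp.prod_fintype _ _ (fun _ => pow_zero _), map_mul,
          map_prod]
        congr 1)
    intro e
    have h1 := congrArg (MvPolynomial.coeff (toF e)) h0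
    rw [MvPolynomial.coeff_sum, MvPolynomial.coeff_zero] at h1
    simp only [MvPolynomial.coeff_monomial] at h1
    rw [Finset.sum_eq_single e (fun e' _ he' => if_neg fun h => he' (toF_inj h))
      (fun h => absurd (mem_univ _) h), if_pos rfl] at h1
    rw [← Ideal.Quotient.eq_zero_iff_mem]
    exact congrArg Subtype.val h1
  have hfin : ∀ᶠ j in (U : Filter ℕ), ∀ e, ‖(c e : ℕ → ℂ) j‖ * gr H j ^ (E₀ + 1) ≤ 1 :=
    Filter.eventually_all.2 fun e => hc0 e (E₀ + 1)
  obtain ⟨j, h1, h2, h3⟩ := (hfin.and (hcj.and hp)).exists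
  obtain ⟨s, hs⟩ := h3.2.2.1
  have hg := gr_two H j
  have hs0 : (P j).coeff s ≠ 0 := by
    intro h
    rw [h, map_zero, norm_zero, zero_mul] at hs
    linarith
  obtain ⟨e, he⟩ : ∃ e : Mn M δ, toF e = s := by
    by_contra hno
    push Not at hno
    apply hs0
    conv_lhs => rw [as_sum_Mn (P j) h3.1]
    rw [MvPolynomial.coeff_sum]
    refine Finset.sum_eq_zero fun e _ => ?_
    rw [MvPolynomial.coeff_monomial, if_neg (hno e)]
  have h4 := h1 e
  rw [h2 e, he, pow_succ, ← mul_assoc] at h4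
  nlinarith

end Seq

end Pool.Agent.K3h1.LM
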