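import Mathlib
import Pool.Agent.K3h1.LM.OA
import Pool.Agent.R351.GF.Fin

/-!
# Few exceptional polynomials
-/

set_option autoImplicit false

namespace Pool.Agent.K3h1.LM

open Filter Finset Pool.Agent.R351.GF Polynomial Pool.Agent.Y916 Pool.Agent.Y535.LG

/-- a monic irreducible polynomial of degree at most `D` and height at most `h` -/
def Good (D h : ℕ) (g : ℤ[X]) : Prop :=
  g.Monic ∧ Irreducible g ∧ g.natDegree ≤ D ∧ ∀ l, |g.coeff l| ≤ h

theorem Good.one_le {D h : ℕ} {g : ℤ[X]} (hg : Good D h g) : 1 ≤ g.natDegree := by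
  by_contra h0
  have h1 : g.natDegree = 0 := by omega
  exact hg.2.1.1 (by rw [hg.1.natDegree_eq_zero.1 h1]; exact isUnit_one)

theorem squarefree_of_good {u D h : ℕ} {g : Fin u → ℤ[X]} (hg : ∀ t, Good D h (g t))
    (hinj : Function.Injective g) : Squarefree ((∏ t, g t).map (Int.castRingHom ℚ)) := by
  have hirr : ∀ t, Irreducible ((g t).map (Int.castRingHom ℚ)) := fun t =>
    (Monic.irreducible_iff_irreducible_map_fraction_map (K := ℚ) (hg t).1).1 (hg t).2.1
  rw [Polynomial.map_prod]
  apply Finset.squarefree_prod_of_pairwise_isCoprime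
  · intro t _ t' _ htt
    refine (hirr t).isRelPrime_iff_not_dvd.2 fun hd => ?_
    have h1 := (hirr t).associated_of_dvd (hirr t') hd
    have h2 := eq_of_monic_of_associated ((hg t).1.map _) ((hg t').1.map _) h1
    exact htt (hinj (Polynomial.map_injective _ Int.cast_injective h2))
  · intro t _
    exact (hirr t).squarefree

section Seq

variable (U : Ultrafilter ℕ) (H : ℕ → ℕ)

theorem lz_apply_def (v : ℕ → ℤ) (j : ℕ) : (lz U H v : ℕ → ℂ) j =
    if Real.log |(v j : ℝ)| ≤ gr H j then (Real.log |(v j : ℝ)| : ℂ) else 0 := rfl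

theorem lzc_congr {v v' : ℕ → ℤ} (h : ∀ᶠ j in (U : Filter ℕ), v j = v' j) : lzc U H v = lzc U H v' := by
  unfold lzc
  rw [Ideal.Quotient.eq, mem_ms]
  intro D
  filter_upwards [h] with j hj
  have h1 : ((lz U H v - lz U H v' : Os U H) : ℕ → ℂ) j = (lz U H v : ℕ → ℂ) j - (lz U H v' : ℕ → ℂ) j := rfl
  rw [h1, lz_apply_def, lz_apply_def, hj, sub_self, norm_zero, zero_mul]
  exact zero_le_one

theorem lzc_one : lzc U H (fun _ => 1) = 0 := by
  unfold lzc
  rw [Ideal.Quotient.eq_zero_iff_mem, mem_ms]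
  intro D
  refine Eventually.of_forall fun j => ?_
  rw [lz_apply_def]
  simp

end Seq

/-- **At most `q + 1` exceptional polynomials**, where `q` is the number of the constants. -/
theorem exc_win (r q D δ E₀ : ℕ) : ∃ E : ℕ, ∀ h N H : ℕ, (h + 2) ^ E ≤ N → N ≤ H → ∀ w : Fin q → ℂ,
    (∀ i, ‖w i‖ ≤ H) → ∀ τ : ℂ, (τ = 0 ∨ ∃ i, τ = w i) → ∃ G : Finset ℤ[X], G.card ≤ q + 1 ∧
    ∀ f : Fin r → ℤ[X], Function.Injective f → (∀ s, Good D h (f s) ∧ f s ∉ G) →
      ¬ BadW δ E₀ E H w τ (fun s => (f s).eval (N : ℤ)) := by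
  classical
  by_contra hcon
  push Not at hcon
  choose h N H hhN hNH w hw τ hτ hG using hcon
  set U : Ultrafilter ℕ := hyperfilter ℕ with hU
  have hUt : Tendsto id (U : Filter ℕ) atTop := by
    rw [hU, ← Nat.cofinite_eq_atTop]
    exact hyperfilter_le_cofinite
  have hgrow : ∀ E : ℕ, ∀ᶠ j in (U : Filter ℕ), (h j + 2) ^ E ≤ N j := fun E => by
    filter_upwards [hUt.eventually_ge_atTop E] with j hj
    exact (Nat.pow_le_pow_right (by omega) hj).trans (hhN j)
  have hjN : ∀ j, j < N j := fun j => by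
    refine lt_of_lt_of_le (Nat.lt_two_pow_self (n := j)) ?_
    exact (Nat.pow_le_pow_left (by omega) j).trans (hhN j)
  have hHt : Tendsto H U atTop := by
    refine tendsto_atTop_mono (fun j => ?_) hUt
    exact (hjN j).le.trans (hNH j)
  set S : Set (Fl U H) := Set.range fun i => (Ideal.Quotient.mk (ms U H) (cst U H w hw i) : Fl U H) with hS
  -- the classes of the values
  set Y : (ℕ → ℤ[X]) → Fl U H := fun g => lzc U H (fun j => (g j).eval (N j : ℤ)) with hY
  have hYc : ∀ g g' : ℕ → ℤ[X], (∀ᶠ j in (U : Filter ℕ), g j = g' j) → Y g = Y g' := by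
    intro g g' hg
    apply lzc_congr
    filter_upwards [hg] with j hj
    rw [hj]
  -- the size of the values
  have hval : ∀ g : ℕ → ℤ[X], (∀ j, Good D (h j) (g j)) →
      ∃ c : ℕ, ∀ᶠ j in (U : Filter ℕ), |(((g j).eval (N j : ℤ) : ℤ) : ℝ)| ≤ gr H j ^ c := by
    intro g hg
    refine ⟨D + 1 + (1 + D), ?_⟩
    filter_upwards [hgrow 1] with j h1
    have hg1 := gr_one H j
    have hg2 := gr_two H j
    have h2 : (h j : ℝ) ≤ gr H j := by
      have h3 : h j ≤ H j := by
        have := hNH j
        rw [pow_one] at h1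
        omega
      have h4 : (h j : ℝ) ≤ H j := by exact_mod_cast h3
      unfold gr
      linarith
    have h5 := eval_le (f := g j) (D := D) (h := gr H j) (y := gr H j) (x := (N j : ℤ)) (hg j).2.2.1
      (gr_pos H j).le (fun l => by
        have h6 : |(((g j).coeff l : ℤ) : ℝ)| ≤ h j := by exact_mod_cast (hg j).2.2.2 l
        exact h6.trans h2) hg1 (by
        rw [Int.cast_natCast, abs_of_nonneg (Nat.cast_nonneg _)]
        have h6 : (N j : ℝ) ≤ H j := by exact_mod_cast hNH j
        unfold gr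
        linarith)
    refine h5.trans ?_
    have h6 : ((D : ℝ) + 1) ≤ gr H j ^ (D + 1) := by
      have h7 : ((D + 1 : ℕ) : ℝ) ≤ (2 : ℝ) ^ (D + 1) := by
        exact_mod_cast (Nat.lt_two_pow_self (n := D + 1)).le
      push_cast at h7
      exact h7.trans (pow_le_pow_left₀ (by norm_num) hg2 _)
    have h8 : gr H j ^ (D + 1 + (1 + D)) = gr H j ^ (D + 1) * (gr H j * gr H j ^ D) := by ring
    rw [h8]
    exact mul_le_mul_of_nonneg_right h6 (by have := gr_pos H j; positivity)
  -- one step
  have hstep : ∀ G : ℕ → Finset ℤ[X], (∀ j, (G j).card ≤ q + 1) → ∃ (F : ℕ → Fin r → ℤ[X]) (x : Fin r),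
      (∀ j, Function.Injective (F j) ∧ ∀ s, Good D (h j) (F j s) ∧ F j s ∉ G j) ∧
      Y (fun j => F j x) ∈ acl (Zs U H) (S ∪ (fun x' => Y (fun j => F j x')) '' {x' | x' < x}) := by
    intro G hGc
    choose F hFi hFg hFb using fun j => hG j (G j) (hGc j)
    have hτ' : (∀ᶠ j in (U : Filter ℕ), τ j = 0) ∨ ∃ i, ∀ᶠ j in (U : Filter ℕ), τ j = w j i := by
      have h1 : ∀ᶠ j in (U : Filter ℕ), τ j = 0 ∨ ∃ i, τ j = w j i := Eventually.of_forall hτ
      rcases (Ultrafilter.eventually_or).1 h1 with h2 | h2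
      · exact Or.inl h2
      · right
        exact Ultrafilter.eventually_exists_iff.1 h2
    by_contra hno
    push Not at hno
    refine no_badW U H w hw τ hτ' (fun j s => (F j s).eval (N j : ℤ)) id hUt hHt
      (fun x => hval _ fun j => (hFg j x).1) (Eventually.of_forall hFb) fun x => ?_
    exact hno F x fun j => ⟨hFi j, hFg j⟩
  -- `m` steps
  have hsteps : ∀ m : ℕ, m ≤ q + 2 → ∃ (F : Fin m → ℕ → Fin r → ℤ[X]) (x : Fin m → Fin r),
      (∀ i j, Function.Injective (F i j) ∧ ∀ s, Good D (h j) (F i j s)) ∧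
      (∀ i i', i' < i → ∀ j s, F i j s ≠ F i' j (x i')) ∧
      ∀ i, Y (fun j => F i j (x i)) ∈
        acl (Zs U H) (S ∪ (fun x' => Y (fun j => F i j x')) '' {x' | x' < x i}) := by
    intro m
    induction m with
    | zero =>
      intro _
      exact ⟨fun i => i.elim0, fun i => i.elim0, fun i => i.elim0, fun i => i.elim0, fun i => i.elim0⟩
    | succ m ih =>
      intro hm
      obtain ⟨F, x, h1, h2, h3⟩ := ih (by omega)
      obtain ⟨F', x', h4, h5⟩ := hstep (fun j => univ.image fun i : Fin m => F i j (x i)) (fun j => by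
        refine Finset.card_image_le.trans ?_
        rw [Finset.card_univ, Fintype.card_fin]
        omega)
      refine ⟨Fin.snoc F F', Fin.snoc x x', ?_, ?_, ?_⟩
      · intro i
        refine Fin.lastCases ?_ (fun i => ?_) i
        · intro j
          rw [Fin.snoc_last]
          exact ⟨(h4 j).1, fun s => ((h4 j).2 s).1⟩
        · intro j
          rw [Fin.snoc_castSucc]
          exact h1 i j
      · intro i i'
        refine Fin.lastCases ?_ (fun i => ?_) i
        · refine Fin.lastCases ?_ (fun i' => ?_) i'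
          · intro hlt
            exact absurd hlt (lt_irrefl _)
          · intro _ j s
            rw [Fin.snoc_last, Fin.snoc_castSucc, Fin.snoc_castSucc]
            intro heq
            exact ((h4 j).2 s).2 (Finset.mem_image.2 ⟨i', mem_univ _, heq.symm⟩)
        · refine Fin.lastCases ?_ (fun i' => ?_) i'
          · intro hlt
            exact absurd hlt (not_lt.2 (Fin.le_last _))
          · intro hlt j s
            rw [Fin.snoc_castSucc, Fin.snoc_castSucc, Fin.snoc_castSucc]
            exact h2 i i' (Fin.castSucc_lt_castSucc_iff.1 hlt) j s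
      · intro i
        refine Fin.lastCases ?_ (fun i => ?_) i
        · simp only [Fin.snoc_last]
          exact h5
        · simp only [Fin.snoc_castSucc]
          exact h3 i
  obtain ⟨F, x, hF, hFF, hFx⟩ := hsteps (q + 2) le_rfl
  -- the germs
  set γ : Fin (q + 2) × Fin r → Germ (U : Filter ℕ) ℤ[X] := fun p => ((fun j => F p.1 j p.2 : ℕ → ℤ[X]) :
    Germ (U : Filter ℕ) ℤ[X]) with hγ
  set Γ : Finset (Germ (U : Filter ℕ) ℤ[X]) := univ.image γ with hΓ
  set u : ℕ := Γ.card with hu
  set en : Fin u ≃ Γ := Γ.equivFin.symm with hen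
  have hrep : ∀ t : Fin u, ∃ p, γ p = (en t : Germ (U : Filter ℕ) ℤ[X]) := by
    intro t
    obtain ⟨p, -, hp⟩ := Finset.mem_image.1 (en t).2
    exact ⟨p, hp⟩
  choose rep hrep using hrep
  set g : ℕ → Fin u → ℤ[X] := fun j t => F (rep t).1 j (rep t).2 with hg
  have hgood : ∀ j t, Good D (h j) (g j t) := fun j t => (hF _ j).2 _
  have hginj : ∀ᶠ j in (U : Filter ℕ), Function.Injective (g j) := by
    have h1 : ∀ t t', t ≠ t' → ∀ᶠ j in (U : Filter ℕ), g j t ≠ g j t' := by
      intro t t' htt
      have h2 : ¬ ∀ᶠ j in (U : Filter ℕ), g j t = g j t' := by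
        intro h3
        apply htt
        apply en.injective
        apply Subtype.ext
        rw [← hrep t, ← hrep t', hγ]
        exact Germ.coe_eq.2 h3
      exact Ultrafilter.eventually_not.2 h2
    have h2 : ∀ᶠ j in (U : Filter ℕ), ∀ t t', t ≠ t' → g j t ≠ g j t' :=
      Filter.eventually_all.2 fun t => Filter.eventually_all.2 fun t' => by
        by_cases htt : t = t'
        · exact Eventually.of_forall fun j h => absurd htt h
        · exact (h1 t t' htt).mono fun j hj _ => hj
    filter_upwards [h2] with j hj t t' htt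
    by_contra h
    exact hj t t' h htt
  -- the logarithms
  set N₀ : ℕ → ℕ := fun j => N j - 2 * (h j + 1) with hN₀
  have hN₀e : ∀ᶠ j in (U : Filter ℕ), N₀ j + 2 * (h j + 1) = N j := by
    filter_upwards [hgrow 2] with j hj
    have h1 : 2 * (h j + 1) ≤ (h j + 2) ^ 2 := by nlinarith
    have h2 : N₀ j = N j - 2 * (h j + 1) := rfl
    omega
  have hind := win_poly U H (K := u) (m := 1) (r := u) (D := D) g N₀ h (fun j => 2 * (h j + 1))
    (fun j _ => 2 * (h j + 1)) (fun t => (0, t)) (fun t t' htt => (Prod.mk.inj htt).2) hHt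
    (Eventually.of_forall fun j => (Nat.sub_le _ _).trans (hNH j))
    (Eventually.of_forall fun j t => ⟨(hgood j t).one_le, (hgood j t).2.2.1⟩)
    (Eventually.of_forall fun j t => (hgood j t).2.2.2)
    (hginj.mono fun j hj => squarefree_of_good (hgood j) hj)
    (Eventually.of_forall fun j i => ⟨le_rfl, le_rfl⟩)
    (Eventually.of_forall fun j i i' hii => absurd (Subsingleton.elim i i') hii)
    (fun E => by
      filter_upwards [hgrow (2 * E + 3), hgrow 2, hN₀e] with j h1 h2 h3
      have h4 : h j + 2 * (h j + 1) + 2 ≤ (h j + 2) ^ 2 := by nlinarith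
      have h5 : (h j + 2 * (h j + 1) + 2) ^ E ≤ (h j + 2) ^ (2 * E) := by
        rw [pow_mul]
        exact Nat.pow_le_pow_left h4 E
      have h6 : (h j + 2) ^ (2 * E + 3) = (h j + 2) ^ (2 * E) * (h j + 2) ^ 3 := pow_add _ _ _
      have h7 : 1 ≤ (h j + 2) ^ (2 * E) := Nat.one_le_pow _ _ (by omega)
      have h8 : 1 + 2 * (h j + 1) ≤ (h j + 2) ^ 3 := by
        have : (h j + 2) ^ 3 = (h j + 2) * (h j + 2) ^ 2 := by ring
        nlinarith
      have h9 : (h j + 2) ^ (2 * E) + 2 * (h j + 1) ≤ (h j + 2) ^ (2 * E) * (h j + 2) ^ 3 := by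
        have h10 : (h j + 2) ^ (2 * E) * (1 + 2 * (h j + 1)) ≤ (h j + 2) ^ (2 * E) * (h j + 2) ^ 3 :=
          Nat.mul_le_mul_left _ h8
        have h11 : 2 * (h j + 1) ≤ (h j + 2) ^ (2 * E) * (2 * (h j + 1)) := Nat.le_mul_of_pos_left _ (by omega)
        nlinarith
      omega)
  -- the closure
  set c₀ : Fl U H := lzc U H (fun j => (N₀ j : ℤ)) with hc₀
  set ε : Set (Germ (U : Filter ℕ) ℤ[X]) := Set.range fun i => γ (i, x i) with hε
  set Z : Set (Fl U H) := insert c₀ (S ∪ (fun t : Fin u => Y (fun j => g j t)) ''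
    {t | (en t : Germ (U : Filter ℕ) ℤ[X]) ∉ ε}) with hZ
  have hSZ : S ⊆ Z := fun y hy => Set.mem_insert_of_mem _ (Or.inl hy)
  have hYZ : ∀ p, γ p ∉ ε → Y (fun j => F p.1 j p.2) ∈ Z := by
    intro p hp
    obtain ⟨t, ht⟩ := en.surjective ⟨γ p, Finset.mem_image_of_mem _ (mem_univ p)⟩
    have ht' : (en t : Germ (U : Filter ℕ) ℤ[X]) = γ p := by rw [ht]
    refine Set.mem_insert_of_mem _ (Or.inr ⟨t, ?_, ?_⟩)
    · rw [Set.mem_setOf_eq, ht']
      exact hp
    · apply hYc
      have h1 := (hrep t).trans ht'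
      exact Germ.coe_eq.1 h1
  have hεZ : ∀ i : Fin (q + 2), Y (fun j => F i j (x i)) ∈ acl (Zs U H) Z := by
    intro i
    induction i using WellFoundedGT.induction with
    | ind i ih =>
      refine acl_of ?_ (hFx i)
      rintro _ (hy | ⟨x', hx', rfl⟩)
      · exact subset_acl (hSZ hy)
      · by_cases hp : γ (i, x') ∈ ε
        · obtain ⟨i'', hi''⟩ := hp
          have h1 : ∀ᶠ j in (U : Filter ℕ), F i'' j (x i'') = F i j x' := Germ.coe_eq.1 hi''
          have h2 : i < i'' := by
            obtain ⟨j, hj⟩ := h1.exists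
            rcases lt_trichotomy i i'' with h3 | h3 | h3
            · exact h3
            · exfalso
              subst h3
              have h4 := (hF i j).1 hj
              exact absurd h4.symm (ne_of_lt hx')
            · exact absurd hj.symm (hFF i i'' h3 j x')
          have h3 := ih i'' h2
          have h4 : Y (fun j => F i j x') = Y (fun j => F i'' j (x i'')) := (hYc _ _ h1).symm
          simp only
          rw [h4]
          exact h3
        · exact subset_acl (hYZ (i, x') hp)
  have hallZ : ∀ t : Fin u, Y (fun j => g j t) ∈ acl (Zs U H) Z := by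
    intro t
    by_cases ht : (en t : Germ (U : Filter ℕ) ℤ[X]) ∈ ε
    · obtain ⟨i, hi⟩ := ht
      have h1 : γ (i, x i) = γ (rep t) := by rw [hrep t]; exact hi
      have h2 : Y (fun j => F i j (x i)) = Y (fun j => g j t) := hYc _ _ (Germ.coe_eq.1 h1)
      rw [← h2]
      exact hεZ i
    · exact subset_acl (Set.mem_insert_of_mem _ (Or.inr ⟨t, ht, rfl⟩))
  -- the size
  have hεinj : Function.Injective fun i => γ (i, x i) := by
    intro i i' hii
    obtain ⟨j, hj⟩ := (Germ.coe_eq.1 hii : ∀ᶠ j in (U : Filter ℕ), F i j (x i) = F i' j (x i')).exists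
    rcases lt_trichotomy i i' with h1 | h1 | h1
    · exact absurd hj.symm (hFF i' i h1 j _)
    · exact h1
    · exact absurd hj (hFF i i' h1 j _)
  have hcard : ((univ : Finset (Fin u)).filter fun t => (en t : Germ (U : Filter ℕ) ℤ[X]) ∉ ε).card + (q + 2) = u := by
    have h1 := Finset.card_filter_add_card_filter_not (s := (univ : Finset (Fin u)))
      (fun t => (en t : Germ (U : Filter ℕ) ℤ[X]) ∉ ε)
    have h2 : ((univ : Finset (Fin u)).filter fun t => ¬ (en t : Germ (U : Filter ℕ) ℤ[X]) ∉ ε).card = q + 2 := by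
      have h3 : ((univ : Finset (Fin u)).filter fun t => ¬ (en t : Germ (U : Filter ℕ) ℤ[X]) ∉ ε) =
          (univ : Finset (Fin (q + 2))).image fun i => en.symm ⟨γ (i, x i), Finset.mem_image_of_mem _ (mem_univ _)⟩ := by
        ext t
        simp only [mem_filter, mem_univ, true_and, not_not, mem_image, hε, Set.mem_range]
        constructor
        · rintro ⟨i, hi⟩
          refine ⟨i, ?_⟩
          rw [Equiv.symm_apply_eq]
          exact Subtype.ext hi
        · rintro ⟨i, rfl⟩
          exact ⟨i, by rw [Equiv.apply_symm_apply]⟩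
      rw [h3, Finset.card_image_of_injective, Finset.card_univ, Fintype.card_fin]
      intro i i' hii
      exact hεinj (congrArg Subtype.val (en.symm.injective hii))
    rw [h2, Finset.card_univ, Fintype.card_fin] at h1
    exact h1
  have hZc : Z.encard < (u : ℕ∞) := by
    have h1 : Z.encard ≤ ((q + ((univ : Finset (Fin u)).filter fun t =>
        (en t : Germ (U : Filter ℕ) ℤ[X]) ∉ ε).card + 1 : ℕ) : ℕ∞) := by
      refine (Set.encard_insert_le _ _).trans ?_
      push_cast
      refine add_le_add ?_ le_rfl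
      refine (Set.encard_union_le _ _).trans (add_le_add ?_ ?_)
      · rw [hS, ← Set.image_univ]
        refine (Set.encard_image_le _ _).trans ?_
        rw [Set.encard_univ]
        simp
      · refine (Set.encard_image_le _ _).trans ?_
        rw [← Set.encard_coe_eq_coe_finsetCard]
        refine Set.encard_le_encard ?_
        intro t ht
        simpa using ht
    refine h1.trans_lt ?_
    have h2 : q + ((univ : Finset (Fin u)).filter fun t =>
        (en t : Germ (U : Filter ℕ) ℤ[X]) ∉ ε).card + 1 < u := by omega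
    exact_mod_cast h2
  obtain ⟨t, ht⟩ := exists_notMem_acl hind hZc
  apply ht
  have e1 : lzc U H (fun j => (g j t).eval ((N₀ j : ℤ) + ((2 * (h j + 1) : ℕ) : ℤ))) = Y (fun j => g j t) := by
    apply lzc_congr
    filter_upwards [hN₀e] with j hj
    have h1 : (N₀ j : ℤ) + ((2 * (h j + 1) : ℕ) : ℤ) = (N j : ℤ) := by exact_mod_cast hj
    rw [h1]
  have e2 : lzc U H (fun j => (g j t).leadingCoeff) = 0 := by
    rw [← lzc_one U H]
    apply lzc_congr
    exact Eventually.of_forall fun j => (hgood j t).1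
  have e3 : lzc U H (fun j => (g j t).eval ((N₀ j : ℤ) + ((2 * (h j + 1) : ℕ) : ℤ))) -
      (lzc U H (fun j => (g j t).leadingCoeff) + psi U H (dgi U H D g t) * c₀) ∈ acl (Zs U H) Z := by
    rw [e1, e2, zero_add]
    exact acl_sub (hallZ t) (acl_mul (acl_R ⟨_, rfl⟩) (subset_acl (Set.mem_insert _ _)))
  exact e3

end Pool.Agent.K3h1.LM
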