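import Mathlib
import Pool.Agent.K3h1.LM.OE
import Pool.Agent.K3h1.LM.Tp

/-!
# Few exceptional polynomials: real heights, all branches
-/

set_option autoImplicit false

namespace Pool.Agent.K3h1.LM

open Finset Pool.Agent.R351.GF Polynomial

/-- a monic irreducible polynomial of degree at most `D` and height at most `h` -/
def Adm (D : ℕ) (h : ℕ) (g : ℤ[X]) : Prop :=
  g.Monic ∧ Irreducible g ∧ g.natDegree ≤ D ∧ ∀ m, |g.coeff m| ≤ h

/-- the lower bound for the values at `l` of the polynomials of degree at most `d` whose coefficients are integer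
polynomials in the constants `w`, of degree at most `d` and height at most `H`, not all of absolute value less than
`H ^ (- E₀)` -/
def Meas {r q : ℕ} (d E₀ E : ℕ) (H : ℝ) (w : Fin q → ℂ) (l : Fin r → ℂ) : Prop :=
  ∀ P : MvPolynomial (Fin r) (MvPolynomial (Fin q) ℤ), P.totalDegree ≤ d → (∀ s, (P.coeff s).totalDegree ≤ d) →
    (∀ s t, |(((P.coeff s).coeff t : ℤ) : ℝ)| ≤ H) → (∃ s, 1 / H ^ E₀ ≤ ‖MvPolynomial.aeval w (P.coeff s)‖) →
    1 / H ^ E ≤ ‖MvPolynomial.eval₂ (MvPolynomial.aeval w : MvPolynomial (Fin q) ℤ →ₐ[ℤ] ℂ).toRingHom l P‖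

/-- all branches of the logarithms -/
def AllB {q : ℕ} (r D h d E₀ E N : ℕ) (H : ℝ) (w : Fin q → ℂ) (G : Finset ℤ[X]) : Prop :=
  ∀ f : Fin r → ℤ[X], Function.Injective f → (∀ s, Adm D h (f s) ∧ f s ∉ G) →
    ∀ l : Fin r → ℂ, (∀ s, Complex.exp (l s) = (((f s).eval (N : ℤ) : ℤ) : ℂ)) → (∀ s, |(l s).im| ≤ H) →
    Meas d E₀ E H w l

/-- the logarithms of the absolute values -/
def AbsB {q : ℕ} (r D h d E₀ E N : ℕ) (H : ℝ) (w : Fin q → ℂ) (G : Finset ℤ[X]) : Prop :=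
  ∀ f : Fin r → ℤ[X], Function.Injective f → (∀ s, Adm D h (f s) ∧ f s ∉ G) →
    Meas d E₀ E H w fun s => (Real.log |(((f s).eval (N : ℤ) : ℤ) : ℝ)| : ℂ)

theorem badW_of {r q d E₀ E' E H' : ℕ} {H : ℝ} (hH2 : 2 ≤ H) (hHH : H ≤ H') (hHH' : (H' : ℝ) ≤ H + 5)
    (hE : 4 * E' ≤ E) (w : Fin q → ℂ) (τ : ℂ) (v : Fin r → ℤ) (b : Fin r → ℤ) (hb : ∀ x, |(b x : ℝ)| ≤ H)
    (l : Fin r → ℂ) (hl : ∀ x, l x = (Real.log |(v x : ℝ)| : ℂ) + b x * τ)
    (P : MvPolynomial (Fin r) (MvPolynomial (Fin q) ℤ)) (h1 : P.totalDegree ≤ d)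
    (h2 : ∀ s, (P.coeff s).totalDegree ≤ d) (h3 : ∀ s t, |(((P.coeff s).coeff t : ℤ) : ℝ)| ≤ H)
    (h4 : ∃ s, 1 / H ^ E₀ ≤ ‖MvPolynomial.aeval w (P.coeff s)‖)
    (h5 : ‖MvPolynomial.eval₂ (MvPolynomial.aeval w : MvPolynomial (Fin q) ℤ →ₐ[ℤ] ℂ).toRingHom l P‖ < 1 / H ^ E) :
    BadW d E₀ E' H' w τ v := by
  have hH0 : (0 : ℝ) < H := by linarith
  refine ⟨b, fun x => ?_, P, h1, h2, fun s t => ?_, ?_, ?_⟩
  · have := (hb x).trans hHH
    exact_mod_cast this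
  · have := (h3 s t).trans hHH
    exact_mod_cast this
  · obtain ⟨s, hs⟩ := h4
    refine ⟨s, ?_⟩
    rw [div_le_iff₀ (by positivity)] at hs
    refine hs.trans (mul_le_mul_of_nonneg_left ?_ (norm_nonneg _))
    exact pow_le_pow_left₀ hH0.le (by linarith) _
  · have h6 : (fun x => (Real.log |(v x : ℝ)| : ℂ) + b x * τ) = l := funext fun x => (hl x).symm
    rw [h6]
    rw [lt_div_iff₀ (by positivity)] at h5
    refine lt_of_le_of_lt (mul_le_mul_of_nonneg_left ?_ (norm_nonneg _)) h5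
    have h7 : (H' : ℝ) + 2 ≤ H ^ 4 := by
      have h8 : (2 : ℝ) ^ 3 ≤ H ^ 3 := pow_le_pow_left₀ (by norm_num) hH2 3
      have h9 : H ^ 4 = H ^ 3 * H := by ring
      rw [h9]
      nlinarith
    calc ((H' : ℝ) + 2) ^ E' ≤ (H ^ 4) ^ E' := pow_le_pow_left₀ (by positivity) h7 _
      _ = H ^ (4 * E') := by rw [← pow_mul]
      _ ≤ H ^ E := pow_le_pow_right₀ (by linarith) hE

theorem coeff_rename_bd {q : ℕ} {H : ℝ} (hH : 0 ≤ H) (p : MvPolynomial (Fin q) ℤ)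
    (hp : ∀ t, |((p.coeff t : ℤ) : ℝ)| ≤ H) (t : Fin (q + 1) →₀ ℕ) :
    |(((MvPolynomial.rename Fin.castSucc p).coeff t : ℤ) : ℝ)| ≤ H := by
  by_cases hs : ∃ u : Fin q →₀ ℕ, u.mapDomain Fin.castSucc = t
  · obtain ⟨u, rfl⟩ := hs
    rw [MvPolynomial.coeff_rename_mapDomain _ (Fin.castSucc_injective q)]
    exact hp u
  · rw [MvPolynomial.coeff_rename_eq_zero]
    · simpa using hH
    · intro u hu
      exact absurd ⟨u, hu⟩ hs

/-- **At a single height.** -/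
theorem few (r q D d E₀ : ℕ) : ∃ E : ℕ, ∀ h N : ℕ, (h + 2) ^ E ≤ N → ∀ w : Fin q → ℂ, ∀ H : ℝ, N ≤ H →
    (∀ i, ‖w i‖ ≤ H) →
    (∃ G : Finset ℤ[X], G.card ≤ q + 2 ∧ AllB r D h d E₀ E N H w G) ∧
    (∃ G : Finset ℤ[X], G.card ≤ q + 1 ∧ AbsB r D h d E₀ E N H w G) := by
  obtain ⟨E₁, hE₁⟩ := exc_win r (q + 1) D d E₀
  obtain ⟨E₂, hE₂⟩ := exc_win r q D d E₀
  refine ⟨4 * (E₁ + E₂) + 1, fun h N hN w H hNH hw => ?_⟩
  have hN1 : (h + 2) ^ E₁ ≤ N := (Nat.pow_le_pow_right (by omega) (by omega)).trans hN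
  have hN2 : (h + 2) ^ E₂ ≤ N := (Nat.pow_le_pow_right (by omega) (by omega)).trans hN
  have hN0 : 2 ≤ N := by
    refine le_trans ?_ hN
    calc 2 = 2 ^ 1 := (pow_one _).symm
      _ ≤ (h + 2) ^ 1 := Nat.pow_le_pow_left (by omega) 1
      _ ≤ (h + 2) ^ (4 * (E₁ + E₂) + 1) := Nat.pow_le_pow_right (by omega) (by omega)
  have hN0r : (2 : ℝ) ≤ N := by exact_mod_cast hN0
  have hH2 : (2 : ℝ) ≤ H := hN0r.trans hNH
  set H' : ℕ := ⌈H⌉₊ + 4 with hH'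
  have hH'1 : H + 4 ≤ H' := by
    have := Nat.le_ceil H
    rw [hH']
    push_cast
    linarith
  have hH'2 : (H' : ℝ) ≤ H + 5 := by
    have := Nat.ceil_lt_add_one (by linarith : (0 : ℝ) ≤ H)
    rw [hH']
    push_cast
    linarith
  have hNH' : N ≤ H' := by
    have : (N : ℝ) ≤ H' := by linarith
    exact_mod_cast this
  have hpi : ‖(Real.pi * Complex.I : ℂ)‖ = Real.pi := by
    rw [norm_mul, Complex.norm_I, mul_one, Complex.norm_real, Real.norm_eq_abs,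
      abs_of_pos Real.pi_pos]
  constructor
  · set w' : Fin (q + 1) → ℂ := Fin.snoc w (Real.pi * Complex.I) with hw'
    have hw'c : ∀ i : Fin q, w' i.castSucc = w i := fun i => by rw [hw', Fin.snoc_castSucc]
    have hw'l : w' (Fin.last q) = Real.pi * Complex.I := by rw [hw', Fin.snoc_last]
    obtain ⟨G, hG, hGf⟩ := hE₁ h N H' hN1 hNH' w' (fun i => by
      refine Fin.lastCases ?_ (fun i => ?_) i
      · rw [hw'l, hpi]
        have := Real.pi_le_four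
        linarith
      · rw [hw'c]
        have := hw i
        linarith) (Real.pi * Complex.I) (Or.inr ⟨Fin.last q, hw'l.symm⟩)
    refine ⟨G, hG, fun f hf hfG l hl him => ?_⟩
    intro P h1 h2 h3 h4
    by_contra h5
    rw [not_le] at h5
    have hbr : ∀ s, ∃ b : ℤ, l s = (Real.log |(((f s).eval (N : ℤ) : ℤ) : ℝ)| : ℂ) + b * (Real.pi * Complex.I) :=
      fun s => (exists_branchZ (hl s)).2
    choose b hb using hbr
    have hbH : ∀ s, |(b s : ℝ)| ≤ H := by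
      intro s
      have h6 := him s
      rw [hb s] at h6
      have h7 : ((Real.log |(((f s).eval (N : ℤ) : ℤ) : ℝ)| : ℂ) + b s * (Real.pi * Complex.I)).im = b s * Real.pi := by
        simp
      rw [h7, abs_mul, abs_of_pos Real.pi_pos] at h6
      have h8 := Real.pi_gt_three
      have h9 := abs_nonneg (b s : ℝ)
      nlinarith
    set P' := MvPolynomial.map (MvPolynomial.rename Fin.castSucc : MvPolynomial (Fin q) ℤ →ₐ[ℤ]
      MvPolynomial (Fin (q + 1)) ℤ).toRingHom P with hP'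
    have hc : ∀ s, P'.coeff s = MvPolynomial.rename Fin.castSucc (P.coeff s) := fun s => by
      rw [hP', MvPolynomial.coeff_map]
      rfl
    have hae : ∀ p : MvPolynomial (Fin q) ℤ, MvPolynomial.aeval w' (MvPolynomial.rename Fin.castSucc p) =
        MvPolynomial.aeval w p := fun p => by
      rw [MvPolynomial.aeval_rename]
      congr 2
      funext i
      exact hw'c i
    have hev : MvPolynomial.eval₂ (MvPolynomial.aeval w' : MvPolynomial (Fin (q + 1)) ℤ →ₐ[ℤ] ℂ).toRingHom l P' =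
        MvPolynomial.eval₂ (MvPolynomial.aeval w : MvPolynomial (Fin q) ℤ →ₐ[ℤ] ℂ).toRingHom l P := by
      rw [hP', MvPolynomial.eval₂_map]
      congr 1
      exact RingHom.ext fun p => hae p
    refine hGf f hf (fun s => ⟨(hfG s).1, (hfG s).2⟩) (badW_of (E := 4 * (E₁ + E₂) + 1) hH2 (by linarith) hH'2
      (by omega) w' _ _ b hbH l hb P' ?_ ?_ ?_ ?_ ?_)
    · refine le_trans ?_ h1
      rw [MvPolynomial.totalDegree, MvPolynomial.totalDegree]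
      refine Finset.sup_mono ?_
      rw [hP']
      exact MvPolynomial.support_map_subset _ _
    · intro s
      rw [hc]
      exact (MvPolynomial.totalDegree_rename_le _ _).trans (h2 s)
    · intro s t
      rw [hc]
      exact coeff_rename_bd (by linarith) _ (h3 s) t
    · obtain ⟨s, hs⟩ := h4
      exact ⟨s, by rw [hc, hae]; exact hs⟩
    · rw [hev]
      exact h5
  · obtain ⟨G, hG, hGf⟩ := hE₂ h N H' hN2 hNH' w (fun i => by
      have := hw i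
      linarith) 0 (Or.inl rfl)
    refine ⟨G, hG, fun f hf hfG => ?_⟩
    intro P h1 h2 h3 h4
    by_contra h5
    rw [not_le] at h5
    exact hGf f hf (fun s => ⟨(hfG s).1, (hfG s).2⟩) (badW_of (E := 4 * (E₁ + E₂) + 1) hH2 (by linarith) hH'2
      (by omega) w 0 _ 0 (fun x => by simp; linarith) _ (fun x => by simp) P h1 h2 h3 h4 h5)

/-- the admissible polynomials are finite in number -/
theorem exists_all (D h : ℕ) : ∃ 𝓖 : Finset ℤ[X], ∀ g, Adm D h g → g ∈ 𝓖 := by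
  classical
  refine ⟨(Fintype.piFinset fun _ : Fin (D + 1) => Icc (-(h : ℤ)) h).image
    fun c => ∑ l : Fin (D + 1), C (c l) * X ^ (l : ℕ), fun g hg => ?_⟩
  refine mem_image.2 ⟨fun l => g.coeff l, ?_, ?_⟩
  · rw [Fintype.mem_piFinset]
    intro l
    rw [mem_Icc]
    exact abs_le.1 (hg.2.2.2 l)
  · conv_rhs => rw [g.as_sum_range_C_mul_X_pow' (n := D + 1) (Nat.lt_succ_of_le hg.2.2.1)]
    rw [Finset.sum_range]

/-- pigeonhole -/
theorem exists_arb {a : ℕ} {Q : ℝ → Finset ℤ[X] → Prop} {H₁ : ℝ} (𝓖 : Finset ℤ[X])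
    (hQ : ∀ H G, Q H G → Q H (G.filter (· ∈ 𝓖)))
    (h : ∀ H, H₁ ≤ H → ∃ G : Finset ℤ[X], G.card ≤ a ∧ Q H G) (𝓗 : Set ℝ) (h𝓗 : ¬ BddAbove 𝓗) :
    ∃ G : Finset ℤ[X], G.card ≤ a ∧ ∀ H₀, ∃ H ∈ 𝓗, H₀ ≤ H ∧ Q H G := by
  classical
  by_contra hcon
  push Not at hcon
  have hex : ∀ G : Finset ℤ[X], ∃ H₀ : ℝ, G.card ≤ a → ∀ H ∈ 𝓗, H₀ ≤ H → ¬ Q H G := by
    intro G
    by_cases hG : G.card ≤ a
    · obtain ⟨H₀, h1⟩ := hcon G hG
      exact ⟨H₀, fun _ => h1⟩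
    · exact ⟨0, fun h1 => absurd h1 hG⟩
  choose H₀ hH₀ using hex
  obtain ⟨B, hB⟩ := (𝓖.powerset.image H₀).bddAbove
  obtain ⟨H, hH𝓗, hH⟩ := not_bddAbove_iff.1 h𝓗 (max B H₁)
  obtain ⟨G, hG, hGQ⟩ := h H ((le_max_right _ _).trans hH.le)
  refine hH₀ (G.filter (· ∈ 𝓖)) ((card_filter_le _ _).trans hG) H hH𝓗 ?_ (hQ H G hGQ)
  refine le_trans (hB ?_) ((le_max_left _ _).trans hH.le)
  rw [coe_image]
  refine ⟨_, ?_, rfl⟩
  rw [mem_coe, mem_powerset]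
  intro g hg
  exact (mem_filter.1 hg).2

/-- **Few exceptional polynomials.** -/
theorem fewMain (r q D d E₀ : ℕ) : ∃ E : ℕ, ∀ h N : ℕ, (h + 2) ^ E ≤ N → ∀ w : Fin q → ℂ,
    (∀ H : ℝ, N ≤ H → (∀ i, ‖w i‖ ≤ H) →
      (∃ G : Finset ℤ[X], G.card ≤ q + 2 ∧ AllB r D h d E₀ E N H w G) ∧
      (∃ G : Finset ℤ[X], G.card ≤ q + 1 ∧ AbsB r D h d E₀ E N H w G)) ∧
    (∀ 𝓗 : Set ℝ, ¬ BddAbove 𝓗 →
      (∃ G : Finset ℤ[X], G.card ≤ q + 2 ∧ ∀ H₀, ∃ H ∈ 𝓗, H₀ ≤ H ∧ AllB r D h d E₀ E N H w G) ∧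
      (∃ G : Finset ℤ[X], G.card ≤ q + 1 ∧ ∀ H₀, ∃ H ∈ 𝓗, H₀ ≤ H ∧ AbsB r D h d E₀ E N H w G)) := by
  classical
  obtain ⟨E, hE⟩ := few r q D d E₀
  refine ⟨E, fun h N hN w => ⟨hE h N hN w, fun 𝓗 h𝓗 => ?_⟩⟩
  obtain ⟨𝓖, h𝓖⟩ := exists_all D h
  have hbig : ∀ H : ℝ, (N : ℝ) + ∑ i, ‖w i‖ ≤ H → N ≤ H ∧ ∀ i, ‖w i‖ ≤ H := by
    intro H hH
    have h0 : 0 ≤ ∑ i, ‖w i‖ := Finset.sum_nonneg fun i _ => norm_nonneg _
    have hN0 : (0 : ℝ) ≤ N := Nat.cast_nonneg _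
    refine ⟨by linarith, fun i => ?_⟩
    have := Finset.single_le_sum (f := fun i => ‖w i‖) (fun i _ => norm_nonneg _) (mem_univ i)
    linarith
  have hav : ∀ {f : Fin r → ℤ[X]} {G : Finset ℤ[X]}, (∀ s, Adm D h (f s) ∧ f s ∉ G.filter (· ∈ 𝓖)) →
      ∀ s, Adm D h (f s) ∧ f s ∉ G := by
    intro f G hf s
    refine ⟨(hf s).1, fun hs => (hf s).2 (mem_filter.2 ⟨hs, h𝓖 _ (hf s).1⟩)⟩
  exact ⟨exists_arb (Q := fun H G => AllB r D h d E₀ E N H w G) 𝓖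
      (fun H G hQ f hfi hf => hQ f hfi (hav hf)) (fun H hH => (hE h N hN w H (hbig H hH).1 (hbig H hH).2).1) 𝓗 h𝓗,
    exists_arb (Q := fun H G => AbsB r D h d E₀ E N H w G) 𝓖
      (fun H G hQ f hfi hf => hQ f hfi (hav hf)) (fun H hH => (hE h N hN w H (hbig H hH).1 (hbig H hH).2).2) 𝓗 h𝓗⟩

end Pool.Agent.K3h1.LM
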