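import Mathlib
import Pool.Agent.K3h1.LM.Tp

/-!
# The count at one scale
-/

set_option autoImplicit false

namespace Pool.Agent.K3h1.LM

open Filter Finset Pool.Agent.R351.GF Polynomial Pool.Agent.Y916 Pool.Agent.Y535.LG

/-- the values of the polynomials, in one row -/
def vals {k K : ℕ} (f : Fin k → Fin K → ℤ[X]) (n : Fin k → ℕ) (x : Fin (k * K)) : ℤ :=
  (f (finProdFinEquiv.symm x).1 (finProdFinEquiv.symm x).2).eval (n (finProdFinEquiv.symm x).1 : ℤ)

theorem lex_of_lt {k K : ℕ} {x x' : Fin (k * K)} (h : x' < x) :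
    finProdFinEquiv.symm x' ∈ lex (finProdFinEquiv.symm x).1 (finProdFinEquiv.symm x).2 := by
  show x'.divNat < x.divNat ∨ (x'.divNat = x.divNat ∧ x'.modNat < x.modNat)
  rw [Fin.lt_def, Fin.ext_iff, Fin.lt_def, Fin.coe_divNat, Fin.coe_divNat, Fin.coe_modNat,
    Fin.coe_modNat]
  have h1 : (x' : ℕ) / K ≤ x / K := Nat.div_le_div_right (le_of_lt h)
  rcases Nat.lt_or_ge ((x' : ℕ) / K) (x / K) with h2 | h2
  · exact Or.inl h2
  · right
    have h3 : (x' : ℕ) / K = x / K := le_antisymm h1 h2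
    refine ⟨h3, ?_⟩
    have h4 := Nat.div_add_mod (x' : ℕ) K
    have h5 := Nat.div_add_mod (x : ℕ) K
    have h6 : (x' : ℕ) < x := h
    rw [h3] at h4
    omega

open Classical in
/-- **The count at one scale**, for one family. -/
theorem scaleP (k K D δ : ℕ) : ∃ C : ℕ, 0 < C ∧ ∀ T H h : ℕ, 1 ≤ T → T ≤ H → (h + 2) ^ C ≤ T →
    ∀ f : Fin k → Fin K → ℤ[X], (∀ i, Fam D h (f i)) →
    (((Fintype.piFinset fun _ : Fin k => Ioc 0 T).filter fun n => BadV δ C H (vals f n)).card : ℝ) ≤
      C * (T : ℝ) ^ ((k : ℝ) - 1 / C) := by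
  classical
  by_contra hcon
  push Not at hcon
  choose T H h hT hTH hhT f hf hcard using fun j : ℕ => hcon (j + 1) (Nat.succ_pos j)
  set U : Ultrafilter ℕ := hyperfilter ℕ with hU
  have hUa : (U : Filter ℕ) ≤ atTop := Nat.hyperfilter_le_atTop
  set B : ℕ → Finset (Fin k → ℕ) := fun j => (Fintype.piFinset fun _ : Fin k => Ioc 0 (T j)).filter
    fun n => BadV δ (j + 1) (H j) (vals (f j) n) with hB
  have htriv : ∀ j, ((B j).card : ℝ) ≤ (T j : ℝ) ^ k := by
    intro j
    have h1 : (B j).card ≤ T j ^ k := by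
      refine (Finset.card_filter_le _ _).trans ?_
      rw [Fintype.card_piFinset_const, Nat.card_Ioc, Nat.sub_zero]
    exact_mod_cast h1
  have hTj : ∀ j, j ≤ T j := by
    intro j
    have h1 := (hcard j).trans_le (htriv j)
    have ht1 : (1 : ℝ) ≤ T j := by exact_mod_cast hT j
    have ht0 : (0 : ℝ) < T j := by linarith
    have h2 : (T j : ℝ) ^ k = (T j : ℝ) ^ (1 / ((j + 1 : ℕ) : ℝ)) *
        (T j : ℝ) ^ ((k : ℝ) - 1 / ((j + 1 : ℕ) : ℝ)) := by
      rw [← Real.rpow_add ht0, ← Real.rpow_natCast]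
      congr 1
      ring
    rw [h2] at h1
    have h3 := lt_of_mul_lt_mul_right h1 (Real.rpow_nonneg ht0.le _)
    have h4 : (T j : ℝ) ^ (1 / ((j + 1 : ℕ) : ℝ)) ≤ (T j : ℝ) ^ (1 : ℝ) := by
      apply Real.rpow_le_rpow_of_exponent_le ht1
      rw [div_le_one (by positivity)]
      push_cast
      linarith [show (0 : ℝ) ≤ j from Nat.cast_nonneg j]
    rw [Real.rpow_one] at h4
    have h5 : ((j + 1 : ℕ) : ℝ) < T j := lt_of_lt_of_le h3 h4
    have h6 : j + 1 < T j := by exact_mod_cast h5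
    omega
  have hTt : Tendsto T U atTop := (tendsto_atTop_mono hTj tendsto_id).mono_left hUa
  have hHt : Tendsto H U atTop := tendsto_atTop_mono hTH hTt
  have hh : ∀ E : ℕ, ∀ᶠ j in (U : Filter ℕ), (h j + 2) ^ E ≤ T j := by
    intro E
    have h1 : ∀ᶠ j : ℕ in (U : Filter ℕ), E ≤ j := hUa (eventually_ge_atTop E)
    filter_upwards [h1] with j hj
    exact (Nat.pow_le_pow_right (by omega) (by omega)).trans (hhT j)
  obtain ⟨n, hn, hch⟩ := exists_chainP (D := D) U H T hTt (Eventually.of_forall hTH) h hh k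
    (fun i j => f j i) (fun i => Eventually.of_forall fun j => hf j i)
    B (fun j => Finset.filter_subset _ _) (by
      intro c hc
      have h1 : ∀ᶠ j : ℕ in (U : Filter ℕ), 1 / c ≤ (j : ℝ) :=
        (tendsto_natCast_atTop_atTop.mono_left hUa).eventually_ge_atTop (1 / c)
      filter_upwards [h1] with j hj
      refine lt_of_le_of_lt ?_ (hcard j)
      have ht1 : (1 : ℝ) ≤ T j := by exact_mod_cast hT j
      have h2 : (T j : ℝ) ^ ((k : ℝ) - c) ≤ (T j : ℝ) ^ ((k : ℝ) - 1 / ((j + 1 : ℕ) : ℝ)) := by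
        apply Real.rpow_le_rpow_of_exponent_le ht1
        have h3 : 1 / ((j + 1 : ℕ) : ℝ) ≤ c := by
          rw [div_le_iff₀ (by positivity)]
          rw [div_le_iff₀ hc] at hj
          push_cast
          nlinarith
        linarith
      refine h2.trans (le_mul_of_one_le_left (Real.rpow_nonneg (by linarith) _) ?_)
      push_cast
      linarith [show (0 : ℝ) ≤ j from Nat.cast_nonneg j])
    {Ideal.Quotient.mk (ms U H) (ppi U H)} (Set.finite_singleton _)
  refine no_bad_chainZ (δ := δ) U H (fun j => vals (f j) (n j)) (fun j => j + 1) ?_ hHt ?_ ?_ ?_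
  · exact (tendsto_add_atTop_nat 1).mono_left hUa
  · intro x
    refine ⟨D + 1 + (1 + D), ?_⟩
    filter_upwards [hn, hh 1] with j hj hj1
    set i := (finProdFinEquiv.symm x).1
    set s := (finProdFinEquiv.symm x).2
    have hnT : n j i ≤ T j := (mem_Ioc.1 ((Fintype.mem_piFinset.1 (mem_filter.1 hj).1) i)).2
    have hg := gr_two H j
    have hg1 := gr_one H j
    have hTH' : (T j : ℝ) ≤ H j := by exact_mod_cast hTH j
    have hgH : (H j : ℝ) + 2 = gr H j := rfl
    have hhj : (h j : ℝ) + 2 ≤ T j := by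
      rw [pow_one] at hj1
      exact_mod_cast hj1
    have h5 := eval_le (f := f j i s) (D := D) (h := gr H j) (y := gr H j)
      (x := (n j i : ℤ)) ((hf j i).1 s).2 (gr_pos H j).le (fun l => by
        have := (hf j i).2.1 s l
        have h6 : |(((f j i s).coeff l : ℤ) : ℝ)| ≤ h j := by exact_mod_cast this
        linarith) hg1 (by
        push_cast
        rw [abs_of_nonneg (by positivity)]
        have : (n j i : ℝ) ≤ T j := by exact_mod_cast hnT
        linarith)
    refine h5.trans ?_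
    have h6 : ((D : ℝ) + 1) ≤ gr H j ^ (D + 1) := by
      have h7 : ((D + 1 : ℕ) : ℝ) ≤ (2 : ℝ) ^ (D + 1) := by
        exact_mod_cast (Nat.lt_two_pow_self (n := D + 1)).le
      push_cast at h7
      exact h7.trans (pow_le_pow_left₀ (by norm_num) hg _)
    have h8 : gr H j ^ (D + 1 + (1 + D)) = gr H j ^ (D + 1) * (gr H j * gr H j ^ D) := by
      ring
    rw [h8]
    exact mul_le_mul_of_nonneg_right h6 (by have := gr_pos H j; positivity)
  · filter_upwards [hn] with j hj
    exact (mem_filter.1 hj).2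
  · intro x hcon
    apply hch (finProdFinEquiv.symm x).1 (finProdFinEquiv.symm x).2
    refine acl_mono ?_ hcon
    rintro y (hy | ⟨x', hx', rfl⟩)
    · exact Or.inl hy
    · exact Or.inr ⟨finProdFinEquiv.symm x', lex_of_lt hx', rfl⟩

end Pool.Agent.K3h1.LM
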