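import Mathlib
import Pool.Agent.K3h1.LM.Sc
import Pool.Agent.R351.GF.Fin

/-!
# All families of polynomials, all heights
-/

set_option autoImplicit false

namespace Pool.Agent.K3h1.LM

open Finset Pool.Agent.R351.GF Polynomial

theorem BadV.mono {M δ C C' H : ℕ} {v : Fin M → ℤ} (h : BadV δ C' H v) (hC : C ≤ C') : BadV δ C H v := by
  obtain ⟨l, h1, h2, P, h3, h4, h5, h6⟩ := h
  refine ⟨l, h1, h2, P, h3, h4, h5, lt_of_le_of_lt ?_ h6⟩
  refine mul_le_mul_of_nonneg_left (pow_le_pow_right₀ ?_ hC) (norm_nonneg _)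
  linarith [(Nat.cast_nonneg H : (0 : ℝ) ≤ H)]

/-- the polynomials with given coefficients -/
noncomputable def polc {k K D : ℕ} (c : Fin k × Fin K × Fin (D + 1) → ℤ) (i : Fin k) (s : Fin K) : ℤ[X] :=
  ∑ l : Fin (D + 1), C (c (i, s, l)) * X ^ (l : ℕ)

theorem polc_coeff {k K D : ℕ} (f : Fin k → Fin K → ℤ[X]) (hf : ∀ i s, (f i s).natDegree ≤ D) :
    polc (fun x : Fin k × Fin K × Fin (D + 1) => (f x.1 x.2.1).coeff x.2.2) = f := by
  funext i s
  rw [polc]
  conv_rhs => rw [(f i s).as_sum_range_C_mul_X_pow' (n := D + 1) (Nat.lt_succ_of_le (hf i s))]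
  rw [Finset.sum_range]

open Classical in
/-- the exceptional tuples -/
noncomputable def exc (k K D δ C T H h : ℕ) : Finset (Fin k → ℕ) :=
  (Fintype.piFinset fun _ : Fin k => Ioc 0 T).filter fun n =>
    ∃ f : Fin k → Fin K → ℤ[X], (∀ i, Fam D h (f i)) ∧ BadV δ C H (vals f n)

open Classical in
theorem card_exc (k K D δ C T H h : ℕ) {R : ℝ}
    (hR : ∀ f : Fin k → Fin K → ℤ[X], (∀ i, Fam D h (f i)) →
      (((Fintype.piFinset fun _ : Fin k => Ioc 0 T).filter fun n => BadV δ C H (vals f n)).card : ℝ) ≤ R)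
    (hR0 : 0 ≤ R) :
    ((exc k K D δ C T H h).card : ℝ) ≤ ((2 * h + 1 : ℕ) : ℝ) ^ (k * (K * (D + 1))) * R := by
  classical
  set Ω : Finset (Fin k × Fin K × Fin (D + 1) → ℤ) := Fintype.piFinset fun _ => Icc (-(h : ℤ)) h with hΩ
  set bad : (Fin k × Fin K × Fin (D + 1) → ℤ) → Finset (Fin k → ℕ) := fun c =>
    if ∀ i, Fam D h (polc (k := k) (K := K) c i) then
      (Fintype.piFinset fun _ : Fin k => Ioc 0 T).filter fun n => BadV δ C H (vals (polc c) n)
    else ∅ with hbad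
  have hsub : exc k K D δ C T H h ⊆ Ω.biUnion bad := by
    intro n hn
    obtain ⟨h1, f, hf, hfb⟩ := mem_filter.1 hn
    have hpc := polc_coeff f (fun i s => ((hf i).1 s).2)
    refine mem_biUnion.2 ⟨fun x => (f x.1 x.2.1).coeff x.2.2, ?_, ?_⟩
    · rw [hΩ, Fintype.mem_piFinset]
      intro x
      rw [mem_Icc]
      exact abs_le.1 ((hf x.1).2.1 x.2.1 x.2.2)
    · rw [hbad]
      simp only
      rw [if_pos (by rw [hpc]; exact hf), mem_filter, hpc]
      exact ⟨h1, hfb⟩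
  have h1 : ((exc k K D δ C T H h).card : ℝ) ≤ ∑ c ∈ Ω, ((bad c).card : ℝ) := by
    have := (card_le_card hsub).trans card_biUnion_le
    exact_mod_cast this
  have h2 : ∀ c ∈ Ω, ((bad c).card : ℝ) ≤ R := by
    intro c _
    rw [hbad]
    simp only
    split_ifs with hc
    · refine le_of_eq_of_le ?_ (hR _ hc)
      congr!
    · simpa using hR0
  refine h1.trans ((Finset.sum_le_sum h2).trans ?_)
  rw [Finset.sum_const, nsmul_eq_mul]
  refine mul_le_mul_of_nonneg_right (le_of_eq ?_) hR0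
  rw [hΩ, Fintype.card_piFinset, Finset.prod_const, Finset.card_univ, Int.card_Icc,
    Fintype.card_prod, Fintype.card_prod, Fintype.card_fin, Fintype.card_fin, Fintype.card_fin]
  have h3 : ((h : ℤ) + 1 - -(h : ℤ)).toNat = 2 * h + 1 := by omega
  rw [h3]
  push_cast
  rfl

/-- **The count at one scale**, for all families at once. -/
theorem unionP (k K D δ : ℕ) : ∃ C : ℕ, 0 < C ∧ ∀ T H h : ℕ, 1 ≤ T → T ≤ H → (h + 2) ^ C ≤ T →
    ((exc k K D δ C T H h).card : ℝ) ≤ C * (T : ℝ) ^ ((k : ℝ) - 1 / C) := by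
  classical
  obtain ⟨C₁, hC₁, hs⟩ := scaleP k K D δ
  set M : ℕ := k * (K * (D + 1)) with hM
  set C : ℕ := (4 * M + 2) * C₁ with hC
  have hC1le : C₁ ≤ C := by rw [hC]; nlinarith
  refine ⟨C, by positivity, fun T H h hT hTH hhT => ?_⟩
  have ht1 : (1 : ℝ) ≤ T := by exact_mod_cast hT
  have ht0 : (0 : ℝ) < T := by linarith
  have hC₁0 : (0 : ℝ) < C₁ := by exact_mod_cast hC₁
  have hCr : (C : ℝ) = (4 * M + 2) * C₁ := by rw [hC]; push_cast; ring
  have hM0 : (0 : ℝ) ≤ M := Nat.cast_nonneg M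
  have hC0 : (0 : ℝ) < C := by rw [hCr]; positivity
  have h1 : ((exc k K D δ C T H h).card : ℝ) ≤ (exc k K D δ C₁ T H h).card := by
    have : exc k K D δ C T H h ⊆ exc k K D δ C₁ T H h := by
      intro n hn
      obtain ⟨h2, f, hf, hb⟩ := mem_filter.1 hn
      exact mem_filter.2 ⟨h2, f, hf, hb.mono hC1le⟩
    exact_mod_cast card_le_card this
  have hhT1 : (h + 2) ^ C₁ ≤ T := (Nat.pow_le_pow_right (by omega) hC1le).trans hhT
  have h2 := card_exc k K D δ C₁ T H h (R := C₁ * (T : ℝ) ^ ((k : ℝ) - 1 / C₁))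
    (fun f hf => hs T H h hT hTH hhT1 f hf) (by positivity)
  refine h1.trans (h2.trans ?_)
  have h3 : ((2 * h + 1 : ℕ) : ℝ) ^ M ≤ (T : ℝ) ^ (1 / (2 * C₁ : ℝ)) := by
    have h4 : ((2 * h + 1 : ℕ) : ℝ) ^ M ≤ (((h : ℝ) + 2) ^ 2) ^ M := by
      refine pow_le_pow_left₀ (by positivity) ?_ _
      push_cast
      nlinarith [(Nat.cast_nonneg h : (0 : ℝ) ≤ h)]
    have h5 : ((h : ℝ) + 2) ^ C ≤ T := by exact_mod_cast hhT
    have h6 : (((h : ℝ) + 2) ^ 2) ^ M = (((h : ℝ) + 2) ^ C) ^ ((2 * M : ℝ) / C) := by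
      rw [← pow_mul, ← Real.rpow_natCast, ← Real.rpow_natCast ((h : ℝ) + 2) C,
        ← Real.rpow_mul (by positivity)]
      congr 1
      push_cast
      field_simp
    rw [h6] at h4
    refine h4.trans ((Real.rpow_le_rpow (by positivity) h5 (by positivity)).trans ?_)
    apply Real.rpow_le_rpow_of_exponent_le ht1
    rw [div_le_div_iff₀ hC0 (by positivity), hCr]
    nlinarith
  calc ((2 * h + 1 : ℕ) : ℝ) ^ M * (C₁ * (T : ℝ) ^ ((k : ℝ) - 1 / C₁)) ≤
        (T : ℝ) ^ (1 / (2 * C₁ : ℝ)) * (C₁ * (T : ℝ) ^ ((k : ℝ) - 1 / C₁)) :=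
        mul_le_mul_of_nonneg_right h3 (by positivity)
    _ = C₁ * (T : ℝ) ^ ((k : ℝ) - 1 / (2 * C₁)) := by
        rw [mul_left_comm, ← Real.rpow_add ht0]
        congr 2
        field_simp
        ring
    _ ≤ C * (T : ℝ) ^ ((k : ℝ) - 1 / C) := by
        refine mul_le_mul (by exact_mod_cast hC1le) ?_ (Real.rpow_nonneg ht0.le _) hC0.le
        apply Real.rpow_le_rpow_of_exponent_le ht1
        have : 1 / (C : ℝ) ≤ 1 / (2 * C₁) := by
          apply one_div_le_one_div_of_le (by positivity)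
          rw [hCr]
          nlinarith
        linarith

/-! ### Real heights -/

/-- There are logarithms `l i` of the integers `v i` with `|Im (l i)| ≤ H`, and a nonzero polynomial with
integer coefficients, of degree at most `d` and height at most `H`, whose value at `l` has absolute
value smaller than `η`. -/
def SmlV {σ : Type} (d : ℕ) (H η : ℝ) (v : σ → ℤ) : Prop :=
  ∃ l : σ → ℂ, (∀ i, Complex.exp (l i) = v i) ∧ (∀ i, |(l i).im| ≤ H) ∧
    ∃ P : MvPolynomial σ ℤ, P ≠ 0 ∧ P.totalDegree ≤ d ∧ (∀ s, |((P.coeff s : ℤ) : ℝ)| ≤ H) ∧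
      ‖MvPolynomial.aeval l P‖ < η

/-- families with real parameters -/
def FamR {K : ℕ} (D : ℕ) (h : ℝ) (f : Fin K → ℤ[X]) : Prop :=
  (∀ s, 1 ≤ (f s).natDegree ∧ (f s).natDegree ≤ D) ∧ (∀ s l, |(((f s).coeff l : ℤ) : ℝ)| ≤ h) ∧
    Squarefree (∏ s, (f s).map (Int.castRingHom ℚ))

theorem FamR.toFam {K D : ℕ} {h : ℝ} {f : Fin K → ℤ[X]} (hf : FamR D h f) :
    Fam D ⌊h⌋₊ f := by
  refine ⟨hf.1, fun s l => ?_, by rw [Polynomial.map_prod]; exact hf.2.2⟩
  have h1 := hf.2.1 s l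
  have h2 : (((f s).coeff l).natAbs : ℝ) ≤ h := by
    rw [Nat.cast_natAbs, Int.cast_abs]
    exact h1
  have h3 : ((f s).coeff l).natAbs ≤ ⌊h⌋₊ := Nat.le_floor h2
  rw [← Int.natCast_natAbs]
  exact_mod_cast h3

theorem badV_of_smlV {k K D δ C N T : ℕ} {H h η : ℝ} {f : Fin k → Fin K → ℤ[X]} {n : Fin k → ℕ}
    (hn : n ∈ Fintype.piFinset fun _ : Fin k => Ioc 0 T) (hf : ∀ i, FamR D h (f i))
    (hhT : h ≤ T) (hN : H + (D + 1) * T ≤ N) (hη : η * ((N : ℝ) + 2) ^ C ≤ 1)
    (hs : SmlV δ H η (fun p : Fin k × Fin K => (f p.1 p.2).eval (n p.1 : ℤ))) :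
    BadV δ C N (vals f n) := by
  obtain ⟨l, hl, hlH, P, hP0, hPd, hPH, hPv⟩ := hs
  have hTn : (0 : ℝ) ≤ T := Nat.cast_nonneg _
  have hD0 : (0 : ℝ) ≤ D := Nat.cast_nonneg D
  refine ⟨fun x => l (finProdFinEquiv.symm x), fun x => hl _, fun x => ?_,
    MvPolynomial.rename finProdFinEquiv P, ?_, ?_, fun s => ?_, ?_⟩
  · set p := finProdFinEquiv.symm x
    have h1 := Complex.norm_le_abs_re_add_abs_im (l p)
    have hT1 : (1 : ℝ) ≤ T := by
      have h2 := mem_Ioc.1 (Fintype.mem_piFinset.1 hn p.1)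
      have : 1 ≤ T := by omega
      exact_mod_cast this
    have h2 : |(l p).re| ≤ (D + 1) * T := by
      have h3 : Real.exp (l p).re = |(((f p.1 p.2).eval (n p.1 : ℤ) : ℤ) : ℝ)| := by
        have := congrArg norm (hl p)
        rwa [Complex.norm_exp, Complex.norm_intCast] at this
      have hv1 : (1 : ℝ) ≤ |(((f p.1 p.2).eval (n p.1 : ℤ) : ℤ) : ℝ)| := by
        have h4 : (f p.1 p.2).eval (n p.1 : ℤ) ≠ 0 := by
          intro h0
          rw [h0] at h3
          simp only [Int.cast_zero, abs_zero] at h3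
          exact (Real.exp_pos _).ne' h3
        have := Int.one_le_abs h4
        exact_mod_cast this
      have h4 : (l p).re = Real.log |(((f p.1 p.2).eval (n p.1 : ℤ) : ℤ) : ℝ)| := by
        rw [← h3, Real.log_exp]
      rw [h4, abs_of_nonneg (Real.log_nonneg hv1)]
      have h5 := eval_le (f := f p.1 p.2) (D := D) (h := (T : ℝ)) (y := (T : ℝ))
        (x := (n p.1 : ℤ)) ((hf p.1).1 p.2).2 hTn (fun l => ((hf p.1).2.1 p.2 l).trans hhT) hT1 (by
          push_cast
          rw [abs_of_nonneg (by positivity)]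
          exact_mod_cast (mem_Ioc.1 (Fintype.mem_piFinset.1 hn p.1)).2)
      have h6 : (T : ℝ) * (T : ℝ) ^ D = (T : ℝ) ^ (D + 1) := by ring
      rw [h6] at h5
      refine (Real.log_le_log (by linarith) h5).trans ?_
      rw [Real.log_mul (by positivity) (by positivity), Real.log_pow]
      have h7 := Real.log_le_sub_one_of_pos (show (0 : ℝ) < (D : ℝ) + 1 by positivity)
      have h8 := Real.log_le_sub_one_of_pos (show (0 : ℝ) < (T : ℝ) by linarith)
      push_cast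
      nlinarith
    have h3 := hlH p
    linarith
  · intro h
    exact hP0 (MvPolynomial.rename_injective _ finProdFinEquiv.injective (by rw [h, map_zero]))
  · exact (MvPolynomial.totalDegree_rename_le _ _).trans hPd
  · by_cases hs : ∃ u : (Fin k × Fin K) →₀ ℕ, u.mapDomain finProdFinEquiv = s
    · obtain ⟨u, rfl⟩ := hs
      rw [MvPolynomial.coeff_rename_mapDomain _ finProdFinEquiv.injective]
      have h1 := hPH u
      have h2 : |((P.coeff u : ℤ) : ℝ)| ≤ N := by nlinarith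
      exact_mod_cast h2
    · rw [MvPolynomial.coeff_rename_eq_zero]
      · rw [abs_zero]
        exact Int.natCast_nonneg _
      · intro u hu
        exact absurd ⟨u, hu⟩ hs
  · rw [MvPolynomial.aeval_rename]
    have h1 : (fun x => l (finProdFinEquiv.symm x)) ∘ finProdFinEquiv = l := by
      funext p
      exact congrArg l (Equiv.symm_apply_apply _ p)
    rw [h1]
    have hp : (0 : ℝ) < ((N : ℝ) + 2) ^ C := by positivity
    calc ‖MvPolynomial.aeval l P‖ * ((N : ℝ) + 2) ^ C < η * ((N : ℝ) + 2) ^ C :=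
          mul_lt_mul_of_pos_right hPv hp
      _ ≤ 1 := hη

end Pool.Agent.K3h1.LM
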