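import Mathlib
import Pool.Agent.K3h1.LM.Un

/-!
# The measure for almost all tuples, all families of polynomials, all heights
-/

set_option autoImplicit false

namespace Pool.Agent.K3h1.LM

open Finset Pool.Agent.R351.GF Polynomial

/-- the values of the families of polynomials -/
def val2 {k K : ℕ} (f : Fin k → Fin K → ℤ[X]) (n : Fin k → ℕ) (p : Fin k × Fin K) : ℤ :=
  (f p.1 p.2).eval (n p.1 : ℤ)

theorem le_two_pow' (D : ℕ) : ((D : ℝ) + 1) ≤ 2 ^ D := by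
  have h1 : D + 1 ≤ 2 ^ D := Nat.lt_two_pow_self
  exact_mod_cast h1

/-- small values at height `H` are bad at a scale -/
theorem scale_ineq {D C N T : ℕ} {H : ℝ} (hT : (1 : ℝ) ≤ T) (hH : 2 ≤ H)
    (hN : ((N : ℝ) + 2) ≤ (T * H) ^ (D + 5)) : 1 / (T * H) ^ ((D + 5) * C) * ((N : ℝ) + 2) ^ C ≤ 1 := by
  have h0 : (0 : ℝ) < (T * H) ^ ((D + 5) * C) := by positivity
  rw [div_mul_eq_mul_div, one_mul, div_le_one h0, pow_mul]
  exact pow_le_pow_left₀ (by positivity) hN _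

open Classical in
theorem main (k K D δ : ℕ) : ∃ C : ℕ, 0 < C ∧ ∀ T : ℕ, 1 ≤ T →
    ((((Fintype.piFinset fun _ : Fin k => Ioc 0 T).filter fun n =>
        ∃ f : Fin k → Fin K → ℤ[X], (∀ i, FamR D ((T : ℝ) ^ (1 / (C : ℝ))) (f i)) ∧
          ∃ H : ℝ, 2 ≤ H ∧ H ≤ Real.exp (Real.exp ((T : ℝ) ^ (1 / (C : ℝ)))) ∧
            SmlV δ H (1 / (T * H) ^ C) (val2 f n)).card : ℝ) ≤
        C * (T : ℝ) ^ ((k : ℝ) - 1 / C)) ∧
    (∀ H : ℝ, 2 ≤ H → T ≤ H →
      (((Fintype.piFinset fun _ : Fin k => Ioc 0 T).filter fun n =>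
        ∃ f : Fin k → Fin K → ℤ[X], (∀ i, FamR D ((T : ℝ) ^ (1 / (C : ℝ))) (f i)) ∧
          SmlV δ H (1 / H ^ C) (val2 f n)).card : ℝ) ≤ C * (T : ℝ) ^ ((k : ℝ) - 1 / C)) ∧
    (∀ 𝓗 : Set ℝ, ¬ BddAbove 𝓗 →
      (((Fintype.piFinset fun _ : Fin k => Ioc 0 T).filter fun n =>
        ∃ f : Fin k → Fin K → ℤ[X], (∀ i, FamR D ((T : ℝ) ^ (1 / (C : ℝ))) (f i)) ∧
          ∃ H₀ : ℝ, ∀ H ∈ 𝓗, H₀ ≤ H → SmlV δ H (1 / H ^ C) (val2 f n)).card : ℝ) ≤
        C * (T : ℝ) ^ ((k : ℝ) - 1 / C)) := by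
  classical
  obtain ⟨C₁, hC₁, hu⟩ := unionP k K D δ
  set C : ℕ := 9 ^ C₁ + 10 * (D + 6) * C₁ with hC
  have hC9 : 9 ^ C₁ ≤ C := Nat.le_add_right _ _
  have hC0N : 0 < C := by rw [hC]; positivity
  refine ⟨C, hC0N, fun T hT => ?_⟩
  have ht1 : (1 : ℝ) ≤ T := by exact_mod_cast hT
  have ht0 : (0 : ℝ) < T := by linarith
  have hC0 : (0 : ℝ) < C := by exact_mod_cast hC0N
  have hC1C : (1 : ℝ) ≤ C := by exact_mod_cast hC0N
  have hC₁0 : (0 : ℝ) < C₁ := by exact_mod_cast hC₁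
  have hCr : (10 * (D + 6) * C₁ : ℝ) ≤ C := by
    have : 10 * (D + 6) * C₁ ≤ C := Nat.le_add_left _ _
    exact_mod_cast this
  have hDC : (D + 5) * C₁ ≤ C := by
    have h1 : (D + 5) * C₁ ≤ 10 * (D + 6) * C₁ := Nat.mul_le_mul_right _ (by omega)
    exact h1.trans (Nat.le_add_left _ _)
  have hD0 : (0 : ℝ) ≤ D := Nat.cast_nonneg D
  have hC10 : (10 * C₁ : ℝ) ≤ C := by nlinarith
  set x : ℝ := (T : ℝ) ^ (1 / (C : ℝ)) with hx
  have hx1 : 1 ≤ x := Real.one_le_rpow ht1 (by positivity)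
  have hxT : x ≤ T := by
    calc x ≤ (T : ℝ) ^ (1 : ℝ) := Real.rpow_le_rpow_of_exponent_le ht1 (by
          rw [div_le_one hC0]; exact hC1C)
      _ = T := Real.rpow_one _
  have hTk : (0 : ℝ) ≤ (T : ℝ) ^ ((k : ℝ) - 1 / C) := Real.rpow_nonneg ht0.le _
  -- all the sets are small for small `T`
  have hsmall : (T : ℝ) ≤ 9 ^ C₁ → ∀ S : Finset (Fin k → ℕ), S ⊆ (Fintype.piFinset fun _ : Fin k => Ioc 0 T) →
      (S.card : ℝ) ≤ C * (T : ℝ) ^ ((k : ℝ) - 1 / C) := by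
    intro hT9 S hS
    have h1 : S.card ≤ T ^ k := by
      refine (card_le_card hS).trans ?_
      rw [Fintype.card_piFinset_const, Nat.card_Ioc, Nat.sub_zero]
    have h2 : (S.card : ℝ) ≤ (T : ℝ) ^ k := by exact_mod_cast h1
    have h3 : (T : ℝ) ^ k = x * (T : ℝ) ^ ((k : ℝ) - 1 / C) := by
      rw [hx, ← Real.rpow_add ht0, ← Real.rpow_natCast]
      congr 1
      ring
    rw [h3] at h2
    refine h2.trans (mul_le_mul_of_nonneg_right ?_ hTk)
    have h4 : ((9 ^ C₁ : ℕ) : ℝ) ≤ C := by exact_mod_cast hC9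
    push_cast at h4
    linarith
  rcases le_or_gt (T : ℝ) (9 ^ C₁) with hT9 | hT9
  · exact ⟨hsmall hT9 _ (filter_subset _ _), fun H _ _ => hsmall hT9 _ (filter_subset _ _),
      fun _ _ => hsmall hT9 _ (filter_subset _ _)⟩
  set h : ℕ := ⌊x⌋₊ with hh
  have hhx : (h : ℝ) ≤ x := Nat.floor_le (by linarith)
  -- the height is small
  have hhT : (h + 2) ^ C₁ ≤ T := by
    have h1 : ((h : ℝ) + 2) ^ C₁ ≤ T := by
      have h2 : ((h : ℝ) + 2) ≤ 3 * x := by linarith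
      have h3 : x ^ C₁ ≤ (T : ℝ) ^ (1 / 2 : ℝ) := by
        rw [hx, ← Real.rpow_mul_natCast ht0.le]
        apply Real.rpow_le_rpow_of_exponent_le ht1
        rw [div_mul_eq_mul_div, one_mul, div_le_div_iff₀ hC0 (by norm_num)]
        linarith
      have h4 : (3 : ℝ) ^ C₁ ≤ (T : ℝ) ^ (1 / 2 : ℝ) := by
        rw [← Real.sqrt_eq_rpow]
        apply Real.le_sqrt_of_sq_le
        calc ((3 : ℝ) ^ C₁) ^ 2 = 9 ^ C₁ := by rw [← pow_mul, mul_comm, pow_mul]; norm_num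
          _ ≤ T := hT9.le
      calc ((h : ℝ) + 2) ^ C₁ ≤ (3 * x) ^ C₁ := pow_le_pow_left₀ (by positivity) h2 _
        _ = 3 ^ C₁ * x ^ C₁ := mul_pow _ _ _
        _ ≤ (T : ℝ) ^ (1 / 2 : ℝ) * (T : ℝ) ^ (1 / 2 : ℝ) :=
            mul_le_mul h4 h3 (by positivity) (by positivity)
        _ = T := by
            rw [← Real.rpow_add ht0]
            norm_num
    exact_mod_cast h1
  have hpow : (T : ℝ) ^ ((k : ℝ) - 1 / C₁) ≤ (T : ℝ) ^ ((k : ℝ) - 1 / C) := by
    apply Real.rpow_le_rpow_of_exponent_le ht1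
    have : 1 / (C : ℝ) ≤ 1 / C₁ := one_div_le_one_div_of_le hC₁0 (by linarith)
    linarith
  have hT2 : 2 ≤ T := by
    have h1 : (9 : ℝ) ≤ 9 ^ C₁ := by
      calc (9 : ℝ) = 9 ^ 1 := (pow_one _).symm
        _ ≤ 9 ^ C₁ := pow_le_pow_right₀ (by norm_num) hC₁
    have h2 : (2 : ℝ) ≤ T := by linarith
    exact_mod_cast h2
  have hFam : ∀ f : Fin k → Fin K → ℤ[X], (∀ i, FamR D x (f i)) → ∀ i, Fam D h (f i) :=
    fun f hf i => (hf i).toFam
  -- one scale
  have hscale : ∀ H : ℝ, 2 ≤ H → T ≤ H →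
      (((Fintype.piFinset fun _ : Fin k => Ioc 0 T).filter fun n =>
        ∃ f : Fin k → Fin K → ℤ[X], (∀ i, FamR D x (f i)) ∧
        SmlV δ H (1 / H ^ C) (val2 f n)).card : ℝ) ≤ C * (T : ℝ) ^ ((k : ℝ) - 1 / C) := by
    intro H hH hTH
    have hHp : (0 : ℝ) < H := by linarith
    have hH1 : (1 : ℝ) ≤ H := by linarith
    set N := ⌈((D : ℝ) + 2) * H⌉₊ with hN
    have hN1 : ((D : ℝ) + 2) * H ≤ N := Nat.le_ceil _
    have hN2 : (N : ℝ) < ((D : ℝ) + 2) * H + 1 := Nat.ceil_lt_add_one (by positivity)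
    have hTN : T ≤ N := by
      have : (T : ℝ) ≤ N := by nlinarith
      exact_mod_cast this
    have hN3 : (N : ℝ) + 2 ≤ H ^ (D + 5) := by
      have h1 := le_two_pow' D
      have h2 : (2 : ℝ) ^ D ≤ H ^ D := pow_le_pow_left₀ (by norm_num) hH _
      have h3 : (1 : ℝ) ≤ H ^ D := one_le_pow₀ hH1
      have h4 : (16 : ℝ) * H ≤ H ^ 5 := by
        have : (2 : ℝ) ^ 4 ≤ H ^ 4 := pow_le_pow_left₀ (by norm_num) hH _
        nlinarith
      rw [pow_add]
      nlinarith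
    have hsub : ((Fintype.piFinset fun _ : Fin k => Ioc 0 T).filter fun n =>
        ∃ f : Fin k → Fin K → ℤ[X], (∀ i, FamR D x (f i)) ∧
        SmlV δ H (1 / H ^ C) (val2 f n)) ⊆ exc k K D δ C₁ T N h := by
      intro n hn
      obtain ⟨hnB, f, hf, hsm⟩ := mem_filter.1 hn
      refine mem_filter.2 ⟨hnB, f, hFam f hf, badV_of_smlV hnB hf hxT ?_ ?_ hsm⟩
      · nlinarith
      · have hp : (0 : ℝ) < H ^ C := by positivity
        rw [div_mul_eq_mul_div, one_mul, div_le_one hp]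
        calc ((N : ℝ) + 2) ^ C₁ ≤ (H ^ (D + 5)) ^ C₁ := pow_le_pow_left₀ (by positivity) hN3 _
          _ = H ^ ((D + 5) * C₁) := by rw [← pow_mul]
          _ ≤ H ^ C := pow_le_pow_right₀ hH1 hDC
    have h1 : (((Fintype.piFinset fun _ : Fin k => Ioc 0 T).filter fun n =>
        ∃ f : Fin k → Fin K → ℤ[X], (∀ i, FamR D x (f i)) ∧
        SmlV δ H (1 / H ^ C) (val2 f n)).card : ℝ) ≤ (exc k K D δ C₁ T N h).card := by
      exact_mod_cast card_le_card hsub
    refine h1.trans ((hu T N h hT hTN hhT).trans ?_)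
    exact mul_le_mul (by linarith) hpow (Real.rpow_nonneg ht0.le _) hC0.le
  refine ⟨?_, hscale, fun 𝓗 h𝓗 => ?_⟩
  · -- the range
    set T' : ℕ := (D + 1) * T with hT'
    have hT'r : (T' : ℝ) = ((D : ℝ) + 1) * T := by rw [hT']; push_cast; ring
    have hTT' : T ≤ T' := by rw [hT']; nlinarith
    set I := ⌈3 * x⌉₊ with hI
    have hI2 : (I : ℝ) + 1 ≤ 5 * x := by
      have := Nat.ceil_lt_add_one (by linarith : (0 : ℝ) ≤ 3 * x)
      rw [← hI] at this
      linarith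
    set S := (Fintype.piFinset fun _ : Fin k => Ioc 0 T).filter fun n =>
        ∃ f : Fin k → Fin K → ℤ[X], (∀ i, FamR D x (f i)) ∧
          ∃ H : ℝ, 2 ≤ H ∧ H ≤ Real.exp (Real.exp x) ∧
            SmlV δ H (1 / (T * H) ^ C) (val2 f n) with hS
    have hsub : S ⊆ (range (I + 1)).biUnion fun i => exc k K D δ C₁ T (scl T' i) h := by
      intro n hn
      obtain ⟨hnB, f, hf, H, hH, hHx, hsm⟩ := mem_filter.1 hn
      have hHp : (0 : ℝ) < H := by linarith
      have hH1 : (1 : ℝ) ≤ H := by linarith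
      have hex : ∃ i, 2 * H ≤ scl T' i := ⟨I, scl_bound (hT2.trans hTT') hx1 hHx⟩
      set i := Nat.find hex with hi
      have hi1 : 2 * H ≤ scl T' i := Nat.find_spec hex
      have hiI : i ≤ I := Nat.find_min' hex (scl_bound (hT2.trans hTT') hx1 hHx)
      have h4T : (4 * (T' : ℝ)) ≤ scl T' i := by
        have := four_le_scl (T := T') (by omega) i
        exact_mod_cast this
      rw [mem_biUnion]
      refine ⟨i, mem_range.2 (by omega), mem_filter.2 ⟨hnB, f, hFam f hf,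
        badV_of_smlV hnB hf hxT ?_ ?_ hsm⟩⟩
      · rw [← hT'r]
        linarith [(Nat.cast_nonneg T' : (0 : ℝ) ≤ T')]
      · have hTH2 : (2 : ℝ) ≤ T * H := by nlinarith
        have hTH1 : (1 : ℝ) ≤ T * H := by linarith
        have hNle : ((scl T' i : ℕ) : ℝ) + 2 ≤ (T * H) ^ (D + 5) := by
          have h3 : (1 : ℝ) ≤ (T * H) ^ D := one_le_pow₀ hTH1
          have h16 : (16 : ℝ) ≤ (T * H) ^ 4 := by
            have : (2 : ℝ) ^ 4 ≤ (T * H) ^ 4 := pow_le_pow_left₀ (by norm_num) hTH2 _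
            linarith
          rcases Nat.eq_zero_or_pos i with h0 | hpos
          · rw [h0, scl_zero]
            push_cast
            rw [hT'r]
            have h1 := le_two_pow' D
            have h2 : (2 : ℝ) ^ D ≤ (T * H) ^ D := pow_le_pow_left₀ (by norm_num) hTH2 _
            have h5 : (T : ℝ) ≤ T * H := le_mul_of_one_le_right ht0.le hH1
            have h6 : ((D : ℝ) + 1) * T ≤ (T * H) ^ D * (T * H) :=
              mul_le_mul (h1.trans h2) h5 ht0.le (by positivity)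
            have h7 : (T * H) ^ (D + 5) = ((T * H) ^ D * (T * H)) * (T * H) ^ 4 := by ring
            rw [h7]
            have h8 : (1 : ℝ) ≤ (T * H) ^ D * (T * H) := one_le_mul_of_one_le_of_one_le h3 hTH1
            have h9 : (T * H) ^ D * (T * H) * 16 ≤ (T * H) ^ D * (T * H) * (T * H) ^ 4 :=
              mul_le_mul_of_nonneg_left h16 (by linarith)
            linarith
          · obtain ⟨j, hj⟩ := Nat.exists_eq_succ_of_ne_zero hpos.ne'
            have hj1 : ¬ 2 * H ≤ scl T' j := Nat.find_min hex (by omega)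
            rw [not_le] at hj1
            rw [hj, Nat.succ_eq_add_one, scl_succ]
            push_cast
            have h0 : (0 : ℝ) ≤ scl T' j := Nat.cast_nonneg _
            have h1 : ((scl T' j : ℝ) ^ 2 + 2) ≤ H ^ 5 := by
              have hH3 : (5 : ℝ) ≤ H ^ 3 := by
                have : (2 : ℝ) ^ 3 ≤ H ^ 3 := pow_le_pow_left₀ (by norm_num) hH 3
                norm_num at this
                linarith
              calc (scl T' j : ℝ) ^ 2 + 2 ≤ (2 * H) ^ 2 + 2 := by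
                    have := pow_le_pow_left₀ h0 hj1.le 2
                    linarith
                _ ≤ 5 * H ^ 2 := by nlinarith
                _ ≤ H ^ 3 * H ^ 2 := mul_le_mul_of_nonneg_right hH3 (by positivity)
                _ = H ^ 5 := by ring
            have h5 : H ≤ T * H := le_mul_of_one_le_left hHp.le ht1
            calc ((scl T' j : ℝ) ^ 2 + 2) ≤ H ^ 5 := h1
              _ ≤ (T * H) ^ 5 := pow_le_pow_left₀ hHp.le h5 _
              _ ≤ (T * H) ^ (D + 5) := pow_le_pow_right₀ hTH1 (by omega)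
        have hkey := scale_ineq (C := C₁) ht1 hH hNle
        refine le_trans ?_ hkey
        refine mul_le_mul_of_nonneg_right ?_ (by positivity)
        apply one_div_le_one_div_of_le (by positivity)
        exact pow_le_pow_right₀ hTH1 hDC
    have h1 : (S.card : ℝ) ≤ ∑ i ∈ range (I + 1), ((exc k K D δ C₁ T (scl T' i) h).card : ℝ) := by
      have := (card_le_card hsub).trans card_biUnion_le
      exact_mod_cast this
    have h2 : (S.card : ℝ) ≤ (I + 1) * (C₁ * (T : ℝ) ^ ((k : ℝ) - 1 / C₁)) := by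
      refine h1.trans ((Finset.sum_le_sum fun i _ => hu T _ h hT (hTT'.trans (le_scl (by omega) i)) hhT).trans ?_)
      rw [Finset.sum_const, nsmul_eq_mul, card_range]
      push_cast
      exact le_rfl
    refine h2.trans ?_
    have h4 : x * (T : ℝ) ^ ((k : ℝ) - 1 / C₁) ≤ (T : ℝ) ^ ((k : ℝ) - 1 / C) := by
      rw [hx, ← Real.rpow_add ht0]
      apply Real.rpow_le_rpow_of_exponent_le ht1
      have h5 : 1 / (C : ℝ) ≤ 1 / (2 * C₁) := one_div_le_one_div_of_le (by positivity) (by linarith)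
      have h6 : 1 / (C₁ : ℝ) = 2 * (1 / (2 * C₁)) := by field_simp
      linarith
    have h6 : (0 : ℝ) ≤ C₁ * (T : ℝ) ^ ((k : ℝ) - 1 / C₁) :=
      mul_nonneg hC₁0.le (Real.rpow_nonneg ht0.le _)
    calc ((I : ℝ) + 1) * (C₁ * (T : ℝ) ^ ((k : ℝ) - 1 / C₁)) ≤
          5 * x * (C₁ * (T : ℝ) ^ ((k : ℝ) - 1 / C₁)) := mul_le_mul_of_nonneg_right hI2 h6
      _ = 5 * C₁ * (x * (T : ℝ) ^ ((k : ℝ) - 1 / C₁)) := by ring
      _ ≤ 5 * C₁ * (T : ℝ) ^ ((k : ℝ) - 1 / C) := mul_le_mul_of_nonneg_left h4 (by positivity)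
      _ ≤ C * (T : ℝ) ^ ((k : ℝ) - 1 / C) := mul_le_mul_of_nonneg_right (by linarith) hTk
  · -- infinitely many scales
    set S := (Fintype.piFinset fun _ : Fin k => Ioc 0 T).filter fun n =>
        ∃ f : Fin k → Fin K → ℤ[X], (∀ i, FamR D x (f i)) ∧
        ∃ H₀ : ℝ, ∀ H ∈ 𝓗, H₀ ≤ H → SmlV δ H (1 / H ^ C) (val2 f n) with hS
    have hex : ∀ n : Fin k → ℕ, ∃ H₀ : ℝ, n ∈ S → ∃ f : Fin k → Fin K → ℤ[X], (∀ i, FamR D x (f i)) ∧
        ∀ H ∈ 𝓗, H₀ ≤ H → SmlV δ H (1 / H ^ C) (val2 f n) := by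
      intro n
      by_cases hn : n ∈ S
      · obtain ⟨f, hf, H₀, h⟩ := (mem_filter.1 hn).2
        exact ⟨H₀, fun _ => ⟨f, hf, h⟩⟩
      · exact ⟨0, fun h => absurd h hn⟩
    choose H₀ hH₀ using hex
    obtain ⟨B, hB⟩ := (S.image H₀).bddAbove
    obtain ⟨H, hH𝓗, hH⟩ := not_bddAbove_iff.1 h𝓗 (max B (max 2 T))
    have h2 : (2 : ℝ) ≤ H := ((le_max_left _ _).trans (le_max_right _ _)).trans hH.le
    have h3 : (T : ℝ) ≤ H := ((le_max_right _ _).trans (le_max_right _ _)).trans hH.le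
    have h4 : B ≤ H := (le_max_left _ _).trans hH.le
    refine le_trans ?_ (hscale H h2 h3)
    have hsub : S ⊆ ((Fintype.piFinset fun _ : Fin k => Ioc 0 T).filter fun n =>
        ∃ f : Fin k → Fin K → ℤ[X], (∀ i, FamR D x (f i)) ∧
        SmlV δ H (1 / H ^ C) (val2 f n)) := by
      intro n hn
      obtain ⟨f, hf, hfH⟩ := hH₀ n hn
      refine mem_filter.2 ⟨(mem_filter.1 hn).1, f, hf, hfH H hH𝓗 (le_trans ?_ h4)⟩
      exact hB (by rw [coe_image]; exact ⟨n, hn, rfl⟩)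
    exact_mod_cast card_le_card hsub

end Pool.Agent.K3h1.LM
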