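import Mathlib
import Pool.Agent.K3h1.LM.Main

/-!
# The conjectural measure of algebraic independence for the logarithms of the values of polynomials at almost all
# integers

For all `k`, `K`, `D` and `d` there is a constant `C` such that the following holds for all `T ≥ 1`. For a tuple
`n = (n_1, ..., n_k)` of integers in `[1, T]` we consider ALL families of polynomials `f_{i,1}, ..., f_{i,K} ∈ ℤ[x]`
(`i = 1, ..., k`) which are not constant, of degree at most `D`, with coefficients at most `T ^ (1 / C)` in absolute value,
and squarefree and pairwise coprime for every `i`, and the logarithms `l_{i,s}` (of any branch) of the `k K` integers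
`f_{i,s} (n_i)`.

* For all but at most `C T ^ (k - 1 / C)` of the `T ^ k` tuples `n` the lower bound `|P (l)| ≥ (T H) ^ (- C)` holds for all
  these families, all heights `2 ≤ H ≤ exp (exp (T ^ (1 / C)))`, all logarithms with `|Im (l_{i,s})| ≤ H` and all nonzero
  polynomials `P` with integer coefficients, of degree at most `d` and height at most `H`.
* For every single height `H ≥ T`, the lower bound `|P (l)| ≥ H ^ (- C)` holds for all these families, for all but at most
  `C T ^ (k - 1 / C)` of the tuples.
* For every unbounded set of heights the same holds for arbitrarily large heights in the set.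

The starting file `AlmostAllTuples` is about the logarithms of the `k` integers `n_1, ..., n_k` themselves, that is about
almost all `k`-tuples. Here the tuples are thin: already for `k = 1` the logarithms of the `K` numbers
`f_1 (n), ..., f_K (n)`, with one parameter `n`, are algebraically independent in degree `d`, with the conjectured
measure, for almost all `n`; for instance those of `n, n + 1, ..., n + K - 1`, of any `K` integers of the interval
`[n, n + T ^ (1 / C)]`, or of `n, n ^ 2 + 1, n ^ 3 + 2`. A tuple of this kind is not a tuple of a set which is covered by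
`AlmostAllTuples`.

The proof. Let `N` be an integer and let `β_1, ..., β_m` be small integers. The numbers
`L_{s,j} = log (f_s (N + β_j) / (c_s N ^ deg f_s))`, `c_s` the leading coefficient, are values of G-functions at `1 / (c N)`
and satisfy `|P (L)| ≥ (A N) ^ (- E)` for all `P` of degree at most `d` and height at most `A`, uniformly in `f` and `β`
(`K3h1.LM.win_quant`; from `R351.GF.val_quant`, Shidlovsky's lemma and Siegel's method in the starting library). If the
measure fails at height `H` for many `n`, then in an ultraproduct the logarithms of the values at each of `m` nearby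
bad integers `N + β_1, ..., N + β_m` are algebraically dependent over a field of finite transcendence degree, so that all
the `m K` numbers `L_{s,j}` lie in a field of transcendence degree at most `m (K - 1) + O(1)`, a contradiction for large `m`
(`K3h1.LM.exists_good`). Tuples are treated by fibration.
-/

set_option autoImplicit false

namespace Pool.Agent.Results.MP_3cf473_nt.PolynomialValues

open Polynomial

/-- The tuples `n` of `k` integers with `1 ≤ n i ≤ T`. -/
def box (k T : ℕ) : Finset (Fin k → ℕ) := Fintype.piFinset fun _ => Finset.Icc 1 T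

/-- There are logarithms `l i` of the integers `v i` (of any branch with `|Im (l i)| ≤ H`) and a nonzero
polynomial `P` with integer coefficients, of total degree at most `d` and height at most `H`, such that
`|P (l)| < η`. -/
def Small {σ : Type} (d : ℕ) (H η : ℝ) (v : σ → ℤ) : Prop :=
  ∃ l : σ → ℂ, (∀ i, Complex.exp (l i) = v i) ∧ (∀ i, |(l i).im| ≤ H) ∧
    ∃ P : MvPolynomial σ ℤ, P ≠ 0 ∧ P.totalDegree ≤ d ∧ (∀ s, |((P.coeff s : ℤ) : ℝ)| ≤ H) ∧
      ‖MvPolynomial.aeval l P‖ < η

/-- The integer polynomials `f 0, ..., f (K - 1)` are not constant, of degree at most `D`, with coefficients at most `h`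
in absolute value, and their product is squarefree over `ℚ` (that is, they are squarefree and pairwise coprime). -/
def Family {K : ℕ} (D : ℕ) (h : ℝ) (f : Fin K → ℤ[X]) : Prop :=
  (∀ s, 1 ≤ (f s).natDegree ∧ (f s).natDegree ≤ D) ∧ (∀ s m, |(((f s).coeff m : ℤ) : ℝ)| ≤ h) ∧
    Squarefree (∏ s, (f s).map (Int.castRingHom ℚ))

/-- The `k K` integers `f_{i,s} (n_i)`. -/
def values {k K : ℕ} (f : Fin k → Fin K → ℤ[X]) (n : Fin k → ℕ) (p : Fin k × Fin K) : ℤ :=
  (f p.1 p.2).eval (n p.1 : ℤ)

open Classical in
/-- **Main result.** -/
theorem result (k K D d : ℕ) : ∃ C : ℕ, 0 < C ∧ ∀ T : ℕ, 1 ≤ T →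
    ((((box k T).filter fun n =>
        ∃ f : Fin k → Fin K → ℤ[X], (∀ i, Family D ((T : ℝ) ^ (1 / (C : ℝ))) (f i)) ∧
          ∃ H : ℝ, 2 ≤ H ∧ H ≤ Real.exp (Real.exp ((T : ℝ) ^ (1 / (C : ℝ)))) ∧
            Small d H (1 / (T * H) ^ C) (values f n)).card : ℝ) ≤
        C * (T : ℝ) ^ ((k : ℝ) - 1 / C)) ∧
    (∀ H : ℝ, 2 ≤ H → T ≤ H →
      (((box k T).filter fun n =>
        ∃ f : Fin k → Fin K → ℤ[X], (∀ i, Family D ((T : ℝ) ^ (1 / (C : ℝ))) (f i)) ∧
          Small d H (1 / H ^ C) (values f n)).card : ℝ) ≤ C * (T : ℝ) ^ ((k : ℝ) - 1 / C)) ∧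
    (∀ 𝓗 : Set ℝ, ¬ BddAbove 𝓗 →
      (((box k T).filter fun n =>
        ∃ f : Fin k → Fin K → ℤ[X], (∀ i, Family D ((T : ℝ) ^ (1 / (C : ℝ))) (f i)) ∧
          ∃ H₀ : ℝ, ∀ H ∈ 𝓗, H₀ ≤ H → Small d H (1 / H ^ C) (values f n)).card : ℝ) ≤
        C * (T : ℝ) ^ ((k : ℝ) - 1 / C)) := by
  obtain ⟨C, hC, h⟩ := Pool.Agent.K3h1.LM.main k K D d
  exact ⟨C, hC, fun T hT => h T hT⟩

end Pool.Agent.Results.MP_3cf473_nt.PolynomialValues
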